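import Mathlib
import Pool.Agent.Lib.MP_4b24a5_an.Defs

set_option autoImplicit false

/-!
# MP_4b24a5_an, project LB: lower bounds for the thresholds of `f ^ m * f'`, definitions

Idea. For `0 < t < 1` let `F = (C + B) exp (-t b)` with `B' = exp (t b)`, `B` bounded, `C` large;
then `F` has no zeros and `F' = 1 - t b' (C + B) exp (-t b)` does not take the value `1` if `b'` has
no zeros, and `T(r, F) = t * mean (Re b)⁺ + O(1)`. We need `b` with `b' ≠ 0`,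
`Re b ≤ L(|z|) + O(1)` and `mean (Re b)⁺ ≥ lam0 * L(r)` for a sequence of radii tending to `1`,
for a given `lam0 < 1`. It is constructed in stages. At a stage we have `b` holomorphic near the
closed disc, `b' = exp l`; the new function is `b* = bt / (1 + bt / R')` with
`bt' = exp (l + kap)`, `kap = -2 S q / (1 - q) - 2 log (1 - q)`, `q = r z ^ n`, `r = 1 - s⁻³`,
`S = s + tau(z)`, `tau` a Laurent polynomial which is real on the circle and there close to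
`- log |b'|`.
-/

noncomputable section

namespace Pool.Agent.MP4b24a5.LB

open Complex Metric Set MeasureTheory Filter Topology

/-- the mean of the positive part of the real part -/
def mp (b : ℂ → ℂ) (r : ℝ) : ℝ := Real.circleAverage (fun z => max (b z).re 0) 0 r

/-- the data of a stage: `b' = exp l` in a disc of radius `R > 1` -/
structure St (b l : ℂ → ℂ) (R : ℝ) : Prop where
  hR : 1 < R
  an : DifferentiableOn ℂ l (ball 0 R)
  der : ∀ z ∈ ball (0 : ℂ) R, HasDerivAt b (exp (l z)) z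

/-- bounds in the closed disc -/
structure Bdd (b l : ℂ → ℂ) (M : ℝ) : Prop where
  h1 : 1 ≤ M
  hb : ∀ z : ℂ, ‖z‖ ≤ 1 → ‖b z‖ ≤ M
  he : ∀ z : ℂ, ‖z‖ ≤ 1 → ‖exp (l z)‖ ≤ M
  hl : ∀ z : ℂ, ‖z‖ ≤ 1 → ‖deriv l z‖ ≤ M

/-- the parameters of a stage: `∑ a k z ^ k`, `k < N`, is a polynomial close to `l` -/
structure Prm where
  a : ℕ → ℂ
  N : ℕ
  n : ℕ
  s : ℝ

namespace Prm

variable (P : Prm)

/-- `r = 1 - s⁻³` -/
def rr : ℝ := 1 - (P.s ^ 3)⁻¹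

/-- `q = r z ^ n` -/
def q (z : ℂ) : ℂ := (P.rr : ℂ) * z ^ P.n

/-- the polynomial close to `l` -/
def T (z : ℂ) : ℂ := ∑ k ∈ Finset.range P.N, P.a k * z ^ k

/-- a Laurent polynomial, equal to `- Re T` on the unit circle -/
def tau (z : ℂ) : ℂ :=
  -(1 / 2) * ∑ k ∈ Finset.range P.N, (P.a k * z ^ k + (starRingEnd ℂ) (P.a k) * (z ^ k)⁻¹)

/-- the derivative of `tau` -/
def tau' (z : ℂ) : ℂ :=
  -(1 / 2) * ∑ k ∈ Finset.range P.N,
    (P.a k * (k * z ^ (k - 1)) - (starRingEnd ℂ) (P.a k) * (k * (z ^ (k + 1))⁻¹))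

/-- `S = s + tau` -/
def S (z : ℂ) : ℂ := (P.s : ℂ) + P.tau z

/-- the polynomial `z ^ n S(z)` -/
def Z (z : ℂ) : ℂ :=
  (P.s : ℂ) * z ^ P.n - (1 / 2) * ∑ k ∈ Finset.range P.N,
    (P.a k * z ^ (P.n + k) + (starRingEnd ℂ) (P.a k) * z ^ (P.n - k))

/-- `E = exp (-2 S q / (1 - q))` -/
def E (z : ℂ) : ℂ := exp (-2 * (P.rr : ℂ) * P.Z z / (1 - P.q z))

/-- `kap = -2 S q / (1 - q) - 2 log (1 - q)` -/
def kap (z : ℂ) : ℂ := -2 * (P.rr : ℂ) * P.Z z / (1 - P.q z) - 2 * log (1 - P.q z)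

/-- `x ^ n = s⁻⁴` -/
def x : ℝ := Real.exp (-(4 * Real.log P.s / P.n))

/-- the size of `V` on the circle -/
def R : ℝ := Real.exp P.s / (2 * P.n * P.s)

/-- the main part of `bt - b` near the circle -/
def V (l : ℂ → ℂ) (z : ℂ) : ℂ := -(z * exp (l z) * P.E z) / (2 * P.n * P.S z * P.q z)

/-- the decay of `E` in the radial direction -/
def Phi (y : ℝ) : ℝ := Real.exp (-(P.s * (1 - y ^ P.n) / 4))

end Prm

/-- the parameters are large enough; `M` bounds the data of the stage, `A` the coefficients of the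
polynomial -/
structure OK (P : Prm) (M A δ η : ℝ) : Prop where
  hM : 1 ≤ M
  hA0 : 0 ≤ A
  hA : ∑ k ∈ Finset.range P.N, ((k : ℝ) + 1) * ‖P.a k‖ * 2 ^ (k + 2) ≤ A
  hδ : 0 < δ
  hδ1 : δ ≤ 1 / 4
  hη : 0 < η
  hη1 : η ≤ 1
  hN : 2 * P.N ≤ P.n
  hn : 1 ≤ P.n
  hs : 2 ≤ P.s
  hsA : 2 * A + 2 ≤ P.s
  e1 : (4 * P.s + 4 * A + 4) / P.s ^ 2 ≤ η
  e2 : 4 * Real.log P.s / P.n ≤ Real.log 2
  e3 : 8 * A * P.s ^ 3 * Real.log P.s / P.n ≤ 1
  e4 : 2 + M + 2 * A + 2 * A * P.s ^ 3 ≤ P.n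
  e5 : 3 * M / P.R + M * Real.exp (A + 1) *
    (52 * P.s ^ 5 * Real.exp (-(P.s / 8)) + 192 / P.s) ≤ δ
  e6 : Real.exp (δ / 2) * (P.s / ((P.s - A) * (1 - (P.s ^ 3)⁻¹))) ≤ 1 + 2 * δ
  e7 : 1 - 2 * δ ≤ Real.exp (-(δ / 2)) * (P.s / (P.s + A)) *
    Real.exp (-((P.s + A) * (2 / P.s ^ 2)))

/-- everything about a stage; `bt' = exp (l + kap)` in a neighbourhood of the closed disc -/
structure Stg (b l : ℂ → ℂ) (R : ℝ) (P : Prm) (M A δ η : ℝ) (bt : ℂ → ℂ) : Prop where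
  st : St b l R
  bdd : Bdd b l M
  ok : OK P M A δ η
  app : ∀ z : ℂ, ‖z‖ ≤ 1 → ‖l z - P.T z‖ ≤ δ / 2
  bt0 : bt 0 = b 0
  der : ∀ z : ℂ, ‖z‖ ≤ 1 → HasDerivAt bt (exp (l z) * exp (P.kap z)) z

end Pool.Agent.MP4b24a5.LB
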