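import Pool.Agent.Lib.MP_4b24a5_an_T3.Fin
import Pool.Agent.Lib.MP_4b24a5_an_LB.Defs

set_option autoImplicit false

/-!
# MP_4b24a5_an, project LB: the order in terms of upper bounds
-/

noncomputable section

namespace Pool.Agent.MP4b24a5.LB

open Complex Metric Set MeasureTheory Filter Topology

/-- `φ r ≤ K' L r` near `1` for all `K' > K` -/
def Ale (φ : ℝ → ℝ) (K : ℝ) : Prop := ∀ K' : ℝ, K < K' → ∀ᶠ r in 𝓝[<] (1 : ℝ), φ r ≤ K' * L r

private theorem alA_mono {φ ψ : ℝ → ℝ} {c C K : ℝ} (hc : 0 < c)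
    (h : ∀ᶠ r in 𝓝[<] (1 : ℝ), φ r ≤ c * ψ r + C) (hψ : Ale ψ K) : Ale φ (c * K) := by
  intro K' hK
  have hd : 0 < K' - c * K := by linarith
  filter_upwards [h, hψ (K + (K' - c * K) / (2 * c)) (by
      have : 0 < (K' - c * K) / (2 * c) := by positivity
      linarith),
    L_tendsto.eventually_ge_atTop (2 * C / (K' - c * K))] with r h1 h2 h3
  rw [div_le_iff₀ hd] at h3
  have h4 : c * ψ r ≤ c * ((K + (K' - c * K) / (2 * c)) * L r) :=
    mul_le_mul_of_nonneg_left h2 hc.le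
  have h5 : c * ((K + (K' - c * K) / (2 * c)) * L r) =
      c * K * L r + L r * (K' - c * K) / 2 := by
    field_simp
  rw [h5] at h4
  nlinarith

/-- PROOF. `L r → ∞` (`L_tendsto`). -/
theorem ale_iff {φ ψ : ℝ → ℝ} {c K₀ : ℝ} (hc : 0 < c)
    (h : ∀ r : ℝ, 0 < r → r < 1 → |φ r - c * ψ r| ≤ K₀) (K : ℝ) :
    Ale φ (c * K) ↔ Ale ψ K := by
  have hm : Ioo (0 : ℝ) 1 ∈ 𝓝[<] (1 : ℝ) := Ioo_mem_nhdsLT (by norm_num : (0 : ℝ) < 1)
  constructor
  · intro h1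
    have h2 : ∀ᶠ r in 𝓝[<] (1 : ℝ), ψ r ≤ c⁻¹ * φ r + c⁻¹ * K₀ := by
      filter_upwards [hm] with r hr
      have h3 := (abs_le.1 (h r hr.1 hr.2)).1
      have h4 : c * ψ r ≤ φ r + K₀ := by linarith
      rw [← mul_add, le_inv_mul_iff₀ hc]
      exact h4
    have h3 := alA_mono (inv_pos.2 hc) h2 h1
    rwa [inv_mul_cancel_left₀ hc.ne'] at h3
  · intro h1
    refine alA_mono (C := K₀) hc ?_ h1
    filter_upwards [hm] with r hr
    have h3 := (abs_le.1 (h r hr.1 hr.2)).2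
    linarith

/-- PROOF. `{K | Ale ψ K}` is bounded below (by `lam0`, as `ψ r ≥ lam0 L r - 2` for `r`
arbitrarily close to `1`) and contains `1`; it is closed upwards and contains its infimum. -/
theorem exists_ale {ψ : ℝ → ℝ} {lam0 : ℝ} (h1 : Ale ψ 1)
    (h : ∃ᶠ r in 𝓝[<] (1 : ℝ), lam0 * L r - 2 ≤ ψ r) :
    ∃ Λ : ℝ, lam0 ≤ Λ ∧ Λ ≤ 1 ∧ ∀ K : ℝ, Ale ψ K ↔ Λ ≤ K := by
  have hb : ∀ K, Ale ψ K → lam0 ≤ K := by
    intro K hK
    by_contra hc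
    rw [not_le] at hc
    have h2 := hK ((K + lam0) / 2) (by linarith)
    obtain ⟨r, h3, h4, h5⟩ := (h.and_eventually
      (h2.and (L_tendsto.eventually_gt_atTop (4 / (lam0 - K))))).exists
    rw [div_lt_iff₀ (by linarith)] at h5
    nlinarith
  have hbb : BddBelow {K | Ale ψ K} := ⟨lam0, fun K hK => hb K hK⟩
  refine ⟨sInf {K | Ale ψ K}, le_csInf ⟨1, h1⟩ hb, csInf_le hbb h1, fun K => ⟨fun hK =>
    csInf_le hbb hK, fun hK K' hK' => ?_⟩⟩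
  obtain ⟨K1, h2, h3⟩ := exists_lt_of_csInf_lt ⟨1, h1⟩ (lt_of_le_of_lt hK hK')
  exact h2 K' h3

/-- PROOF. `T3.alph_le_iff`, `T3.Bd` is `Ale` for `prox f`, `T3.alph_nonneg`; two numbers of `EReal`
with the same real upper bounds are equal, if one is real. -/
theorem alph_eq {f : ℂ → ℂ} (hf : AnalyticOnNhd ℂ f (ball 0 1)) {a : ℝ}
    (h : ∀ K : ℝ, Ale (prox f) K ↔ a ≤ K) : alph f = (a : EReal) := by
  have h1 : ∀ K : ℝ, alph f ≤ (K : EReal) ↔ a ≤ K := fun K =>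
    (T3.alph_le_iff hf).trans (h K)
  refine le_antisymm ((h1 a).2 le_rfl) ?_
  by_contra hc
  obtain ⟨K, h2, h3⟩ := EReal.lt_iff_exists_real_btwn.1 (not_le.1 hc)
  have h4 := (h1 K).1 h2.le
  exact absurd (EReal.coe_lt_coe_iff.1 h3) (not_lt.2 h4)

end Pool.Agent.MP4b24a5.LB
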