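import Pool.Agent.Lib.MP_4b24a5_an_LB.FA

set_option autoImplicit false

/-!
# MP_4b24a5_an, project LB: the function f for a given b
-/

noncomputable section

namespace Pool.Agent.MP4b24a5.LB

open Complex Metric Set MeasureTheory Filter Topology

variable {b : ℂ → ℂ} {C t : ℝ}

private theorem fb_ci {u : ℂ → ℝ} (hu : ContinuousOn u (ball 0 1)) {r : ℝ} (h0 : 0 < r)
    (h1 : r < 1) : CircleIntegrable u 0 r := by
  refine ContinuousOn.circleIntegrable h0.le (hu.mono fun z hz => ?_)
  rw [mem_sphere_zero_iff_norm] at hz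
  rw [mem_ball_zero_iff, hz]
  exact h1

private theorem fb_mean {g : ℂ → ℂ} (hg : DifferentiableOn ℂ g (ball 0 1)) {r : ℝ} (h0 : 0 < r)
    (h1 : r < 1) : Real.circleAverage (fun z => (g z).re) 0 r = (g 0).re := by
  have hsub : closedBall (0 : ℂ) r ⊆ ball 0 1 := closedBall_subset_ball h1
  have hc : DiffContOnCl ℂ g (ball 0 |r|) := by
    rw [abs_of_pos h0]
    exact (hg.mono (Metric.closure_ball_subset_closedBall.trans hsub)).diffContOnCl
  have hi : CircleIntegrable g 0 r := by
    refine ContinuousOn.circleIntegrable h0.le (hg.continuousOn.mono fun z hz => ?_)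
    rw [mem_sphere_zero_iff_norm] at hz
    rw [mem_ball_zero_iff, hz]
    exact h1
  have h2 := Complex.reCLM.circleAverage_comp_comm hi
  rw [DiffContOnCl.circleAverage hc] at h2
  exact h2

/-- PROOF. Let `B, K` be as in `exists_B` and `C' = K + 1`, so `‖C' + B‖ ∈ [1, 2 K + 1]` and
`Re (C' + B) > 0`. Put `g = log (C' + B) - t b`, `f = exp (g / (m + 1))`. Then
`f ^ m f' = f ^ (m + 1) g' / (m + 1) = exp g * g' / (m + 1)`, `exp g = (C' + B) exp (- t b)`,
`exp g * g' = (B' - t b' (C' + B)) exp (- t b) = 1 - t b' (C' + B) exp (- t b) ≠ 1`.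
`log⁺ ‖f‖ = max (Re g) 0 / (m + 1)`. The mean of `Re g` over the circle is `Re (g 0)`, so the mean
of
`max (Re g) 0` is `Re (g 0)` plus the mean of `max (- Re g) 0`, and
`|max (- Re g) 0 - t max (Re b) 0| ≤ |log ‖C' + B‖| ≤ log (2 K + 1)`. -/
theorem exists_f (m : ℕ) (hb : DifferentiableOn ℂ b (ball 0 1))
    (hb' : ∀ z ∈ ball (0 : ℂ) 1, deriv b z ≠ 0)
    (hre : ∀ z ∈ ball (0 : ℂ) 1, (b z).re ≤ L ‖z‖ + C) (h0 : 0 < t) (h1 : t < 1) :
    ∃ (f : ℂ → ℂ) (K : ℝ), AnalyticOnNhd ℂ f (ball 0 1) ∧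
      (∀ z ∈ ball (0 : ℂ) 1, f z ^ m * deriv f z ≠ 1 / ((m : ℂ) + 1)) ∧
      ∀ r : ℝ, 0 < r → r < 1 → |prox f r - t / (m + 1) * mp b r| ≤ K := by
  obtain ⟨B, K, hK, hB⟩ := exists_B hb hre h0 h1
  have hre1 : ∀ z ∈ ball (0 : ℂ) 1, 1 ≤ (((K + 1 : ℝ) : ℂ) + B z).re := by
    intro z hz
    have h2 := (abs_le.1 ((Complex.abs_re_le_norm (B z)).trans (hB z hz).2)).1
    rw [Complex.add_re, Complex.ofReal_re]
    linarith
  have hn1 : ∀ z ∈ ball (0 : ℂ) 1, 1 ≤ ‖((K + 1 : ℝ) : ℂ) + B z‖ := fun z hz =>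
    (hre1 z hz).trans (Complex.re_le_norm _)
  have hn2 : ∀ z ∈ ball (0 : ℂ) 1, ‖((K + 1 : ℝ) : ℂ) + B z‖ ≤ 2 * K + 1 := by
    intro z hz
    refine (norm_add_le _ _).trans ?_
    rw [Complex.norm_real, Real.norm_of_nonneg (by linarith)]
    linarith [(hB z hz).2]
  have hne : ∀ z ∈ ball (0 : ℂ) 1, ((K + 1 : ℝ) : ℂ) + B z ≠ 0 := by
    intro z hz h2
    have := hn1 z hz
    rw [h2, norm_zero] at this
    linarith
  have hsl : ∀ z ∈ ball (0 : ℂ) 1, ((K + 1 : ℝ) : ℂ) + B z ∈ slitPlane := fun z hz =>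
    Or.inl (lt_of_lt_of_le one_pos (hre1 z hz))
  have hm : ((m : ℂ) + 1) ≠ 0 := by exact_mod_cast Nat.succ_ne_zero m
  have hmr : (0 : ℝ) < (m : ℝ) + 1 := by positivity
  obtain ⟨g, hg⟩ : ∃ g : ℂ → ℂ, g = fun z => log (((K + 1 : ℝ) : ℂ) + B z) - t * b z := ⟨_, rfl⟩
  have hgd : ∀ z ∈ ball (0 : ℂ) 1, HasDerivAt g
      (exp (t * b z) / (((K + 1 : ℝ) : ℂ) + B z) - t * deriv b z) z := by
    intro z hz
    have e1 : HasDerivAt (fun z => ((K + 1 : ℝ) : ℂ) + B z) (exp (t * b z)) z :=
      (hB z hz).1.const_add _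
    have e2 : HasDerivAt b (deriv b z) z :=
      (hb.differentiableAt (isOpen_ball.mem_nhds hz)).hasDerivAt
    rw [hg]
    exact (e1.clog (hsl z hz)).sub (e2.const_mul _)
  have hgD : DifferentiableOn ℂ g (ball 0 1) := fun z hz =>
    (hgd z hz).differentiableAt.differentiableWithinAt
  have hfd : ∀ z ∈ ball (0 : ℂ) 1, HasDerivAt (fun z => exp (g z / ((m : ℂ) + 1)))
      (exp (g z / ((m : ℂ) + 1)) *
        ((exp (t * b z) / (((K + 1 : ℝ) : ℂ) + B z) - t * deriv b z) / ((m : ℂ) + 1))) z :=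
    fun z hz => ((hgd z hz).div_const _).cexp
  have hfD : DifferentiableOn ℂ (fun z => exp (g z / ((m : ℂ) + 1))) (ball 0 1) := fun z hz =>
    (hfd z hz).differentiableAt.differentiableWithinAt
  have hexpg : ∀ z ∈ ball (0 : ℂ) 1,
      exp (g z) * exp (t * b z) = ((K + 1 : ℝ) : ℂ) + B z := by
    intro z hz
    rw [hg, ← Complex.exp_add, sub_add_cancel, Complex.exp_log (hne z hz)]
  refine ⟨fun z => exp (g z / ((m : ℂ) + 1)), |(g 0).re| + Real.log (2 * K + 1),
    hfD.analyticOnNhd isOpen_ball, fun z hz => ?_, fun r hr0 hr1 => ?_⟩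
  · rw [(hfd z hz).deriv]
    have e1 : exp (g z / ((m : ℂ) + 1)) ^ m * exp (g z / ((m : ℂ) + 1)) = exp (g z) := by
      rw [← pow_succ, ← Complex.exp_nat_mul]
      congr 1
      push_cast
      field_simp
    have e2 := hexpg z hz
    have e3 := hne z hz
    have e4 : exp (t * b z) ≠ 0 := Complex.exp_ne_zero _
    intro e5
    have e6 : exp (g z) * (exp (t * b z) / (((K + 1 : ℝ) : ℂ) + B z) - t * deriv b z) = 1 := by
      have e7 : exp (g z / ((m : ℂ) + 1)) ^ m * (exp (g z / ((m : ℂ) + 1)) *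
          ((exp (t * b z) / (((K + 1 : ℝ) : ℂ) + B z) - t * deriv b z) / ((m : ℂ) + 1))) =
          exp (g z) * (exp (t * b z) / (((K + 1 : ℝ) : ℂ) + B z) - t * deriv b z) /
            ((m : ℂ) + 1) := by
        rw [← e1]
        ring
      rw [e7, div_left_inj' hm] at e5
      exact e5
    have e8 : exp (g z) * (exp (t * b z) / (((K + 1 : ℝ) : ℂ) + B z)) = 1 := by
      rw [← mul_div_assoc, e2, div_self e3]
    rw [mul_sub, e8] at e6
    have e9 : exp (g z) * (t * deriv b z) = 0 := by linear_combination -e6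
    rcases mul_eq_zero.1 e9 with h2 | h2
    · exact Complex.exp_ne_zero _ h2
    · rcases mul_eq_zero.1 h2 with h3 | h3
      · exact h0.ne' (Complex.ofReal_eq_zero.1 h3)
      · exact hb' z hz h3
  · have hgc : ContinuousOn (fun z => (g z).re) (ball 0 1) :=
      Complex.continuous_re.comp_continuousOn hgD.continuousOn
    have hbc : ContinuousOn (fun z => (b z).re) (ball 0 1) :=
      Complex.continuous_re.comp_continuousOn hb.continuousOn
    have c1 : CircleIntegrable (fun z => max (g z).re 0) 0 r :=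
      fb_ci (hgc.sup continuousOn_const) hr0 hr1
    have c2 : CircleIntegrable (fun z => max (-(g z).re) 0) 0 r :=
      fb_ci (hgc.neg.sup continuousOn_const) hr0 hr1
    have c3 : CircleIntegrable (fun z => (g z).re) 0 r := fb_ci hgc hr0 hr1
    have c4 : CircleIntegrable (fun z => t * max (b z).re 0) 0 r :=
      fb_ci (continuousOn_const.mul (hbc.sup continuousOn_const)) hr0 hr1
    have e1 : prox (fun z => exp (g z / ((m : ℂ) + 1))) r =
        (m + 1 : ℝ)⁻¹ * Real.circleAverage (fun z => max (g z).re 0) 0 r := by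
      have h2 := Real.circleAverage_fun_smul (a := (m + 1 : ℝ)⁻¹)
        (f := fun z => max (g z).re 0) (c := 0) (R := r)
      simp only [smul_eq_mul] at h2
      rw [← h2]
      unfold prox
      congr 1
      funext z
      rw [Complex.norm_exp, Real.posLog_apply, Real.log_exp]
      have h3 : (g z / ((m : ℂ) + 1)).re = (m + 1 : ℝ)⁻¹ * (g z).re := by
        rw [show ((m : ℂ) + 1) = ((m + 1 : ℝ) : ℂ) by push_cast; rfl, Complex.div_ofReal_re]
        field_simp
      rw [h3, mul_max_of_nonneg _ _ (by positivity : (0 : ℝ) ≤ (m + 1 : ℝ)⁻¹), mul_zero,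
        max_comm]
    have e2 : Real.circleAverage (fun z => max (g z).re 0) 0 r =
        (g 0).re + Real.circleAverage (fun z => max (-(g z).re) 0) 0 r := by
      rw [← fb_mean hgD hr0 hr1, ← Real.circleAverage_fun_add c3 c2]
      congr 1
      funext z
      rcases le_total (g z).re 0 with h2 | h2
      · rw [max_eq_right h2, max_eq_left (by linarith)]
        ring
      · rw [max_eq_left h2, max_eq_right (by linarith)]
        ring
    have e3 : t * mp b r = Real.circleAverage (fun z => t * max (b z).re 0) 0 r := by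
      have h2 := Real.circleAverage_fun_smul (a := t)
        (f := fun z => max (b z).re 0) (c := 0) (R := r)
      simp only [smul_eq_mul] at h2
      exact h2.symm
    have hpt : ∀ z ∈ sphere (0 : ℂ) |r|,
        |max (-(g z).re) 0 - t * max (b z).re 0| ≤ Real.log (2 * K + 1) := by
      intro z hz
      have hz1 : z ∈ ball (0 : ℂ) 1 := by
        rw [mem_sphere_zero_iff_norm, abs_of_pos hr0] at hz
        rw [mem_ball_zero_iff, hz]
        exact hr1
      have h2 : t * max (b z).re 0 = max (t * (b z).re) 0 := by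
        rw [mul_max_of_nonneg _ _ h0.le, mul_zero]
      have h3 : (g z).re = Real.log ‖((K + 1 : ℝ) : ℂ) + B z‖ - t * (b z).re := by
        rw [hg]
        simp only [Complex.sub_re, Complex.log_re, Complex.re_ofReal_mul]
      rw [h2]
      refine (abs_max_sub_max_le_abs _ _ _).trans ?_
      rw [h3, show -(Real.log ‖((K + 1 : ℝ) : ℂ) + B z‖ - t * (b z).re) - t * (b z).re =
        -Real.log ‖((K + 1 : ℝ) : ℂ) + B z‖ by ring, abs_neg,
        abs_of_nonneg (Real.log_nonneg (hn1 z hz1))]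
      exact Real.log_le_log (by linarith [hn1 z hz1]) (hn2 z hz1)
    have e4 : |Real.circleAverage (fun z => max (-(g z).re) 0) 0 r - t * mp b r| ≤
        Real.log (2 * K + 1) := by
      rw [e3, abs_le]
      have cK : CircleIntegrable (fun _ : ℂ => Real.log (2 * K + 1)) 0 r :=
        fb_ci continuousOn_const hr0 hr1
      constructor
      · have h2 := Real.circleAverage_mono (c4.sub cK) c2 (c := (0 : ℂ)) (R := r)
          (fun z hz => by
            have := (abs_le.1 (hpt z hz)).1
            simp only [Pi.sub_apply]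
            linarith)
        rw [Real.circleAverage_sub c4 cK, Real.circleAverage_const] at h2
        linarith
      · have h2 := Real.circleAverage_mono c2 (c4.add cK) (c := (0 : ℂ)) (R := r)
          (fun z hz => by
            have := (abs_le.1 (hpt z hz)).2
            simp only [Pi.add_apply]
            linarith)
        rw [Real.circleAverage_add c4 cK, Real.circleAverage_const] at h2
        linarith
    have e5 : prox (fun z => exp (g z / ((m : ℂ) + 1))) r - t / (m + 1) * mp b r =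
        (m + 1 : ℝ)⁻¹ * ((g 0).re +
          (Real.circleAverage (fun z => max (-(g z).re) 0) 0 r - t * mp b r)) := by
      rw [e1, e2]
      field_simp
      ring
    rw [e5, abs_mul, abs_of_pos (inv_pos.2 hmr)]
    have h4 : (m + 1 : ℝ)⁻¹ ≤ 1 := inv_le_one_of_one_le₀ (by
      have : (0 : ℝ) ≤ m := Nat.cast_nonneg m
      linarith)
    calc (m + 1 : ℝ)⁻¹ * |(g 0).re +
          (Real.circleAverage (fun z => max (-(g z).re) 0) 0 r - t * mp b r)|
        ≤ 1 * |(g 0).re +
          (Real.circleAverage (fun z => max (-(g z).re) 0) 0 r - t * mp b r)| :=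
          mul_le_mul_of_nonneg_right h4 (abs_nonneg _)
      _ ≤ |(g 0).re| + Real.log (2 * K + 1) := by
        rw [one_mul]
        exact (abs_add_le _ _).trans (by linarith)

end Pool.Agent.MP4b24a5.LB
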