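import Pool.Agent.Lib.MP_4b24a5_an_LB.LimA

set_option autoImplicit false

/-!
# MP_4b24a5_an, project LB: the limit of the stages
-/

noncomputable section

namespace Pool.Agent.MP4b24a5.LB

open Complex Metric Set MeasureTheory Filter Topology

private lemma lim_exists {f : ℕ → ℂ → ℂ} {r : ℕ → ℝ} (hmono : Monotone r)
    (h : ∀ j, ∀ z : ℂ, ‖z‖ ≤ r j → ‖f (j + 1) z - f j z‖ ≤ (1 / 2) ^ j) :
    ∃ F : ℂ → ℂ, ∀ j, ∀ z : ℂ, ‖z‖ ≤ r j → ‖f j z - F z‖ ≤ 2 * (1 / 2) ^ j := by
  have key : ∀ j, ∀ z : ℂ, ‖z‖ ≤ r j → ∀ n : ℕ,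
      dist (f (j + n) z) (f (j + (n + 1)) z) ≤ (2 * (1 / 2) ^ j) / 2 / 2 ^ n := by
    intro j z hz n
    have h1 := h (j + n) z (hz.trans (hmono (Nat.le_add_right j n)))
    rw [dist_comm, dist_eq_norm]
    have e : (2 * (1 / 2 : ℝ) ^ j) / 2 / 2 ^ n = (1 / 2) ^ (j + n) := by
      rw [pow_add]
      have : (1 / 2 : ℝ) ^ n = 1 / 2 ^ n := by rw [one_div, inv_pow, one_div]
      rw [this]
      ring
    rw [e]
    exact h1
  refine ⟨fun z => limUnder atTop (fun i => f i z), fun j z hz => ?_⟩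
  have hc : CauchySeq (fun n => f (j + n) z) := cauchySeq_of_le_geometric_two (key j z hz)
  obtain ⟨a, ha⟩ := cauchySeq_tendsto_of_complete hc
  have ha' : Tendsto (fun i => f i z) atTop (𝓝 a) := by
    have e : (fun n => f (j + n) z) = fun n => (fun i => f i z) (n + j) := by
      funext n
      rw [add_comm j n]
    rw [e] at ha
    exact (tendsto_add_atTop_iff_nat (f := fun i => f i z) j).1 ha
  have hl : limUnder atTop (fun i => f i z) = a := ha'.limUnder_eq
  show ‖f j z - limUnder atTop (fun i => f i z)‖ ≤ _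
  rw [hl, ← dist_eq_norm]
  exact dist_le_of_le_geometric_two_of_tendsto₀ (key j z hz) ha

private lemma unif {f : ℕ → ℂ → ℂ} {F : ℂ → ℂ} {r : ℕ → ℝ} (hmono : Monotone r)
    (hlow : ∀ j, 1 - (1 / 2 : ℝ) ^ j ≤ r j)
    (h : ∀ j, ∀ z : ℂ, ‖z‖ ≤ r j → ‖f j z - F z‖ ≤ 2 * (1 / 2) ^ j) :
    TendstoLocallyUniformlyOn f F atTop (ball 0 1) := by
  have hpow : Tendsto (fun j : ℕ => (1 / 2 : ℝ) ^ j) atTop (𝓝 0) :=
    tendsto_pow_atTop_nhds_zero_of_lt_one (by norm_num) (by norm_num)
  rw [Metric.tendstoLocallyUniformlyOn_iff]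
  intro ε hε x hx
  have hx1 : ‖x‖ < 1 := by simpa using hx
  obtain ⟨j, hj⟩ := ((hpow.eventually (gt_mem_nhds (sub_pos.2 hx1)))).exists
  have hxj : ‖x‖ < r j := by linarith [hlow j]
  refine ⟨ball 0 (r j), mem_nhdsWithin_of_mem_nhds (isOpen_ball.mem_nhds (by simpa using hxj)), ?_⟩
  have h2 : ∀ᶠ n : ℕ in atTop, (1 / 2 : ℝ) ^ n < ε / 2 :=
    hpow.eventually (gt_mem_nhds (half_pos hε))
  filter_upwards [h2, eventually_ge_atTop j] with n hn hnj y hy
  have hy1 : ‖y‖ < r j := by simpa using hy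
  have := h n y (hy1.le.trans (hmono hnj))
  rw [dist_comm, dist_eq_norm]
  linarith

/-- PROOF. For `‖z‖ ≤ r j` and `i ≥ j`: `‖b (i + 1) z - b i z‖ ≤ (1/2) ^ i`, so `b i z` converges to
`b z` with `‖b z - b i z‖ ≤ 2 (1/2) ^ i`; the convergence is locally uniform on the disc
(`r j → 1`);
the same for `l i`. So `b` is holomorphic (`TendstoLocallyUniformlyOn.differentiableOn`), and
`deriv b = lim deriv (b i) = lim exp (l i) = exp l ≠ 0` (`TendstoLocallyUniformlyOn.deriv`).
`mp b (r j) ≥ mp (b j) (r j) - 2` as `|max x 0 - max y 0| ≤ |x - y|`; the radii `r j` tend to `1`,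
so
this gives the last statement (`Filter.Frequently`, `Tendsto.frequently`). -/
theorem exists_b {lam0 : ℝ} (h0 : 0 < lam0) (h1 : lam0 < 1) :
    ∃ b : ℂ → ℂ, DifferentiableOn ℂ b (ball 0 1) ∧ (∀ z ∈ ball (0 : ℂ) 1, deriv b z ≠ 0) ∧
      (∀ z ∈ ball (0 : ℂ) 1, (b z).re ≤ L ‖z‖ + 3) ∧
      ∃ᶠ r in 𝓝[<] (1 : ℝ), lam0 * L r - 2 ≤ mp b r := by
  obtain ⟨b, l, R, r, hst, hr, hstep, hbd, hmp⟩ := exists_seq h0 h1
  have hmono : Monotone r := monotone_nat_of_le_succ fun j => (hr j).2.2.2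
  have hlow : ∀ j, 1 - (1 / 2 : ℝ) ^ j ≤ r j := fun j => (hr j).1
  obtain ⟨B, hB⟩ := lim_exists hmono (fun j z hz => (hstep j z hz).1)
  obtain ⟨Λ, hΛ⟩ := lim_exists hmono (fun j z hz => (hstep j z hz).2)
  have uB := unif hmono hlow hB
  have uL := unif hmono hlow hΛ
  have hdb : ∀ n, DifferentiableOn ℂ (b n) (ball 0 1) := fun n z hz => by
    have hz1 : z ∈ ball (0 : ℂ) (R n) := ball_subset_ball (hst n).hR.le hz
    exact ((hst n).der z hz1).differentiableAt.differentiableWithinAt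
  have hB1 : DifferentiableOn ℂ B (ball 0 1) :=
    uB.differentiableOn (Eventually.of_forall hdb) isOpen_ball
  have hder := uB.deriv (Eventually.of_forall hdb) isOpen_ball
  have hpow : Tendsto (fun j : ℕ => (1 / 2 : ℝ) ^ j) atTop (𝓝 0) :=
    tendsto_pow_atTop_nhds_zero_of_lt_one (by norm_num) (by norm_num)
  refine ⟨B, hB1, ?_, ?_, ?_⟩
  · intro z hz
    have t1 : Tendsto (fun n => (deriv ∘ b) n z) atTop (𝓝 (deriv B z)) := hder.tendsto_at hz
    have t2 : Tendsto (fun n => l n z) atTop (𝓝 (Λ z)) := uL.tendsto_at hz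
    have t3 : Tendsto (fun n => exp (l n z)) atTop (𝓝 (exp (Λ z))) :=
      (continuous_exp.tendsto _).comp t2
    have e : (fun n => (deriv ∘ b) n z) = fun n => exp (l n z) := by
      funext n
      have hz1 : z ∈ ball (0 : ℂ) (R n) := ball_subset_ball (hst n).hR.le hz
      exact ((hst n).der z hz1).deriv
    rw [e] at t1
    rw [tendsto_nhds_unique t1 t3]
    exact exp_ne_zero _
  · intro z hz
    have hz1 : ‖z‖ < 1 := by simpa using hz
    have t1 : Tendsto (fun n => (b n z).re) atTop (𝓝 (B z).re) :=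
      (continuous_re.tendsto _).comp (uB.tendsto_at hz)
    exact le_of_tendsto t1 (Eventually.of_forall fun n => hbd n z hz1)
  · have hr1 : Tendsto (fun j => r (j + 1)) atTop (𝓝[<] (1 : ℝ)) := by
      refine tendsto_nhdsWithin_iff.2 ⟨?_, Eventually.of_forall fun j => (hr (j + 1)).2.1⟩
      have h3 : Tendsto (fun j : ℕ => 1 - (1 / 2 : ℝ) ^ j) atTop (𝓝 1) := by
        simpa using hpow.const_sub 1
      have h4 : Tendsto r atTop (𝓝 1) :=
        tendsto_of_tendsto_of_tendsto_of_le_of_le h3 tendsto_const_nhds hlow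
          (fun j => (hr j).2.1.le)
      exact h4.comp (tendsto_add_atTop_nat 1)
    refine hr1.frequently (Eventually.frequently (Eventually.of_forall fun j => ?_))
    set ρ := r (j + 1) with hρ
    have hρ0 : 0 ≤ ρ := (hr (j + 1)).2.2.1
    have hρ1 : ρ < 1 := (hr (j + 1)).2.1
    have hsub : sphere (0 : ℂ) ρ ⊆ ball 0 1 := fun z hz => by
      have : ‖z‖ = ρ := by simpa using hz
      simpa [this] using hρ1
    have c1 : CircleIntegrable (fun z => max (b (j + 1) z).re 0) 0 ρ := by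
      refine ContinuousOn.circleIntegrable hρ0 ?_
      exact (continuous_re.comp_continuousOn ((hdb (j + 1)).continuousOn.mono hsub)).sup
        continuousOn_const
    have c2 : CircleIntegrable (fun z => max (B z).re 0) 0 ρ := by
      refine ContinuousOn.circleIntegrable hρ0 ?_
      exact (continuous_re.comp_continuousOn (hB1.continuousOn.mono hsub)).sup
        continuousOn_const
    have c3 : CircleIntegrable (fun _ : ℂ => (2 : ℝ)) 0 ρ := circleIntegrable_const _ _ _
    have hle : mp (b (j + 1)) ρ ≤ mp B ρ + 2 := by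
      have e1 : mp B ρ + 2 = Real.circleAverage (fun z => max (B z).re 0 + 2) 0 ρ := by
        rw [Real.circleAverage_fun_add c2 c3, Real.circleAverage_const]
        rfl
      rw [e1]
      refine Real.circleAverage_mono c1 (c2.add c3) fun z hz => ?_
      have hz1 : ‖z‖ = ρ := by
        have : ‖z‖ = |ρ| := by simpa using hz
        rw [this, abs_of_nonneg hρ0]
      have h5 := hB (j + 1) z hz1.le
      have h6 : (b (j + 1) z).re - (B z).re ≤ 2 * (1 / 2) ^ (j + 1) := by
        have := (Complex.re_le_norm (b (j + 1) z - B z))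
        rw [Complex.sub_re] at this
        linarith
      have h7 : (1 / 2 : ℝ) ^ (j + 1) ≤ 1 := pow_le_one₀ (by norm_num) (by norm_num)
      refine max_le ?_ ?_
      · have := le_max_left (B z).re 0
        linarith
      · have := le_max_right (B z).re 0
        linarith
    have := hmp j
    linarith

end Pool.Agent.MP4b24a5.LB
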