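import Pool.Agent.Lib.MP_4b24a5_an_LB.AlA
import Pool.Agent.Lib.MP_4b24a5_an_LB.FB
import Pool.Agent.Lib.MP_4b24a5_an_LB.LimB

set_option autoImplicit false

/-!
# MP_4b24a5_an, project LB: functions of all small orders
-/

noncomputable section

namespace Pool.Agent.MP4b24a5.LB

open Complex Metric Set MeasureTheory Filter Topology

/-- the upper bound for the mean -/
private theorem alb_mp_le {b : ℂ → ℂ} {C : ℝ} (hC : 0 ≤ C) (hb : DifferentiableOn ℂ b (ball 0 1))
    (hre : ∀ z ∈ ball (0 : ℂ) 1, (b z).re ≤ L ‖z‖ + C) {r : ℝ} (h0 : 0 < r) (h1 : r < 1) :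
    mp b r ≤ L r + C := by
  have hsub : sphere (0 : ℂ) |r| ⊆ ball 0 1 := by
    rw [abs_of_pos h0]
    intro z hz
    rw [mem_sphere_zero_iff_norm] at hz
    rw [mem_ball_zero_iff, hz]
    exact h1
  have hL : 0 ≤ L r := by
    unfold L
    have h2 : Real.log (1 - r) ≤ 0 := Real.log_nonpos (by linarith) (by linarith)
    linarith
  unfold mp
  refine Real.circleAverage_mono_on_of_le_circle ?_ fun z hz => ?_
  · refine ContinuousOn.circleIntegrable' ?_
    exact (Complex.continuous_re.comp_continuousOn (hb.continuousOn.mono hsub)).sup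
      continuousOn_const
  · have h2 := hre z (hsub hz)
    rw [abs_of_pos h0, mem_sphere_zero_iff_norm] at hz
    rw [hz] at h2
    exact max_le h2 (by linarith)

/-- PROOF. For `a = 0` take `f z = z`: `alph f = 0` (`T3.alph_pow 1`), and `w = 2`. For `a > 0` let
`lam0 = (a (m + 1) + 1) / 2` and `b` as in `exists_b`. `mp b r ≤ L r + 3`, so `Ale (mp b) 1`;
`exists_ale` gives `Λ`, `t = a (m + 1) / Λ < 1`, and `f` as in `exists_f`. `ale_iff` gives
`Ale (prox f) (t / (m + 1) * K) ↔ Λ ≤ K`, and `t / (m + 1) * Λ = a`. `f` is not constant, as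
`alph f ≠ 0` (or as a constant has bounded `prox`). -/
theorem exists_all (m : ℕ) {a : ℝ} (h0 : 0 ≤ a) (h1 : a < 1 / (m + 1)) :
    ∃ (f : ℂ → ℂ) (w : ℂ), AnalyticOnNhd ℂ f (ball 0 1) ∧
      (¬ ∃ c, ∀ z ∈ ball (0 : ℂ) 1, f z = c) ∧ alph f = (a : EReal) ∧ w ≠ 0 ∧
      ∀ z ∈ ball (0 : ℂ) 1, f z ^ m * deriv f z ≠ w := by
  rcases h0.eq_or_lt with rfl | ha
  · -- the function `z`
    refine ⟨fun z => z ^ 1, 2, fun z _ => by fun_prop, ?_, ?_, two_ne_zero, fun z hz => ?_⟩
    · rintro ⟨c, hc⟩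
      have h2 := hc 0 (by simp)
      have h3 := hc (1 / 2) (by rw [mem_ball_zero_iff]; norm_num)
      rw [← h2] at h3
      norm_num at h3
    · rw [T3.alph_pow 1]
      simp
    · intro h
      have h2 : deriv (fun z : ℂ => z ^ 1) z = 1 := by
        simp
      rw [h2, mul_one] at h
      have h4 : z ^ m = 2 := by simpa using h
      rw [mem_ball_zero_iff] at hz
      have h3 : ‖z ^ m‖ ≤ 1 := by
        rw [norm_pow]
        exact pow_le_one₀ (norm_nonneg _) hz.le
      rw [h4] at h3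
      norm_num at h3
  · have hm : (0 : ℝ) < (m : ℝ) + 1 := by positivity
    have ham : 0 < a * (m + 1) := by positivity
    have ham1 : a * (m + 1) < 1 := by
      rwa [lt_div_iff₀ hm] at h1
    obtain ⟨b, hb, hb', hre, hfr⟩ := exists_b (lam0 := (a * (m + 1) + 1) / 2) (by linarith)
      (by linarith)
    have hL3 : ∀ K' : ℝ, ∀ᶠ r in 𝓝[<] (1 : ℝ), K' ≤ L r := fun K' =>
      L_tendsto.eventually_ge_atTop K'
    have hpos : ∀ᶠ r in 𝓝[<] (1 : ℝ), 0 < r ∧ r < 1 := by
      have h2 : ∀ᶠ r in 𝓝[<] (1 : ℝ), 0 < r :=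
        eventually_nhdsWithin_of_eventually_nhds (lt_mem_nhds one_pos)
      have h3 : ∀ᶠ r in 𝓝[<] (1 : ℝ), r < 1 := eventually_mem_nhdsWithin
      exact h2.and h3
    have hale : Ale (mp b) 1 := by
      intro K' hK'
      filter_upwards [hL3 (3 / (K' - 1)), hpos] with r h2 h3
      have h4 := alb_mp_le (by norm_num) hb hre h3.1 h3.2
      rw [div_le_iff₀ (by linarith)] at h2
      nlinarith
    obtain ⟨Λ, hΛ0, hΛ1, hΛ⟩ := exists_ale hale hfr
    have hΛpos : 0 < Λ := by linarith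
    have ht0 : 0 < a * (m + 1) / Λ := div_pos ham hΛpos
    have ht1 : a * (m + 1) / Λ < 1 := by
      rw [div_lt_one hΛpos]
      linarith
    obtain ⟨f, K, han, hne, hK⟩ := exists_f m hb hb' hre ht0 ht1
    have hc : 0 < a * (m + 1) / Λ / (m + 1) := div_pos ht0 hm
    have hcΛ : a * (m + 1) / Λ / (m + 1) * Λ = a := by
      field_simp
    have hiff : ∀ K' : ℝ, Ale (prox f) K' ↔ a ≤ K' := by
      intro K'
      have h2 := ale_iff hc hK (K' / (a * (m + 1) / Λ / (m + 1)))
      rw [mul_div_cancel₀ _ hc.ne'] at h2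
      rw [h2, hΛ, le_div_iff₀ hc, mul_comm, hcΛ]
    have halph : alph f = (a : EReal) := alph_eq han hiff
    refine ⟨f, 1 / ((m : ℂ) + 1), han, ?_, halph, ?_, hne⟩
    · rintro ⟨c, hc'⟩
      have h2 : Ale (prox f) 0 := by
        intro K' hK'
        filter_upwards [hL3 (Real.posLog ‖c‖ / K'), hpos] with r h3 h4
        have h5 : prox f r = Real.posLog ‖c‖ := by
          unfold prox
          refine Real.circleAverage_const_on_circle fun z hz => ?_
          rw [abs_of_pos h4.1, mem_sphere_zero_iff_norm] at hz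
          rw [hc' z (by rw [mem_ball_zero_iff, hz]; exact h4.2)]
        rw [h5]
        rw [div_le_iff₀ hK'] at h3
        linarith
      exact absurd ((hiff 0).1 h2) (not_le.2 ha)
    · have h2 : (m : ℂ) + 1 ≠ 0 := by exact_mod_cast Nat.succ_ne_zero m
      exact one_div_ne_zero h2

end Pool.Agent.MP4b24a5.LB
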