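import Pool.Agent.Lib.MP_4b24a5_an_LB.Defs

set_option autoImplicit false

/-!
# MP_4b24a5_an, project LB: algebra of the Laurent polynomials
-/

noncomputable section

namespace Pool.Agent.MP4b24a5.LB

open Complex Metric Set MeasureTheory Filter Topology

variable {P : Prm} {M A δ η : ℝ}

/-- PROOF. `z ^ (n + k) = z ^ n * z ^ k`, `z ^ (n - k) = z ^ n * (z ^ k)⁻¹` for `k ≤ n`. -/
theorem Z_eq (hN : P.N ≤ P.n) {z : ℂ} (hz : z ≠ 0) : P.Z z = z ^ P.n * P.S z := by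
  have h1 : ∑ k ∈ Finset.range P.N,
      (P.a k * z ^ (P.n + k) + (starRingEnd ℂ) (P.a k) * z ^ (P.n - k)) =
      z ^ P.n * ∑ k ∈ Finset.range P.N,
        (P.a k * z ^ k + (starRingEnd ℂ) (P.a k) * (z ^ k)⁻¹) := by
    rw [Finset.mul_sum]
    refine Finset.sum_congr rfl fun k hk => ?_
    have hk' : k ≤ P.n := (Finset.mem_range.1 hk).le.trans hN
    rw [pow_sub₀ z hz hk', pow_add]
    ring
  rw [Prm.Z, Prm.S, Prm.tau, h1]
  ring

/-- PROOF. On the circle `z⁻¹ = conj z`, so `a z ^ k + conj a * (z ^ k)⁻¹ = 2 Re (a z ^ k)`. -/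
theorem S_sphere {z : ℂ} (hz : ‖z‖ = 1) : P.S z = ((P.s - (P.T z).re : ℝ) : ℂ) := by
  have h1 : ∑ k ∈ Finset.range P.N, (P.a k * z ^ k + (starRingEnd ℂ) (P.a k) * (z ^ k)⁻¹) =
      P.T z + (starRingEnd ℂ) (P.T z) := by
    rw [Prm.T, map_sum, ← Finset.sum_add_distrib]
    refine Finset.sum_congr rfl fun k _ => ?_
    rw [map_mul, map_pow, ← inv_pow, Complex.inv_eq_conj hz]
  rw [Prm.S, Prm.tau, h1, Complex.add_conj]
  push_cast
  ring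

theorem hasDerivAt_tau {z : ℂ} (hz : z ≠ 0) : HasDerivAt P.tau (P.tau' z) z := by
  have h1 : ∀ k ∈ Finset.range P.N, HasDerivAt
      (fun w : ℂ => P.a k * w ^ k + (starRingEnd ℂ) (P.a k) * (w ^ k)⁻¹)
      (P.a k * (k * z ^ (k - 1)) - (starRingEnd ℂ) (P.a k) * (k * (z ^ (k + 1))⁻¹)) z := by
    intro k _
    have h2 := (hasDerivAt_pow k z).const_mul (P.a k)
    have h3 := ((hasDerivAt_pow k z).fun_inv (pow_ne_zero k hz)).const_mul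
      ((starRingEnd ℂ) (P.a k))
    have h4 := h2.add h3
    have e1 : -(k * z ^ (k - 1)) / (z ^ k) ^ 2 = -(k * (z ^ (k + 1))⁻¹ : ℂ) := by
      rcases k with _ | k
      · simp
      · rw [Nat.add_sub_cancel]
        field_simp
        ring
    rw [e1, mul_neg, ← sub_eq_add_neg] at h4
    exact h4
  have h2 := (HasDerivAt.fun_sum h1).const_mul (-(1 / 2) : ℂ)
  exact h2

private theorem pow_bds {z : ℂ} (h1 : 1 / 2 ≤ ‖z‖) (h2 : ‖z‖ ≤ 1) (k : ℕ) :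
    ‖z ^ k‖ ≤ 1 ∧ ‖(z ^ k)⁻¹‖ ≤ 2 ^ k := by
  have h3 : 0 < ‖z‖ := by linarith
  refine ⟨?_, ?_⟩
  · rw [norm_pow]
    exact pow_le_one₀ h3.le h2
  · rw [norm_inv, norm_pow, ← inv_pow]
    refine pow_le_pow_left₀ (by positivity) ?_ k
    rw [inv_le_comm₀ h3 two_pos]
    linarith

/-- PROOF. `‖z ^ k‖ ≤ 1`, `‖(z ^ k)⁻¹‖ ≤ 2 ^ k`, so `‖tau z‖ ≤ (1/2) ∑ ‖a k‖ (1 + 2 ^ k)`,
`‖tau' z‖ ≤ (1/2) ∑ ‖a k‖ (k + k 2 ^ (k + 1))`; compare with `OK.hA`. -/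
theorem tau_bound (h : OK P M A δ η) {z : ℂ} (h1 : 1 / 2 ≤ ‖z‖) (h2 : ‖z‖ ≤ 1) :
    ‖P.tau z‖ ≤ A ∧ ‖P.tau' z‖ ≤ A := by
  have hh : ‖(-(1 / 2) : ℂ)‖ = 1 / 2 := by
    rw [norm_neg]
    simp
  refine ⟨?_, ?_⟩
  · refine le_trans ?_ h.hA
    rw [Prm.tau, norm_mul, hh]
    have h3 : ‖∑ k ∈ Finset.range P.N, (P.a k * z ^ k +
        (starRingEnd ℂ) (P.a k) * (z ^ k)⁻¹)‖ ≤
        ∑ k ∈ Finset.range P.N, ((k : ℝ) + 1) * ‖P.a k‖ * 2 ^ (k + 2) := by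
      refine norm_sum_le_of_le _ fun k _ => ?_
      obtain ⟨h4, h5⟩ := pow_bds h1 h2 k
      have h6 : ‖P.a k * z ^ k + (starRingEnd ℂ) (P.a k) * (z ^ k)⁻¹‖ ≤
          ‖P.a k‖ * 1 + ‖P.a k‖ * 2 ^ k := by
        refine (norm_add_le _ _).trans (add_le_add ?_ ?_)
        · rw [norm_mul]
          exact mul_le_mul_of_nonneg_left h4 (norm_nonneg _)
        · rw [norm_mul, RCLike.norm_conj]
          exact mul_le_mul_of_nonneg_left h5 (norm_nonneg _)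
      refine h6.trans ?_
      have h7 : (1 : ℝ) ≤ 2 ^ k := one_le_pow₀ (by norm_num)
      have h8 : 0 ≤ ‖P.a k‖ := norm_nonneg _
      have h9 : (0 : ℝ) ≤ k := Nat.cast_nonneg k
      have h10 : (1 : ℝ) + 2 ^ k ≤ (k + 1) * 2 ^ (k + 2) := by
        rw [pow_add]
        nlinarith [mul_nonneg h9 (by linarith : (0 : ℝ) ≤ 2 ^ k)]
      calc ‖P.a k‖ * 1 + ‖P.a k‖ * 2 ^ k = ‖P.a k‖ * (1 + 2 ^ k) := by ring
        _ ≤ ‖P.a k‖ * ((k + 1) * 2 ^ (k + 2)) := mul_le_mul_of_nonneg_left h10 h8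
        _ = ((k : ℝ) + 1) * ‖P.a k‖ * 2 ^ (k + 2) := by ring
    have h4 : 0 ≤ ∑ k ∈ Finset.range P.N, ((k : ℝ) + 1) * ‖P.a k‖ * 2 ^ (k + 2) :=
      Finset.sum_nonneg fun k _ => by positivity
    linarith
  · refine le_trans ?_ h.hA
    rw [Prm.tau', norm_mul, hh]
    have h3 : ‖∑ k ∈ Finset.range P.N, (P.a k * (k * z ^ (k - 1)) -
        (starRingEnd ℂ) (P.a k) * (k * (z ^ (k + 1))⁻¹))‖ ≤
        ∑ k ∈ Finset.range P.N, ((k : ℝ) + 1) * ‖P.a k‖ * 2 ^ (k + 2) := by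
      refine norm_sum_le_of_le _ fun k _ => ?_
      obtain ⟨h4, -⟩ := pow_bds h1 h2 (k - 1)
      obtain ⟨-, h5⟩ := pow_bds h1 h2 (k + 1)
      have h6 : ‖P.a k * (k * z ^ (k - 1)) -
          (starRingEnd ℂ) (P.a k) * (k * (z ^ (k + 1))⁻¹)‖ ≤
          ‖P.a k‖ * (k * 1) + ‖P.a k‖ * (k * 2 ^ (k + 1)) := by
        refine (norm_sub_le _ _).trans (add_le_add ?_ ?_)
        · rw [norm_mul, norm_mul, Complex.norm_natCast]
          exact mul_le_mul_of_nonneg_left (mul_le_mul_of_nonneg_left h4 (Nat.cast_nonneg k))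
            (norm_nonneg _)
        · rw [norm_mul, norm_mul, RCLike.norm_conj, Complex.norm_natCast]
          exact mul_le_mul_of_nonneg_left (mul_le_mul_of_nonneg_left h5 (Nat.cast_nonneg k))
            (norm_nonneg _)
      refine h6.trans ?_
      have h7 : (1 : ℝ) ≤ 2 ^ k := one_le_pow₀ (by norm_num)
      have h8 : 0 ≤ ‖P.a k‖ := norm_nonneg _
      have h9 : (0 : ℝ) ≤ k := Nat.cast_nonneg k
      have h10 : (k : ℝ) * 1 + k * 2 ^ (k + 1) ≤ (k + 1) * 2 ^ (k + 2) := by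
        rw [pow_add, pow_add]
        nlinarith [mul_nonneg h9 (by linarith : (0 : ℝ) ≤ 2 ^ k - 1)]
      calc ‖P.a k‖ * (k * 1) + ‖P.a k‖ * (k * 2 ^ (k + 1))
          = ‖P.a k‖ * (k * 1 + k * 2 ^ (k + 1)) := by ring
        _ ≤ ‖P.a k‖ * ((k + 1) * 2 ^ (k + 2)) := mul_le_mul_of_nonneg_left h10 h8
        _ = ((k : ℝ) + 1) * ‖P.a k‖ * 2 ^ (k + 2) := by ring
    have h4 : 0 ≤ ∑ k ∈ Finset.range P.N, ((k : ℝ) + 1) * ‖P.a k‖ * 2 ^ (k + 2) :=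
      Finset.sum_nonneg fun k _ => by positivity
    linarith

/-- PROOF. `tau` is real at `ζ` (`S_sphere`), and `‖tau (y ζ) - tau ζ‖ ≤ A (1 - y)` by the mean
value
inequality on the segment (`hasDerivAt_tau`, `tau_bound`). -/
theorem tau_im (h : OK P M A δ η) {ζ : ℂ} (hζ : ‖ζ‖ = 1) {y : ℝ} (h1 : 1 / 2 ≤ y)
    (h2 : y ≤ 1) : |(P.tau (y * ζ)).im| ≤ A * (1 - y) := by
  have hz : ∀ t : ℝ, 1 / 2 ≤ t → ‖(t : ℂ) * ζ‖ = t := fun t ht => by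
    rw [norm_mul, hζ, mul_one, Complex.norm_real, Real.norm_eq_abs, abs_of_nonneg (by linarith)]
  have hd : ∀ t ∈ Icc y 1, HasDerivWithinAt (fun t : ℝ => P.tau (t * ζ))
      (P.tau' (t * ζ) * ζ) (Icc y 1) t := fun t ht => by
    have ht' : 1 / 2 ≤ t := h1.trans ht.1
    have h3 : (t : ℂ) * ζ ≠ 0 := by
      rw [← norm_pos_iff, hz t ht']
      linarith
    have h4 : HasDerivAt (fun w : ℂ => P.tau (w * ζ)) (P.tau' (t * ζ) * ζ) (t : ℂ) := by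
      have h5 : HasDerivAt (fun w : ℂ => w * ζ) ζ (t : ℂ) := by
        simpa using (hasDerivAt_id (t : ℂ)).mul_const ζ
      exact HasDerivAt.comp (h₂ := P.tau) (h := fun w : ℂ => w * ζ) (t : ℂ)
        (hasDerivAt_tau h3) h5
    exact h4.comp_ofReal.hasDerivWithinAt
  have hb : ∀ t ∈ Icc y 1, ‖P.tau' (t * ζ) * ζ‖ ≤ A := fun t ht => by
    have ht' : 1 / 2 ≤ t := h1.trans ht.1
    rw [norm_mul, hζ, mul_one]
    exact (tau_bound h (by rw [hz t ht']; exact ht') (by rw [hz t ht']; exact ht.2)).2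
  have h3 := (convex_Icc y 1).norm_image_sub_le_of_norm_hasDerivWithin_le hd hb
    (right_mem_Icc.2 h2) (left_mem_Icc.2 h2)
  have h4 : (P.tau ((1 : ℝ) * ζ)).im = 0 := by
    have h5 := congrArg Complex.im (S_sphere (P := P) hζ)
    rw [Prm.S, Complex.add_im, Complex.ofReal_im, Complex.ofReal_im, zero_add] at h5
    rw [Complex.ofReal_one, one_mul]
    exact h5
  have h5 : |(P.tau (y * ζ)).im| ≤ ‖P.tau (y * ζ) - P.tau ((1 : ℝ) * ζ)‖ := by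
    have h6 := Complex.abs_im_le_norm (P.tau (y * ζ) - P.tau ((1 : ℝ) * ζ))
    rwa [Complex.sub_im, h4, sub_zero] at h6
  refine h5.trans (h3.trans_eq ?_)
  rw [Real.norm_eq_abs, abs_sub_comm, abs_of_nonneg (by linarith)]

end Pool.Agent.MP4b24a5.LB
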