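import Pool.Agent.Lib.MP_4b24a5_an_LB.AlgA

set_option autoImplicit false

/-!
# MP_4b24a5_an, project LB: the functions q, kap, E and the radius x
-/

noncomputable section

namespace Pool.Agent.MP4b24a5.LB

open Complex Metric Set MeasureTheory Filter Topology

variable {P : Prm} {M A δ η : ℝ}

theorem rr_bd (h : OK P M A δ η) : 1 / 2 ≤ P.rr ∧ P.rr < 1 := by
  have h3 : (2 : ℝ) ≤ P.s ^ 3 := by
    have h1 : (2 : ℝ) ^ 3 ≤ P.s ^ 3 := pow_le_pow_left₀ (by norm_num) h.hs 3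
    linarith
  have h4 : (P.s ^ 3)⁻¹ ≤ 2⁻¹ := inv_anti₀ (by norm_num) h3
  have h5 : 0 < (P.s ^ 3)⁻¹ := by positivity
  unfold Prm.rr
  constructor
  · linarith
  · linarith

theorem norm_q_le (h : OK P M A δ η) {z : ℂ} (h2 : ‖z‖ ≤ 1) : ‖P.q z‖ ≤ P.rr := by
  obtain ⟨h0, -⟩ := rr_bd h
  unfold Prm.q
  rw [norm_mul, norm_pow, Complex.norm_real, Real.norm_eq_abs, abs_of_nonneg (by linarith)]
  have h1 : ‖z‖ ^ P.n ≤ 1 := pow_le_one₀ (norm_nonneg _) h2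
  nlinarith

/-- `1 - ‖q‖ ≥ 1 - r = s⁻³` -/
theorem norm_one_sub_q (h : OK P M A δ η) {z : ℂ} (h2 : ‖z‖ ≤ 1) :
    (P.s ^ 3)⁻¹ ≤ 1 - ‖P.q z‖ ∧ (P.s ^ 3)⁻¹ ≤ ‖1 - P.q z‖ ∧ ‖1 - P.q z‖ ≤ 2 := by
  obtain ⟨-, h1⟩ := rr_bd h
  have h3 := norm_q_le h h2
  have h4 : (P.s ^ 3)⁻¹ ≤ 1 - ‖P.q z‖ := by
    have : P.rr = 1 - (P.s ^ 3)⁻¹ := rfl
    linarith
  have h5 : 1 - ‖P.q z‖ ≤ ‖1 - P.q z‖ := by
    have := norm_sub_norm_le (1 : ℂ) (P.q z)
    rwa [norm_one] at this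
  have h6 : ‖1 - P.q z‖ ≤ 1 + ‖P.q z‖ := by
    have := norm_sub_le (1 : ℂ) (P.q z)
    rwa [norm_one] at this
  exact ⟨h4, h4.trans h5, by linarith⟩

private theorem algB_ne (h : OK P M A δ η) {z : ℂ} (h2 : ‖z‖ ≤ 1) : 1 - P.q z ≠ 0 := by
  have h3 := (norm_one_sub_q h h2).2.1
  have h4 : 0 < (P.s ^ 3)⁻¹ := by
    have := h.hs
    positivity
  exact norm_pos_iff.mp (h4.trans_le h3)

/-- PROOF. `exp (a - 2 log w) = exp a / w ^ 2` for `w = 1 - q ≠ 0`. -/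
theorem exp_kap (h : OK P M A δ η) {z : ℂ} (h2 : ‖z‖ ≤ 1) :
    exp (P.kap z) = P.E z / (1 - P.q z) ^ 2 := by
  unfold Prm.kap Prm.E
  rw [Complex.exp_sub]
  congr 1
  rw [two_mul, Complex.exp_add, Complex.exp_log (algB_ne h h2), sq]

/-- PROOF. `Z_eq` and `r z ^ n = q`. -/
theorem E_eq (h : OK P M A δ η) {z : ℂ} (hz : z ≠ 0) :
    P.E z = exp (-2 * P.S z * (P.q z / (1 - P.q z))) := by
  have hN : P.N ≤ P.n := by
    have := h.hN
    omega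
  unfold Prm.E
  rw [Z_eq hN hz]
  congr 1
  unfold Prm.q
  ring

/-- `‖S‖ ≥ s / 2`, `Re S ≥ s / 2`, `Re S ≤ s + A`. PROOF. `tau_bound`, `2 A ≤ s`. -/
theorem S_bound (h : OK P M A δ η) {z : ℂ} (h1 : 1 / 2 ≤ ‖z‖) (h2 : ‖z‖ ≤ 1) :
    P.s / 2 ≤ ‖P.S z‖ ∧ P.s / 2 ≤ (P.S z).re ∧ (P.S z).re ≤ P.s + A := by
  obtain ⟨h3, -⟩ := tau_bound h h1 h2
  have h4 : (P.S z).re = P.s + (P.tau z).re := by
    unfold Prm.S
    rw [Complex.add_re, Complex.ofReal_re]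
  have h5 := abs_le.mp ((Complex.abs_re_le_norm (P.tau z)).trans h3)
  have h6 := h.hsA
  have h7 : P.s / 2 ≤ (P.S z).re := by
    rw [h4]
    linarith [h5.1]
  exact ⟨h7.trans (Complex.re_le_norm _), h7, by rw [h4]; linarith [h5.2]⟩

/-- PROOF. `x = exp (- 4 log s / n)`, so `x ^ n = exp (- 4 log s) = s⁻⁴`; `1 / 2 ≤ x` by `OK.e2`;
`1 - exp (- u) ≤ u`. -/
theorem x_facts (h : OK P M A δ η) : 1 / 2 ≤ P.x ∧ P.x < 1 ∧ P.x ^ P.n = (P.s ^ 4)⁻¹ ∧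
    1 - P.x ≤ 4 * Real.log P.s / P.n ∧ 0 < Real.log P.s ∧ Real.log P.s ≤ P.s := by
  have hs := h.hs
  have hs0 : 0 < P.s := by linarith
  have hn : (1 : ℝ) ≤ (P.n : ℝ) := by exact_mod_cast h.hn
  have hn0 : (0 : ℝ) < (P.n : ℝ) := by linarith
  have hl : 0 < Real.log P.s := Real.log_pos (by linarith)
  have hu : 0 < 4 * Real.log P.s / P.n := by positivity
  refine ⟨?_, ?_, ?_, ?_, hl, ?_⟩
  · unfold Prm.x
    have h1 : Real.exp (-Real.log 2) ≤ Real.exp (-(4 * Real.log P.s / P.n)) :=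
      Real.exp_le_exp.mpr (neg_le_neg h.e2)
    rw [Real.exp_neg, Real.exp_log (by norm_num)] at h1
    linarith
  · unfold Prm.x
    rw [Real.exp_lt_one_iff]
    linarith
  · unfold Prm.x
    rw [← Real.exp_nat_mul]
    have h1 : (P.n : ℝ) * -(4 * Real.log P.s / P.n) = -((4 : ℕ) * Real.log P.s) := by
      push_cast
      field_simp
    rw [h1, Real.exp_neg, Real.exp_nat_mul, Real.exp_log hs0]
  · unfold Prm.x
    have h1 := Real.add_one_le_exp (-(4 * Real.log P.s / P.n))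
    linarith
  · have h1 := Real.log_le_sub_one_of_pos hs0
    linarith

/-- `kap` is holomorphic in a neighbourhood of the closed disc.

PROOF. Let `R' > 1` with `r R' ^ n < 1` (continuity of `y ↦ r y ^ n` at `1`). For `‖z‖ < R'` we have
`‖q z‖ < 1`, so `1 - q z` is in the slit plane. `Z` and `q` are polynomials. -/
theorem exists_diff_kap (h : OK P M A δ η) :
    ∃ R' : ℝ, 1 < R' ∧ DifferentiableOn ℂ P.kap (ball 0 R') := by
  obtain ⟨hr0, hr1⟩ := rr_bd h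
  have hc : Continuous fun y : ℝ => P.rr * y ^ P.n := by fun_prop
  have h1 : ∀ᶠ y : ℝ in 𝓝 1, P.rr * y ^ P.n < 1 := by
    refine hc.continuousAt.eventually_lt continuousAt_const ?_
    rw [one_pow, mul_one]
    exact hr1
  have h2 : ∀ᶠ y : ℝ in 𝓝[>] 1, P.rr * y ^ P.n < 1 ∧ y ∈ Ioi (1 : ℝ) :=
    (h1.filter_mono nhdsWithin_le_nhds).and self_mem_nhdsWithin
  obtain ⟨R', h3, h4⟩ := h2.exists
  refine ⟨R', h4, fun z hz => ?_⟩
  have hz' : ‖z‖ < R' := by simpa using hz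
  have h5 : ‖P.q z‖ < 1 := by
    unfold Prm.q
    rw [norm_mul, norm_pow, Complex.norm_real, Real.norm_eq_abs, abs_of_nonneg (by linarith)]
    refine lt_of_le_of_lt ?_ h3
    exact mul_le_mul_of_nonneg_left (pow_le_pow_left₀ (norm_nonneg _) hz'.le _) (by linarith)
  have h6 : 0 < (1 - P.q z).re := by
    rw [Complex.sub_re, Complex.one_re]
    linarith [Complex.re_le_norm (P.q z)]
  have h7 : (1 - P.q z) ∈ slitPlane := Or.inl h6
  have h8 : 1 - P.q z ≠ 0 := slitPlane_ne_zero h7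
  have hq : DifferentiableAt ℂ (fun z => 1 - P.q z) z := by
    unfold Prm.q
    fun_prop
  have hZ : DifferentiableAt ℂ P.Z z := by
    unfold Prm.Z
    fun_prop
  have hk : DifferentiableAt ℂ (fun z => -2 * (P.rr : ℂ) * P.Z z / (1 - P.q z) -
      2 * log (1 - P.q z)) z :=
    ((hZ.const_mul _).div hq h8).sub ((hq.clog h7).const_mul _)
  exact hk.differentiableWithinAt

end Pool.Agent.MP4b24a5.LB
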