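import Pool.Agent.Lib.MP_4b24a5_an_LB.Defs

set_option autoImplicit false

/-!
# MP_4b24a5_an, project LB: bounds, approximation by polynomials, primitives
-/

noncomputable section

namespace Pool.Agent.MP4b24a5.LB

open Complex Metric Set MeasureTheory Filter Topology

variable {b l : ℂ → ℂ} {R : ℝ}

/-- An open set which contains the closed unit disc contains a disc of radius `> 1`.

PROOF. `isCompact_closedBall`, `IsCompact.exists_cthickening_subset_open` (or
`exists_thickening_subset_open`), and `cthickening` of a closed ball: `cthickening_closedBall`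
(`thickening_closedBall`). -/
theorem exists_ball {U : Set ℂ} (hU : IsOpen U) (h : closedBall 0 1 ⊆ U) :
    ∃ R : ℝ, 1 < R ∧ ball (0 : ℂ) R ⊆ U := by
  obtain ⟨ε, hε, h1⟩ := (isCompact_closedBall (0 : ℂ) 1).exists_cthickening_subset_open hU h
  rw [cthickening_closedBall hε.le zero_le_one] at h1
  exact ⟨ε + 1, by linarith, ball_subset_closedBall.trans h1⟩

/-- PROOF. `DifferentiableOn.isExactOn_ball` and `Complex.IsExactOn.with_val_at`, or subtract a
constant. -/
theorem exists_prim {f : ℂ → ℂ} {R : ℝ} (hf : DifferentiableOn ℂ f (ball 0 R)) (c : ℂ) :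
    ∃ F : ℂ → ℂ, F 0 = c ∧ ∀ z ∈ ball (0 : ℂ) R, HasDerivAt F (f z) z :=
  hf.isExactOn_ball.with_val_at 0 c

theorem St.cont (h : St b l R) : ContinuousOn b (closedBall 0 1) := fun z hz =>
  (h.der z (closedBall_subset_ball h.hR hz)).continuousAt.continuousWithinAt

/-- PROOF. `b`, `exp ∘ l` and `deriv l` are continuous on the compact closed disc (`deriv l` is
differentiable on the open disc of radius `R > 1`, `DifferentiableOn.deriv`). Take the maximum of
`1` and the three bounds (`IsCompact.exists_bound_of_continuousOn`). -/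
theorem St.exists_bdd (h : St b l R) : ∃ M : ℝ, Bdd b l M := by
  have hc : IsCompact (closedBall (0 : ℂ) 1) := isCompact_closedBall 0 1
  have hs : closedBall (0 : ℂ) 1 ⊆ ball 0 R := closedBall_subset_ball h.hR
  obtain ⟨M1, h1⟩ := hc.exists_bound_of_continuousOn h.cont
  obtain ⟨M2, h2⟩ := hc.exists_bound_of_continuousOn (h.an.continuousOn.mono hs).cexp
  obtain ⟨M3, h3⟩ := hc.exists_bound_of_continuousOn
    ((h.an.deriv isOpen_ball).continuousOn.mono hs)
  refine ⟨max 1 (max M1 (max M2 M3)), le_max_left _ _, fun z hz => ?_, fun z hz => ?_,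
    fun z hz => ?_⟩
  · exact (h1 z (mem_closedBall_zero_iff.2 hz)).trans
      ((le_max_left _ _).trans (le_max_right _ _))
  · exact (h2 z (mem_closedBall_zero_iff.2 hz)).trans
      ((le_max_left _ _).trans ((le_max_right _ _).trans (le_max_right _ _)))
  · exact (h3 z (mem_closedBall_zero_iff.2 hz)).trans
      ((le_max_right _ _).trans ((le_max_right _ _).trans (le_max_right _ _)))

/-- PROOF. `l` is differentiable on the closed ball of radius `R' = (1 + R) / 2`, so it has a power
series there (`DifferentiableOn.hasFPowerSeriesOnBall`), whose partial sums converge uniformly on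
the smaller closed disc (`HasFPowerSeriesOnBall.tendstoUniformlyOn`, with a radius in
`(1, R')`); `a k` is the coefficient, `FormalMultilinearSeries.partialSum`,
`FormalMultilinearSeries.apply_eq_pow_smul_coeff`. -/
theorem St.exists_poly (h : St b l R) {δ : ℝ} (hδ : 0 < δ) :
    ∃ (a : ℕ → ℂ) (N : ℕ), ∀ z : ℂ, ‖z‖ ≤ 1 → ‖l z - ∑ k ∈ Finset.range N, a k * z ^ k‖ ≤ δ := by
  have hR := h.hR
  have h0 : (0 : ℝ) ≤ (1 + R) / 2 := by linarith
  have h0' : (0 : ℝ) ≤ (3 + R) / 4 := by linarith
  have hd : DifferentiableOn ℂ l (closedBall 0 ((⟨(1 + R) / 2, h0⟩ : NNReal) : ℝ)) :=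
    h.an.mono (closedBall_subset_ball (by
      show (1 + R) / 2 < R
      linarith))
  have hp := hd.hasFPowerSeriesOnBall (show (0 : NNReal) < ⟨(1 + R) / 2, h0⟩ from by
    rw [← NNReal.coe_lt_coe]
    show (0 : ℝ) < (1 + R) / 2
    linarith)
  have hu := hp.tendstoUniformlyOn' (r' := ⟨(3 + R) / 4, h0'⟩) (ENNReal.coe_lt_coe.2 (by
    rw [← NNReal.coe_lt_coe]
    show (3 + R) / 4 < (1 + R) / 2
    linarith))
  obtain ⟨N, hN⟩ := (Metric.tendstoUniformlyOn_iff.1 hu δ hδ).exists
  refine ⟨fun k => (cauchyPowerSeries l 0 ((⟨(1 + R) / 2, h0⟩ : NNReal) : ℝ)).coeff k, N,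
    fun z hz => ?_⟩
  have h1 := hN z (by
    rw [mem_ball_zero_iff]
    show ‖z‖ < (3 + R) / 4
    linarith)
  rw [dist_eq_norm, sub_zero, FormalMultilinearSeries.partialSum] at h1
  simp only [FormalMultilinearSeries.apply_eq_pow_smul_coeff, smul_eq_mul] at h1
  refine le_trans (le_of_eq ?_) h1.le
  congr 2
  exact Finset.sum_congr rfl fun k _ => mul_comm _ _

end Pool.Agent.MP4b24a5.LB
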