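import Pool.Agent.Lib.MP_4b24a5_an_LB.EstE

set_option autoImplicit false

/-!
# MP_4b24a5_an, project LB: the size of V
-/

noncomputable section

namespace Pool.Agent.MP4b24a5.LB

open Complex Metric Set MeasureTheory Filter Topology

variable {b l bt : ℂ → ℂ} {R : ℝ} {P : Prm} {M A δ η : ℝ}

private theorem bdV_reT (h : OK P M A δ η) {z : ℂ} (hz : ‖z‖ = 1) :
    |(P.T z).re| ≤ A ∧ 0 < P.s - (P.T z).re := by
  have hs := h.hs
  have h1 := (tau_bound h (z := z) (by rw [hz]; norm_num) hz.le).1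
  have h2 := S_sphere (P := P) hz
  have h3 : P.tau z = ((-(P.T z).re : ℝ) : ℂ) := by
    have h4 : (P.s : ℂ) + P.tau z = ((P.s - (P.T z).re : ℝ) : ℂ) := h2
    push_cast at h4 ⊢
    linear_combination h4
  rw [h3, Complex.norm_real, Real.norm_eq_abs, abs_neg] at h1
  refine ⟨h1, ?_⟩
  have h5 := (S_bound h (z := z) (by rw [hz]; norm_num) hz.le).2.1
  rw [h2, ofReal_re] at h5
  linarith

/-- On the circle `‖V z‖ = R exp (Re (l z - T z)) (s / (S r)) exp (- S p)`,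
`p = (1 - r ^ 2) / ‖1 - q‖ ^ 2`, `S = s - Re (T z)`.

PROOF. `norm_E_sphere`, `S_sphere`, `‖q‖ = r`, `‖exp (l z)‖ = exp (Re (l z))`,
`R = exp s / (2 n s)`. -/
theorem norm_V_sphere (h : Stg b l R P M A δ η bt) {z : ℂ} (hz : ‖z‖ = 1) :
    ‖P.V l z‖ = P.R * Real.exp ((l z - P.T z).re) * (P.s / ((P.s - (P.T z).re) * P.rr)) *
      Real.exp (-((P.s - (P.T z).re) * ((1 - P.rr ^ 2) / ‖1 - P.q z‖ ^ 2))) := by
  obtain ⟨hT, hT0⟩ := bdV_reT h.ok hz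
  have hs := h.ok.hs
  have hs0 : 0 < P.s := by linarith
  have hr := rr_bd h.ok
  have hr0 : 0 < P.rr := by linarith
  have hn : (0 : ℝ) < P.n := by exact_mod_cast h.ok.hn
  have hq : ‖P.q z‖ = P.rr := by
    rw [Prm.q, norm_mul, norm_pow, hz, one_pow, mul_one, Complex.norm_real,
      Real.norm_of_nonneg hr0.le]
  have hE := norm_E_sphere h.ok hz
  set p : ℝ := (1 - P.rr ^ 2) / ‖1 - P.q z‖ ^ 2 with hp
  set t : ℝ := (P.T z).re with ht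
  have h1 : ‖P.V l z‖ = Real.exp (l z).re * Real.exp ((P.s - t) * (1 - p)) /
      (2 * P.n * (P.s - t) * P.rr) := by
    rw [Prm.V, norm_div, norm_neg, norm_mul, norm_mul, norm_mul, norm_mul, norm_mul, hE, hz, hq,
      Complex.norm_exp, S_sphere hz, Complex.norm_real, Real.norm_of_nonneg hT0.le, one_mul,
      Complex.norm_natCast, Complex.norm_ofNat]
  have h2 : Real.exp P.s * Real.exp ((l z - P.T z).re) * Real.exp (-((P.s - t) * p)) =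
      Real.exp (l z).re * Real.exp ((P.s - t) * (1 - p)) := by
    rw [← Real.exp_add, ← Real.exp_add, ← Real.exp_add, sub_re]
    congr 1
    ring
  rw [h1, ← h2, Prm.R]
  field_simp

/-- PROOF. `norm_V_sphere`; the last factor is `≤ 1`, `|Re (l - T)| ≤ δ / 2` (`Stg.app`),
`|Re T| ≤ A` (`tau_bound`, `S_sphere`), `OK.e6`. -/
theorem V_upper (h : Stg b l R P M A δ η bt) {z : ℂ} (hz : ‖z‖ = 1) :
    ‖P.V l z‖ ≤ P.R * (1 + 2 * δ) := by
  obtain ⟨hT, hT0⟩ := bdV_reT h.ok hz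
  have hs := h.ok.hs
  have hs0 : 0 < P.s := by linarith
  have hsA := h.ok.hsA
  have hA0 := h.ok.hA0
  have hr := rr_bd h.ok
  have hr0 : 0 < P.rr := by linarith
  have hn : (0 : ℝ) < P.n := by exact_mod_cast h.ok.hn
  have hR0 : 0 < P.R := by
    rw [Prm.R]
    positivity
  have hTA := (abs_le.1 hT).2
  rw [norm_V_sphere h hz]
  have h1 : Real.exp ((l z - P.T z).re) ≤ Real.exp (δ / 2) := by
    apply Real.exp_le_exp.2
    exact ((le_abs_self _).trans (Complex.abs_re_le_norm _)).trans (h.app z hz.le)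
  have h2 : P.s / ((P.s - (P.T z).re) * P.rr) ≤ P.s / ((P.s - A) * P.rr) := by
    have h3 : 0 < P.s - A := by linarith
    have h4 : 0 < (P.s - A) * P.rr := mul_pos h3 hr0
    refine div_le_div_of_nonneg_left hs0.le h4 ?_
    exact mul_le_mul_of_nonneg_right (by linarith) hr0.le
  have h3 : Real.exp (-((P.s - (P.T z).re) * ((1 - P.rr ^ 2) / ‖1 - P.q z‖ ^ 2))) ≤ 1 := by
    rw [Real.exp_le_one_iff, neg_nonpos]
    refine mul_nonneg hT0.le (div_nonneg ?_ (sq_nonneg _))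
    nlinarith
  have h4 : 0 < P.s / ((P.s - (P.T z).re) * P.rr) := by positivity
  have h5 := h.ok.e6
  have h6 : P.s / ((P.s - A) * P.rr) = P.s / ((P.s - A) * (1 - (P.s ^ 3)⁻¹)) := rfl
  have h7 : P.R * Real.exp ((l z - P.T z).re) * (P.s / ((P.s - (P.T z).re) * P.rr)) *
      Real.exp (-((P.s - (P.T z).re) * ((1 - P.rr ^ 2) / ‖1 - P.q z‖ ^ 2)))
      ≤ P.R * Real.exp (δ / 2) * (P.s / ((P.s - A) * P.rr)) * 1 := by
    refine mul_le_mul (mul_le_mul (mul_le_mul_of_nonneg_left h1 hR0.le) h2 h4.le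
      (by positivity)) h3 (Real.exp_pos _).le ?_
    exact (mul_pos (mul_pos hR0 (Real.exp_pos _)) (h4.trans_le h2)).le
  refine h7.trans ?_
  calc P.R * Real.exp (δ / 2) * (P.s / ((P.s - A) * P.rr)) * 1
    _ = P.R * (Real.exp (δ / 2) * (P.s / ((P.s - A) * (1 - (P.s ^ 3)⁻¹)))) := by
      rw [h6]
      ring
    _ ≤ P.R * (1 + 2 * δ) := mul_le_mul_of_nonneg_left h5 hR0.le

/-- PROOF. `norm_V_sphere`; `1 - r ^ 2 ≤ 2 s⁻³`, so `p ≤ 2 s⁻³ s = 2 / s ^ 2`; `S ≤ s + A`;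
`s / (S r) ≥ s / (s + A)`; `OK.e7`. -/
theorem V_lower (h : Stg b l R P M A δ η bt) {z : ℂ} (hz : ‖z‖ = 1)
    (hq : P.s⁻¹ ≤ ‖1 - P.q z‖ ^ 2) : P.R * (1 - 2 * δ) ≤ ‖P.V l z‖ := by
  obtain ⟨hT, hT0⟩ := bdV_reT h.ok hz
  have hs := h.ok.hs
  have hs0 : 0 < P.s := by linarith
  have hA0 := h.ok.hA0
  have hr := rr_bd h.ok
  have hr0 : 0 < P.rr := by linarith
  have hn : (0 : ℝ) < P.n := by exact_mod_cast h.ok.hn
  have hR0 : 0 < P.R := by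
    rw [Prm.R]
    positivity
  have hTA := (abs_le.1 hT).1
  rw [norm_V_sphere h hz]
  have h1 : Real.exp (-(δ / 2)) ≤ Real.exp ((l z - P.T z).re) := by
    apply Real.exp_le_exp.2
    have h2 := (Complex.abs_re_le_norm (l z - P.T z)).trans (h.app z hz.le)
    exact (abs_le.1 h2).1
  have h2 : P.s / (P.s + A) ≤ P.s / ((P.s - (P.T z).re) * P.rr) := by
    refine div_le_div_of_nonneg_left hs0.le (mul_pos hT0 hr0) ?_
    have h3 : (P.s - (P.T z).re) * P.rr ≤ (P.s - (P.T z).re) * 1 :=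
      mul_le_mul_of_nonneg_left hr.2.le hT0.le
    linarith
  have hp : (1 - P.rr ^ 2) / ‖1 - P.q z‖ ^ 2 ≤ 2 / P.s ^ 2 := by
    have h3 : 0 < P.s⁻¹ := inv_pos.2 hs0
    have h4 : 0 < ‖1 - P.q z‖ ^ 2 := h3.trans_le hq
    have h5 : 1 - P.rr ^ 2 ≤ 2 * (P.s ^ 3)⁻¹ := by
      have h6 : P.rr = 1 - (P.s ^ 3)⁻¹ := rfl
      rw [h6]
      nlinarith [sq_nonneg ((P.s ^ 3)⁻¹)]
    rw [div_le_iff₀ h4]
    refine h5.trans ?_
    calc 2 * (P.s ^ 3)⁻¹ = 2 / P.s ^ 2 * P.s⁻¹ := by field_simp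
      _ ≤ 2 / P.s ^ 2 * ‖1 - P.q z‖ ^ 2 := mul_le_mul_of_nonneg_left hq (by positivity)
  have hp0 : 0 ≤ (1 - P.rr ^ 2) / ‖1 - P.q z‖ ^ 2 := by
    refine div_nonneg ?_ (sq_nonneg _)
    nlinarith
  have h3 : Real.exp (-((P.s + A) * (2 / P.s ^ 2))) ≤
      Real.exp (-((P.s - (P.T z).re) * ((1 - P.rr ^ 2) / ‖1 - P.q z‖ ^ 2))) := by
    apply Real.exp_le_exp.2
    have h4 : (P.s - (P.T z).re) * ((1 - P.rr ^ 2) / ‖1 - P.q z‖ ^ 2) ≤
        (P.s + A) * (2 / P.s ^ 2) := mul_le_mul (by linarith) hp hp0 (by linarith)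
    linarith
  have h4 : 0 < P.s / (P.s + A) := by positivity
  have h5 := h.ok.e7
  calc P.R * (1 - 2 * δ) ≤ P.R * (Real.exp (-(δ / 2)) * (P.s / (P.s + A)) *
        Real.exp (-((P.s + A) * (2 / P.s ^ 2)))) := mul_le_mul_of_nonneg_left h5 hR0.le
    _ = P.R * Real.exp (-(δ / 2)) * (P.s / (P.s + A)) *
        Real.exp (-((P.s + A) * (2 / P.s ^ 2))) := by ring
    _ ≤ _ := by gcongr

/-- PROOF. `‖V‖ ≤ M ‖E‖ / (n s ‖q‖)`, `‖q‖ = r x ^ n ≥ s⁻⁴ / 2`,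
`‖E‖ ≤ exp (s + A + 1) Phi x` (`norm_E_le`), `Phi x ≤ exp (- s / 8)` as `x ^ n = s⁻⁴ ≤ 1 / 2`;
`exp s / (n s) = 2 R`. -/
theorem V_x (h : Stg b l R P M A δ η bt) {z : ℂ} (hz : ‖z‖ = P.x) :
    ‖P.V l z‖ ≤ P.R * (M * Real.exp (A + 1) * (4 * P.s ^ 4 * Real.exp (-(P.s / 8)))) := by
  obtain ⟨x1, x2, x3, x4, x5, x6⟩ := x_facts h.ok
  have hs := h.ok.hs
  have hs0 : 0 < P.s := by linarith
  have hM := h.ok.hM
  have hr := rr_bd h.ok
  have hr0 : 0 < P.rr := by linarith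
  have hn : (0 : ℝ) < P.n := by exact_mod_cast h.ok.hn
  have hz1 : ‖z‖ ≤ 1 := by rw [hz]; exact x2.le
  have hz2 : 1 / 2 ≤ ‖z‖ := by rw [hz]; exact x1
  obtain ⟨S1, S2, S3⟩ := S_bound h.ok hz2 hz1
  have hq : ‖P.q z‖ = P.rr * (P.s ^ 4)⁻¹ := by
    rw [Prm.q, norm_mul, norm_pow, hz, x3, Complex.norm_real, Real.norm_of_nonneg hr0.le]
  have hE := norm_E_le h.ok hz.ge hz1
  have hPhi : P.Phi ‖z‖ ≤ Real.exp (-(P.s / 8)) := by
    rw [hz, Prm.Phi, x3]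
    apply Real.exp_le_exp.2
    have h1 : (P.s ^ 4)⁻¹ ≤ 1 / 2 := by
      have h2 : (2 : ℝ) ≤ P.s ^ 4 := by nlinarith [sq_nonneg (P.s ^ 2 - 4), sq_nonneg (P.s - 2)]
      rw [inv_le_comm₀ (by positivity) (by norm_num)]
      linarith
    nlinarith
  have h1 : ‖P.V l z‖ = ‖z‖ * ‖exp (l z)‖ * ‖P.E z‖ / (2 * P.n * ‖P.S z‖ * ‖P.q z‖) := by
    rw [Prm.V, norm_div, norm_neg, norm_mul, norm_mul, norm_mul, norm_mul, norm_mul,
      Complex.norm_natCast, Complex.norm_ofNat]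
  have hE' : ‖P.E z‖ ≤ Real.exp (P.s + A + 1) * Real.exp (-(P.s / 8)) :=
    hE.trans (mul_le_mul_of_nonneg_left hPhi (Real.exp_pos _).le)
  have hnum : ‖z‖ * ‖exp (l z)‖ * ‖P.E z‖ ≤
      1 * M * (Real.exp (P.s + A + 1) * Real.exp (-(P.s / 8))) := by
    have := h.bdd.he z hz1
    gcongr
  have hden : 2 * P.n * (P.s / 2) * (1 / 2 * (P.s ^ 4)⁻¹) ≤ 2 * P.n * ‖P.S z‖ * ‖P.q z‖ := by
    rw [hq]
    have := hr.1
    gcongr
  have hden0 : 0 < 2 * P.n * (P.s / 2) * (1 / 2 * (P.s ^ 4)⁻¹) := by positivity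
  rw [h1]
  refine (div_le_div₀ (by positivity) hnum hden0 hden).trans (le_of_eq ?_)
  have h2 : Real.exp (P.s + A + 1) = Real.exp P.s * Real.exp (A + 1) := by
    rw [← Real.exp_add]
    congr 1
    ring
  rw [h2, Prm.R]
  field_simp
  norm_num

end Pool.Agent.MP4b24a5.LB
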