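import Pool.Agent.Lib.MP_4b24a5_an_LB.EstE

set_option autoImplicit false

/-!
# MP_4b24a5_an, project LB: the derivative of V
-/

noncomputable section

namespace Pool.Agent.MP4b24a5.LB

open Complex Metric Set MeasureTheory Filter Topology

variable {b l bt : ℂ → ℂ} {R : ℝ} {P : Prm} {M A δ η : ℝ}

private theorem derV_alg {z el E S q S' l' n : ℂ} (hz : z ≠ 0) (hS : S ≠ 0) (hq : q ≠ 0)
    (hn : n ≠ 0) (h1 : 1 - q ≠ 0) :
    -(((el * E + z * (el * l') * E + z * el * (E * (-2 * S' * (q / (1 - q)) +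
      -2 * S * ((n * q / z) / (1 - q) ^ 2)))) * (2 * n * S * q) -
      z * el * E * (2 * n * (S' * q + S * (n * q / z)))) / (2 * n * S * q) ^ 2) =
    el * (E / (1 - q) ^ 2) + (-(z * el * E) / (2 * n * S * q)) *
      (1 / z + l' - S' / S - n / z - 2 * S' * (q / (1 - q))) := by
  field_simp
  ring

/-- PROOF. `V = - z e^l E / (2 n S q)`, with `E = exp (-2 S q / (1 - q))` near `z` (`E_eq`; the
functions are equal in the neighbourhood `z ≠ 0`), `q' = n q / z`,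
`(q / (1 - q))' = q' / (1 - q) ^ 2`. So
`V' = V (1 / z + l' - tau' / S - n / z - 2 tau' q / (1 - q) - 2 S n q / (z (1 - q) ^ 2))` and the
last term gives `e^l E / (1 - q) ^ 2 = e^l exp kap` (`exp_kap`). `D` is the rest,
`D = V (1 / z + l' - tau' / S - n / z - 2 tau' q / (1 - q))`,
`‖V‖ ≤ M ‖E‖ / (n s ‖q‖)` (`S_bound`), the bracket is at most
`2 + M + 2 A / s + 2 n + 2 A s ^ 3 ≤ 3 n` (`‖z‖ ≥ 1 / 2`, `‖q / (1 - q)‖ ≤ s ^ 3`, `OK.e4`), and
`‖q‖ = r ‖z‖ ^ n ≥ ‖z‖ ^ n / 2`. -/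
theorem hasDerivAt_V (h : Stg b l R P M A δ η bt) {z : ℂ} (h1 : P.x ≤ ‖z‖) (h2 : ‖z‖ ≤ 1) :
    ∃ D : ℂ, HasDerivAt (P.V l) (exp (l z) * exp (P.kap z) + D) z ∧
      ‖D‖ ≤ 6 * M * ‖P.E z‖ / (P.s * ‖z‖ ^ P.n) := by
  have hok := h.ok
  obtain ⟨hx1, -, -, -, -, -⟩ := x_facts hok
  have hz12 : 1 / 2 ≤ ‖z‖ := hx1.trans h1
  have hz : z ≠ 0 := by
    intro h0
    rw [h0, norm_zero] at hz12
    linarith
  have hs2 := hok.hs
  have hM := hok.hM
  have hA0 := hok.hA0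
  have hn1 : (1 : ℝ) ≤ P.n := by exact_mod_cast hok.hn
  have hn0 : (P.n : ℂ) ≠ 0 := by
    have := hok.hn
    exact_mod_cast (by omega : P.n ≠ 0)
  obtain ⟨hr1, hr2⟩ := rr_bd hok
  obtain ⟨hq1, hq2, -⟩ := norm_one_sub_q hok h2
  obtain ⟨hS1, -, -⟩ := S_bound hok hz12 h2
  have hs3 : 0 < P.s ^ 3 := by positivity
  have hzn : 0 < ‖z‖ ^ P.n := by positivity
  have hqn : ‖P.q z‖ = P.rr * ‖z‖ ^ P.n := by
    rw [Prm.q, norm_mul, norm_pow, Complex.norm_real, Real.norm_of_nonneg (by linarith)]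
  have hq0 : P.q z ≠ 0 := by
    rw [← norm_pos_iff, hqn]
    positivity
  have hS0 : P.S z ≠ 0 := by
    rw [← norm_pos_iff]
    linarith
  have h1q : 1 - P.q z ≠ 0 := by
    rw [← norm_pos_iff]
    exact lt_of_lt_of_le (inv_pos.2 hs3) hq2
  -- derivatives
  have hdq : HasDerivAt P.q (P.n * P.q z / z) z := by
    have h3 := (hasDerivAt_pow P.n z).const_mul (P.rr : ℂ)
    have h4 : (P.rr : ℂ) * (P.n * z ^ (P.n - 1)) = P.n * P.q z / z := by
      rw [Prm.q, eq_div_iff hz]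
      have h5 : z ^ P.n = z ^ (P.n - 1) * z := by
        rw [← pow_succ, Nat.sub_add_cancel hok.hn]
      rw [h5]
      ring
    rw [h4] at h3
    exact h3
  have hdS : HasDerivAt P.S (P.tau' z) z := (hasDerivAt_tau hz).const_add (P.s : ℂ)
  have hdh : HasDerivAt (fun w => P.q w / (1 - P.q w))
      ((P.n * P.q z / z) / (1 - P.q z) ^ 2) z := by
    have h3 := hdq.div (hdq.const_sub 1) h1q
    have h4 : (P.n * P.q z / z * (1 - P.q z) - P.q z * -(P.n * P.q z / z)) / (1 - P.q z) ^ 2 =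
        (P.n * P.q z / z) / (1 - P.q z) ^ 2 := by ring
    rw [h4] at h3
    exact h3
  have hdE : HasDerivAt P.E (P.E z * (-2 * P.tau' z * (P.q z / (1 - P.q z)) +
      -2 * P.S z * ((P.n * P.q z / z) / (1 - P.q z) ^ 2))) z := by
    have h3 := ((hdS.const_mul (-2 : ℂ)).mul hdh).cexp
    have h4 : (fun w => exp (-2 * P.S w * (P.q w / (1 - P.q w)))) =ᶠ[𝓝 z] P.E := by
      filter_upwards [isOpen_ne.mem_nhds hz] with w hw
      exact (E_eq hok hw).symm
    have h5 := h3.congr_of_eventuallyEq h4.symm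
    rw [E_eq hok hz]
    exact h5
  have hzR : z ∈ ball (0 : ℂ) R := by
    rw [mem_ball_zero_iff]
    exact lt_of_le_of_lt h2 h.st.hR
  have hdl : HasDerivAt l (deriv l z) z :=
    ((h.st.an z hzR).differentiableAt (isOpen_ball.mem_nhds hzR)).hasDerivAt
  have hdN := ((hasDerivAt_id z).mul hdl.cexp).mul hdE
  have hdD := (hdS.mul hdq).const_mul (2 * (P.n : ℂ))
  have hD0 : 2 * (P.n : ℂ) * (P.S z * P.q z) ≠ 0 :=
    mul_ne_zero (mul_ne_zero two_ne_zero hn0) (mul_ne_zero hS0 hq0)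
  have hdV := (hdN.div hdD hD0).neg
  refine ⟨P.V l z * (1 / z + deriv l z - P.tau' z / P.S z - P.n / z -
    2 * P.tau' z * (P.q z / (1 - P.q z))), ?_, ?_⟩
  · have h3 : P.V l =
        fun w => -((id w * exp (l w) * P.E w) / (2 * (P.n : ℂ) * (P.S w * P.q w))) := by
      funext w
      rw [Prm.V, id, neg_div, mul_assoc (2 * (P.n : ℂ))]
    have h4 := derV_alg (el := exp (l z)) (E := P.E z) (S' := P.tau' z) (l' := deriv l z) hz hS0
      hq0 hn0 h1q
    rw [exp_kap hok h2, Prm.V, ← h4]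
    rw [h3]
    refine hdV.congr_deriv ?_
    simp only [id, Pi.mul_apply]
    ring
  · have hV : ‖P.V l z‖ ≤ M * ‖P.E z‖ / (P.n * P.s * ‖P.q z‖) := by
      rw [Prm.V, norm_div, norm_neg, norm_mul, norm_mul, norm_mul, norm_mul, norm_mul,
        Complex.norm_ofNat, Complex.norm_natCast]
      have hq3 : 0 < ‖P.q z‖ := norm_pos_iff.2 hq0
      rw [div_le_div_iff₀ (by positivity) (by positivity)]
      have hE0 := norm_nonneg (P.E z)
      have h5 : ‖z‖ * ‖exp (l z)‖ ≤ M := by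
        calc ‖z‖ * ‖exp (l z)‖ ≤ 1 * M :=
              mul_le_mul h2 (h.bdd.he z h2) (norm_nonneg _) zero_le_one
          _ = M := one_mul M
      have h6 : ‖z‖ * ‖exp (l z)‖ * ‖P.E z‖ ≤ M * ‖P.E z‖ :=
        mul_le_mul_of_nonneg_right h5 hE0
      have h7 : (P.n : ℝ) * P.s * ‖P.q z‖ ≤ 2 * P.n * ‖P.S z‖ * ‖P.q z‖ := by
        have : (P.n : ℝ) * P.s ≤ 2 * P.n * ‖P.S z‖ := by nlinarith
        exact mul_le_mul_of_nonneg_right this hq3.le
      exact mul_le_mul h6 h7 (by positivity) (by positivity)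
    have hbr : ‖1 / z + deriv l z - P.tau' z / P.S z - P.n / z -
        2 * P.tau' z * (P.q z / (1 - P.q z))‖ ≤ 3 * P.n := by
      have a1 : ‖1 / z‖ ≤ 2 := by
        rw [norm_div, norm_one, div_le_iff₀ (by linarith)]
        linarith
      have a2 : ‖deriv l z‖ ≤ M := h.bdd.hl z h2
      obtain ⟨-, ht⟩ := tau_bound hok hz12 h2
      have a3 : ‖P.tau' z / P.S z‖ ≤ A := by
        rw [norm_div, div_le_iff₀ (by linarith)]
        nlinarith [norm_nonneg (P.tau' z)]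
      have a4 : ‖(P.n : ℂ) / z‖ ≤ 2 * P.n := by
        rw [norm_div, Complex.norm_natCast, div_le_iff₀ (by linarith)]
        nlinarith
      have a5 : ‖P.q z / (1 - P.q z)‖ ≤ P.s ^ 3 := by
        rw [norm_div, div_le_iff₀ (norm_pos_iff.2 h1q)]
        have h8 : P.s ^ 3 * (P.s ^ 3)⁻¹ = 1 := mul_inv_cancel₀ hs3.ne'
        have h9 : P.s ^ 3 * (P.s ^ 3)⁻¹ ≤ P.s ^ 3 * ‖1 - P.q z‖ :=
          mul_le_mul_of_nonneg_left hq2 hs3.le
        have h10 : 0 < (P.s ^ 3)⁻¹ := inv_pos.2 hs3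
        linarith
      have a6 : ‖2 * P.tau' z * (P.q z / (1 - P.q z))‖ ≤ 2 * A * P.s ^ 3 := by
        rw [norm_mul, norm_mul, Complex.norm_ofNat]
        exact mul_le_mul (mul_le_mul_of_nonneg_left ht (by norm_num)) a5 (norm_nonneg _)
          (by positivity)
      have b1 := norm_sub_le (1 / z + deriv l z - P.tau' z / P.S z - P.n / z)
        (2 * P.tau' z * (P.q z / (1 - P.q z)))
      have b2 := norm_sub_le (1 / z + deriv l z - P.tau' z / P.S z) ((P.n : ℂ) / z)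
      have b3 := norm_sub_le (1 / z + deriv l z) (P.tau' z / P.S z)
      have b4 := norm_add_le (1 / z) (deriv l z)
      have e4 := hok.e4
      linarith
    rw [norm_mul]
    have hq3 : 0 < ‖P.q z‖ := norm_pos_iff.2 hq0
    have hE0 := norm_nonneg (P.E z)
    have hMn : 0 ≤ M * ‖P.E z‖ / (P.n * P.s * ‖P.q z‖) := by positivity
    calc ‖P.V l z‖ * ‖1 / z + deriv l z - P.tau' z / P.S z - P.n / z -
        2 * P.tau' z * (P.q z / (1 - P.q z))‖
        ≤ M * ‖P.E z‖ / (P.n * P.s * ‖P.q z‖) * (3 * P.n) :=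
          mul_le_mul hV hbr (norm_nonneg _) hMn
      _ = 3 * M * ‖P.E z‖ / (P.s * ‖P.q z‖) := by
          field_simp
      _ ≤ 6 * M * ‖P.E z‖ / (P.s * ‖z‖ ^ P.n) := by
          rw [div_le_div_iff₀ (by positivity) (by positivity), hqn]
          have h11 : 0 ≤ M * ‖P.E z‖ * (P.s * ‖z‖ ^ P.n) := by positivity
          nlinarith

end Pool.Agent.MP4b24a5.LB
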