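import Pool.Agent.Lib.MP_4b24a5_an_LB.AlgB

set_option autoImplicit false

/-!
# MP_4b24a5_an, project LB: integration along a radius
-/

noncomputable section

namespace Pool.Agent.MP4b24a5.LB

open Complex Metric Set MeasureTheory Filter Topology

variable {P : Prm} {M A δ η : ℝ}

/-- PROOF. Let `H y = K ((16 / (s n)) Phi y + s ^ 4 exp (- s / 8) y)`. Then
`H' y ≥ K Phi y / y ^ n` for
`x ≤ y ≤ 1`: `Phi' = (s n y ^ (n - 1) / 4) Phi`; if `y ^ n ≥ 1 / 2` then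
`(16 / (s n)) Phi' = 4 y ^ (n - 1) Phi ≥ 4 y ^ n Phi ≥ Phi / y ^ n`; if `y ^ n < 1 / 2` then
`Phi ≤ exp (- s / 8)` and `y ^ n ≥ x ^ n = s⁻⁴`, so `Phi / y ^ n ≤ s ^ 4 exp (- s / 8)`. So
`‖G 1 - G x‖ ≤ H 1 - H x` (`image_norm_le_of_norm_deriv_right_le_deriv_boundary` for `G - G x` and
`H - H x`), and `Phi 1 = 1`, `Phi x ≥ 0`, `1 - x ≤ 4 log s / n ≤ 4 s / n`. -/
theorem radial (h : OK P M A δ η) {G G' : ℝ → ℂ} {K : ℝ} (hK : 0 ≤ K)
    (hG : ∀ y ∈ Icc P.x 1, HasDerivAt G (G' y) y)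
    (hb : ∀ y ∈ Icc P.x 1, ‖G' y‖ ≤ K * (P.Phi y / y ^ P.n)) :
    ‖G 1 - G P.x‖ ≤ K * (16 / (P.s * P.n) + 4 * P.s ^ 5 * Real.exp (-(P.s / 8)) / P.n) := by
  obtain ⟨hx1, hx2, hx3, hx4, hlog, hlog'⟩ := x_facts h
  have hs := h.hs
  have hs0 : 0 < P.s := by linarith
  have hn0 : (0 : ℝ) < P.n := by exact_mod_cast h.hn
  set e : ℝ := Real.exp (-(P.s / 8)) with he
  have he0 : 0 < e := Real.exp_pos _
  have hPhi : ∀ y, HasDerivAt P.Phi (P.Phi y * (P.s * (P.n * y ^ (P.n - 1)) / 4)) y := by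
    intro y
    have h1 : HasDerivAt (fun y : ℝ => y ^ P.n) (P.n * y ^ (P.n - 1)) y := hasDerivAt_pow _ _
    have h2 : HasDerivAt (fun y : ℝ => -(P.s * (1 - y ^ P.n) / 4))
        (-(P.s * -(P.n * y ^ (P.n - 1)) / 4)) y :=
      (((h1.const_sub 1).const_mul P.s).div_const 4).neg
    have h3 := h2.exp
    have h4 : P.Phi y * (P.s * (P.n * y ^ (P.n - 1)) / 4) =
        Real.exp (-(P.s * (1 - y ^ P.n) / 4)) * -(P.s * -(P.n * y ^ (P.n - 1)) / 4) := by
      unfold Prm.Phi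
      ring
    rw [h4]
    exact h3
  have hPhi0 : ∀ y, 0 < P.Phi y := fun y => Real.exp_pos _
  have hPhi1 : P.Phi 1 = 1 := by
    unfold Prm.Phi
    rw [one_pow, sub_self, mul_zero, zero_div, neg_zero, Real.exp_zero]
  have key : ∀ y ∈ Icc P.x 1, P.Phi y / y ^ P.n ≤ 4 * y ^ (P.n - 1) * P.Phi y + P.s ^ 4 * e := by
    rintro y ⟨hy1, hy2⟩
    have hy0 : 0 < y := by linarith
    have hyn : 0 < y ^ P.n := pow_pos hy0 _
    have hyn1 : 0 < y ^ (P.n - 1) := pow_pos hy0 _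
    have hle : y ^ P.n ≤ y ^ (P.n - 1) := pow_le_pow_of_le_one hy0.le hy2 (Nat.sub_le _ _)
    rcases le_or_gt (1 / 2) (y ^ P.n) with hc | hc
    · have h1 : P.Phi y / y ^ P.n ≤ 2 * P.Phi y := by
        rw [div_le_iff₀ hyn]
        nlinarith [hPhi0 y]
      have h2 : 2 * P.Phi y ≤ 4 * y ^ (P.n - 1) * P.Phi y := by
        nlinarith [hPhi0 y]
      have h3 : 0 < P.s ^ 4 * e := by positivity
      linarith
    · have h1 : P.Phi y ≤ e := by
        unfold Prm.Phi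
        rw [he]
        apply Real.exp_le_exp.2
        nlinarith
      have h2 : (P.s ^ 4)⁻¹ ≤ y ^ P.n := by
        rw [← hx3]
        exact pow_le_pow_left₀ (by linarith) hy1 _
      have h3 : P.Phi y / y ^ P.n ≤ P.s ^ 4 * e := by
        rw [div_le_iff₀ hyn]
        have h4 : 1 ≤ P.s ^ 4 * y ^ P.n := by
          have h5 := mul_le_mul_of_nonneg_left h2 (by positivity : 0 ≤ P.s ^ 4)
          rwa [mul_inv_cancel₀ (by positivity)] at h5
        nlinarith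
      have h4 : 0 ≤ 4 * y ^ (P.n - 1) * P.Phi y := by
        have := hPhi0 y
        positivity
      linarith
  let c : ℝ := 16 / (P.s * P.n)
  let B : ℝ → ℝ := fun y => K * (c * P.Phi y + P.s ^ 4 * e * y) -
    K * (c * P.Phi P.x + P.s ^ 4 * e * P.x)
  let B' : ℝ → ℝ := fun y => K * (c * (P.Phi y * (P.s * (P.n * y ^ (P.n - 1)) / 4)) +
    P.s ^ 4 * e)
  have hB : ∀ y, HasDerivAt B (B' y) y := by
    intro y
    have h1 := (((hPhi y).const_mul c).add ((hasDerivAt_id y).const_mul (P.s ^ 4 * e))).const_mul K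
    have h2 := h1.sub_const (K * (c * P.Phi P.x + P.s ^ 4 * e * P.x))
    rw [mul_one] at h2
    exact h2
  have hBb : ∀ y ∈ Icc P.x 1, ‖G' y‖ ≤ B' y := by
    intro y hy
    refine (hb y hy).trans (mul_le_mul_of_nonneg_left ?_ hK)
    have h1 : c * (P.Phi y * (P.s * (P.n * y ^ (P.n - 1)) / 4)) =
        4 * y ^ (P.n - 1) * P.Phi y := by
      simp only [c]
      field_simp
      ring
    rw [h1]
    exact key y hy
  have hmain := image_norm_le_of_norm_deriv_right_le_deriv_boundary (a := P.x) (b := 1)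
    (f := fun y => G y - G P.x) (f' := G') (B := B) (B' := B')
    (fun y hy => ((hG y hy).continuousAt.continuousWithinAt).sub continuousWithinAt_const)
    (fun y hy => ((hG y (Ico_subset_Icc_self hy)).sub_const _).hasDerivWithinAt)
    (by simp [B]) hB (fun y hy => hBb y (Ico_subset_Icc_self hy)) (right_mem_Icc.2 hx2.le)
  refine hmain.trans ?_
  show K * (c * P.Phi 1 + P.s ^ 4 * e * 1) - K * (c * P.Phi P.x + P.s ^ 4 * e * P.x) ≤ _
  rw [hPhi1, ← mul_sub]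
  refine mul_le_mul_of_nonneg_left ?_ hK
  have hc0 : 0 < c := by
    simp only [c]
    positivity
  have h1 : 1 - P.x ≤ 4 * P.s / P.n := hx4.trans (by gcongr)
  have h2 : P.s ^ 4 * e * (1 - P.x) ≤ P.s ^ 4 * e * (4 * P.s / P.n) := by gcongr
  have h3 : P.s ^ 4 * e * (4 * P.s / P.n) = 4 * P.s ^ 5 * e / P.n := by ring
  have h4 : 0 < c * P.Phi P.x := mul_pos hc0 (hPhi0 _)
  have h5 : c = 16 / (P.s * P.n) := rfl
  rw [← h5]
  linarith

end Pool.Agent.MP4b24a5.LB
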