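import Pool.Agent.Lib.MP_4b24a5_an_LB.Int
import Pool.Agent.Lib.MP_4b24a5_an_LB.DerV
import Pool.Agent.Lib.MP_4b24a5_an_LB.Rad
import Pool.Agent.Lib.MP_4b24a5_an_LB.BdV

set_option autoImplicit false

/-!
# MP_4b24a5_an, project LB: the size of bt
-/

noncomputable section

namespace Pool.Agent.MP4b24a5.LB

open Complex Metric Set MeasureTheory Filter Topology

variable {b l bt : ℂ → ℂ} {R : ℝ} {P : Prm} {M A δ η : ℝ}

/-- PROOF. `G y = bt (y z) - V (y z)` has the derivative `- z D`, and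
`‖D‖ ≤ 6 M ‖E‖ / (s y ^ n) ≤ K Phi y / y ^ n` with `K = 6 M exp (s + A + 1) / s` (`hasDerivAt_V`,
`norm_E_le`); `radial` gives `‖G 1 - G x‖ ≤ K (16 / (s n) + 4 s ^ 5 exp (- s / 8) / n)
= R M exp (A + 1) (192 / s + 48 s ^ 5 exp (- s / 8))`. `‖bt (x z)‖ ≤ 3
M` (`bt_x`), `V_x`. The sum is
at most `δ R` by `OK.e5` (`s ^ 4 ≤ s ^ 5`). -/
theorem bt_sub_V (h : Stg b l R P M A δ η bt) {z : ℂ} (hz : ‖z‖ = 1) :
    ‖bt z - P.V l z‖ ≤ δ * P.R := by
  obtain ⟨x1, x2, x3, x4, x5, x6⟩ := x_facts h.ok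
  have hs := h.ok.hs
  have hM := h.ok.hM
  have hs0 : 0 < P.s := by linarith
  have hn : (0 : ℝ) < P.n := by exact_mod_cast h.ok.hn
  have hR0 : 0 < P.R := by
    unfold Prm.R
    positivity
  have hx0 : 0 < P.x := by linarith
  obtain ⟨G, hG⟩ : ∃ G : ℝ → ℂ, ∀ y, G y = bt (y * z) - P.V l (y * z) := ⟨_, fun y => rfl⟩
  obtain ⟨K, hK⟩ : ∃ K : ℝ, K = 6 * M * Real.exp (P.s + A + 1) / P.s := ⟨_, rfl⟩
  have hK0 : 0 ≤ K := by
    rw [hK]
    positivity
  have hder : ∀ y ∈ Icc P.x 1, ∃ g : ℂ, HasDerivAt G g y ∧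
      ‖g‖ ≤ K * (P.Phi y / y ^ P.n) := by
    rintro y ⟨hy1, hy2⟩
    have hy0 : 0 < y := hx0.trans_le hy1
    have hny : ‖(y : ℂ) * z‖ = y := by
      rw [norm_mul, hz, mul_one, Complex.norm_real, Real.norm_of_nonneg hy0.le]
    obtain ⟨D, hD1, hD2⟩ := hasDerivAt_V h (z := (y : ℂ) * z) (by rw [hny]; exact hy1)
      (by rw [hny]; exact hy2)
    have hE := norm_E_le h.ok (z := (y : ℂ) * z) (by rw [hny]; exact hy1)
      (by rw [hny]; exact hy2)
    have hb := h.der ((y : ℂ) * z) (by rw [hny]; exact hy2)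
    rw [hny] at hD2 hE
    have hi : HasDerivAt (fun y : ℝ => (y : ℂ) * z) z y := by
      have e1 := (ofRealCLM.hasDerivAt (x := y)).mul_const z
      rw [ofRealCLM_apply, ofReal_one, one_mul] at e1
      exact e1
    have hGd : HasDerivAt G (z • (exp (l (y * z)) * exp (P.kap (y * z))) -
        z • (exp (l (y * z)) * exp (P.kap (y * z)) + D)) y := by
      have e1 := (hb.scomp y hi).sub (hD1.scomp y hi)
      have e2 : G = bt ∘ (fun y : ℝ => (y : ℂ) * z) - P.V l ∘ (fun y : ℝ => (y : ℂ) * z) :=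
        funext hG
      rw [e2]
      exact e1
    refine ⟨_, hGd, ?_⟩
    have e3 : z • (exp (l (y * z)) * exp (P.kap (y * z))) -
        z • (exp (l (y * z)) * exp (P.kap (y * z)) + D) = -(z * D) := by
      rw [smul_eq_mul, smul_eq_mul]
      ring
    rw [e3, norm_neg, norm_mul, hz, one_mul]
    refine hD2.trans ?_
    have hyn : 0 < y ^ P.n := pow_pos hy0 _
    have e4 : K * (P.Phi y / y ^ P.n) =
        6 * M * (Real.exp (P.s + A + 1) * P.Phi y) / (P.s * y ^ P.n) := by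
      rw [hK]
      field_simp
    rw [e4]
    refine div_le_div_of_nonneg_right ?_ (by positivity)
    exact mul_le_mul_of_nonneg_left hE (by linarith)
  choose! G' hG1 hG2 using hder
  have hrad := radial h.ok hK0 hG1 hG2
  have hG1' : G 1 = bt z - P.V l z := by
    rw [hG, ofReal_one, one_mul]
  have hnx : ‖(P.x : ℂ) * z‖ = P.x := by
    rw [norm_mul, hz, mul_one, Complex.norm_real, Real.norm_of_nonneg hx0.le]
  have hGx : ‖G P.x‖ ≤ 3 * M +
      P.R * (M * Real.exp (A + 1) * (4 * P.s ^ 4 * Real.exp (-(P.s / 8)))) := by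
    rw [hG]
    exact (norm_sub_le _ _).trans (add_le_add (bt_x h hnx.le) (V_x h hnx))
  have hfin : ‖bt z - P.V l z‖ ≤
      K * (16 / (P.s * P.n) + 4 * P.s ^ 5 * Real.exp (-(P.s / 8)) / P.n) + (3 * M +
      P.R * (M * Real.exp (A + 1) * (4 * P.s ^ 4 * Real.exp (-(P.s / 8))))) := by
    rw [← hG1']
    have e1 : G 1 = (G 1 - G P.x) + G P.x := by ring
    rw [e1]
    exact (norm_add_le _ _).trans (add_le_add hrad hGx)
  refine hfin.trans ?_
  have he5 := mul_le_mul_of_nonneg_right h.ok.e5 hR0.le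
  refine le_trans ?_ he5
  have e1 : K * (16 / (P.s * P.n) + 4 * P.s ^ 5 * Real.exp (-(P.s / 8)) / P.n) =
      P.R * (M * Real.exp (A + 1) * (192 / P.s + 48 * P.s ^ 5 * Real.exp (-(P.s / 8)))) := by
    rw [hK, Prm.R, add_assoc P.s A 1, Real.exp_add P.s (A + 1)]
    field_simp
    ring
  have e2 : (3 * M / P.R + M * Real.exp (A + 1) *
      (52 * P.s ^ 5 * Real.exp (-(P.s / 8)) + 192 / P.s)) * P.R =
      3 * M + P.R * (M * Real.exp (A + 1) *
      (52 * P.s ^ 5 * Real.exp (-(P.s / 8)) + 192 / P.s)) := by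
    field_simp
  rw [e1, e2]
  have e3 : 4 * P.s ^ 4 * Real.exp (-(P.s / 8)) ≤ 4 * P.s ^ 5 * Real.exp (-(P.s / 8)) := by
    refine mul_le_mul_of_nonneg_right ?_ (Real.exp_pos _).le
    have e4 : P.s ^ 4 ≤ P.s ^ 5 := pow_le_pow_right₀ (by linarith) (by norm_num)
    linarith
  have e5 : P.R * (M * Real.exp (A + 1) * (4 * P.s ^ 4 * Real.exp (-(P.s / 8)))) ≤
      P.R * (M * Real.exp (A + 1) * (4 * P.s ^ 5 * Real.exp (-(P.s / 8)))) :=
    mul_le_mul_of_nonneg_left (mul_le_mul_of_nonneg_left e3 (by positivity)) hR0.le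
  nlinarith

/-- PROOF. `bt_sub_V`, `V_upper` on the circle and the maximum principle
(`Complex.norm_le_of_forall_mem_frontier_norm_le`). -/
theorem bt_le (h : Stg b l R P M A δ η bt) {z : ℂ} (hz : ‖z‖ ≤ 1) :
    ‖bt z‖ ≤ P.R * (1 + 3 * δ) := by
  have hd : DiffContOnCl ℂ bt (ball 0 1) := by
    refine DifferentiableOn.diffContOnCl fun w hw => ?_
    rw [closure_ball (0 : ℂ) one_ne_zero, mem_closedBall_zero_iff] at hw
    exact (h.der w hw).differentiableAt.differentiableWithinAt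
  refine Complex.norm_le_of_forall_mem_frontier_norm_le isBounded_ball hd (fun w hw => ?_) ?_
  · rw [frontier_ball (0 : ℂ) one_ne_zero, mem_sphere_zero_iff_norm] at hw
    have e1 := bt_sub_V h hw
    have e2 := V_upper h hw
    have e3 : bt w = (bt w - P.V l w) + P.V l w := by ring
    rw [e3]
    refine (norm_add_le _ _).trans ((add_le_add e1 e2).trans (le_of_eq ?_))
    ring
  · rw [closure_ball (0 : ℂ) one_ne_zero, mem_closedBall_zero_iff]
    exact hz

theorem bt_ge (h : Stg b l R P M A δ η bt) {z : ℂ} (hz : ‖z‖ = 1)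
    (hq : P.s⁻¹ ≤ ‖1 - P.q z‖ ^ 2) : P.R * (1 - 3 * δ) ≤ ‖bt z‖ := by
  have e1 := bt_sub_V h hz
  have e2 := V_lower h hz hq
  have e3 : ‖P.V l z‖ ≤ ‖bt z - P.V l z‖ + ‖bt z‖ := by
    have e4 := norm_sub_norm_le (P.V l z) (bt z)
    rw [norm_sub_rev] at e4
    linarith
  linarith

end Pool.Agent.MP4b24a5.LB
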