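import Pool.Agent.Lib.MP_4b24a5_an_LB.AlgB

set_option autoImplicit false

/-!
# MP_4b24a5_an, project LB: the size of E
-/

noncomputable section

namespace Pool.Agent.MP4b24a5.LB

open Complex Metric Set MeasureTheory Filter Topology

variable {b l bt : ℂ → ℂ} {R : ℝ} {P : Prm} {M A δ η : ℝ}

private theorem estE_re (S q : ℂ) (hq : 1 - q ≠ 0) :
    (-2 * S * (q / (1 - q))).re = S.re * (1 - (1 - ‖q‖ ^ 2) / ‖1 - q‖ ^ 2) +
      2 * S.im * (q / (1 - q)).im := by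
  have hN : normSq (1 - q) ≠ 0 := fun h0 => hq (normSq_eq_zero.1 h0)
  have h1 : (-2 * S * (q / (1 - q))).re =
      -2 * (S.re * (q / (1 - q)).re - S.im * (q / (1 - q)).im) := by
    have h2 : -2 * S * (q / (1 - q)) = ((-2 : ℝ) : ℂ) * (S * (q / (1 - q))) := by
      push_cast
      ring
    rw [h2, re_ofReal_mul, mul_re]
  have h2 : -2 * (q / (1 - q)).re = 1 - (1 - ‖q‖ ^ 2) / ‖1 - q‖ ^ 2 := by
    rw [div_re, Complex.sq_norm, Complex.sq_norm]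
    field_simp
    rw [normSq_apply, normSq_apply, sub_re, sub_im, one_re, one_im]
    ring
  rw [h1, ← h2]
  ring

private theorem estE_ne (h : OK P M A δ η) {z : ℂ} (h2 : ‖z‖ ≤ 1) : 1 - P.q z ≠ 0 := by
  intro h0
  have h1 := (norm_one_sub_q h h2).2.1
  rw [h0, norm_zero] at h1
  have h3 : 0 < (P.s ^ 3)⁻¹ := inv_pos.2 (pow_pos (by linarith [h.hs]) 3)
  linarith

/-- PROOF. `h = q / (1 - q)`, `‖q‖ = r` (as `‖z‖ = 1`), `2 h + 1 = (1 + q) / (1 - q)` has the real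
part `(1 - ‖q‖ ^ 2) / ‖1 - q‖ ^ 2`. `E_eq`, `S_sphere` (`S` is real), `Complex.norm_exp`. -/
theorem norm_E_sphere (h : OK P M A δ η) {z : ℂ} (hz : ‖z‖ = 1) :
    ‖P.E z‖ = Real.exp ((P.s - (P.T z).re) * (1 - (1 - P.rr ^ 2) / ‖1 - P.q z‖ ^ 2)) := by
  have hz0 : z ≠ 0 := by
    rintro rfl
    rw [norm_zero] at hz
    exact zero_ne_one hz
  have hq : ‖P.q z‖ = P.rr := by
    rw [Prm.q, norm_mul, norm_pow, hz, one_pow, mul_one, Complex.norm_real,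
      Real.norm_of_nonneg (by linarith [(rr_bd h).1])]
  rw [E_eq h hz0, Complex.norm_exp, estE_re _ _ (estE_ne h hz.le), S_sphere hz, ofReal_re,
    ofReal_im, hq, mul_zero, zero_mul, add_zero]

/-- PROOF. Let `z = y ζ`, `y = ‖z‖`, `‖ζ‖ = 1`. With `h = q / (1 - q)`,
`Re (-2 S h) = Re S * (1 - p) + 2 Im S * Im h`, `p = (1 - ‖q‖ ^ 2) / ‖1 - q‖ ^ 2 ≥ (1 - ‖q‖) / 2`
(`‖1 - q‖ ≤ 1 + ‖q‖ ≤ 2`). `|Im h| ≤ ‖h‖ ≤ ‖q‖ / (1 - ‖q‖) ≤ s ^ 3` (`norm_one_sub_q`),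
`|Im S| ≤ A (1 - y) ≤ A * 4 log s / n` (`tau_im`, `x_facts`), so the second term is at most
`8 A s ^ 3 log s / n ≤ 1` (`OK.e3`). `Re S (1 - p) ≤ (s + A) - (s / 2) (1 - ‖q‖) / 2`
(`S_bound`), and `‖q‖ ≤ y ^ n`. -/
theorem norm_E_le (h : OK P M A δ η) {z : ℂ} (h1 : P.x ≤ ‖z‖) (h2 : ‖z‖ ≤ 1) :
    ‖P.E z‖ ≤ Real.exp (P.s + A + 1) * P.Phi ‖z‖ := by
  obtain ⟨x1, x2, x3, x4, x5, x6⟩ := x_facts h
  have hs := h.hs
  have hA0 := h.hA0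
  have hy : 1 / 2 ≤ ‖z‖ := x1.trans h1
  have hy0 : 0 < ‖z‖ := by linarith
  have hz0 : z ≠ 0 := norm_pos_iff.1 hy0
  obtain ⟨S1, S2, S3⟩ := S_bound h hy h2
  obtain ⟨q1, q2, q3⟩ := norm_one_sub_q h h2
  have hs3 : 0 < P.s ^ 3 := pow_pos (by linarith) 3
  have hs3i : 0 < (P.s ^ 3)⁻¹ := inv_pos.2 hs3
  have hn : (0 : ℝ) < P.n := by exact_mod_cast h.hn
  have hq0 := norm_nonneg (P.q z)
  have hqn : ‖P.q z‖ ≤ ‖z‖ ^ P.n := by
    rw [Prm.q, norm_mul, norm_pow, Complex.norm_real,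
      Real.norm_of_nonneg (by linarith [(rr_bd h).1])]
    exact mul_le_of_le_one_left (pow_nonneg hy0.le _) (rr_bd h).2.le
  have hw0 : 0 < ‖1 - P.q z‖ := hs3i.trans_le q2
  have hp : (1 - ‖P.q z‖) / 2 ≤ (1 - ‖P.q z‖ ^ 2) / ‖1 - P.q z‖ ^ 2 := by
    have e1 : ‖1 - P.q z‖ ≤ 1 + ‖P.q z‖ := by
      have e2 := norm_sub_le (1 : ℂ) (P.q z)
      rwa [norm_one] at e2
    have e2 : ‖1 - P.q z‖ ^ 2 ≤ 2 * (1 + ‖P.q z‖) := by
      have e3 : ‖1 - P.q z‖ * ‖1 - P.q z‖ ≤ 2 * (1 + ‖P.q z‖) :=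
        mul_le_mul q3 e1 hw0.le (by norm_num)
      rw [sq]
      exact e3
    rw [div_le_div_iff₀ (by norm_num) (pow_pos hw0 2)]
    have e3 := mul_le_mul_of_nonneg_left e2 (by linarith : (0 : ℝ) ≤ 1 - ‖P.q z‖)
    nlinarith
  have hSi : |(P.S z).im| ≤ A * (4 * Real.log P.s / P.n) := by
    have e1 : (P.S z).im = (P.tau z).im := by
      rw [Prm.S, add_im, ofReal_im, zero_add]
    have hζ : ‖z / (‖z‖ : ℂ)‖ = 1 := by
      rw [norm_div, Complex.norm_real, norm_norm, div_self hy0.ne']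
    have e2 := tau_im h hζ hy h2
    have e3 : (‖z‖ : ℂ) * (z / (‖z‖ : ℂ)) = z := by
      rw [mul_div_cancel₀]
      exact_mod_cast hy0.ne'
    rw [e3] at e2
    rw [e1]
    refine e2.trans (mul_le_mul_of_nonneg_left ?_ hA0)
    linarith
  have hh : |(P.q z / (1 - P.q z)).im| ≤ P.s ^ 3 := by
    refine (Complex.abs_im_le_norm _).trans ?_
    rw [norm_div, div_le_iff₀ hw0]
    have e1 : 1 ≤ P.s ^ 3 * ‖1 - P.q z‖ := by
      have e2 := mul_le_mul_of_nonneg_left q2 hs3.le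
      rwa [mul_inv_cancel₀ hs3.ne'] at e2
    linarith
  have hI : 2 * (P.S z).im * (P.q z / (1 - P.q z)).im ≤ 1 := by
    have e1 : 2 * (P.S z).im * (P.q z / (1 - P.q z)).im ≤
        2 * (|(P.S z).im| * |(P.q z / (1 - P.q z)).im|) := by
      rw [← abs_mul, mul_assoc]
      exact mul_le_mul_of_nonneg_left (le_abs_self _) (by norm_num)
    have e2 : |(P.S z).im| * |(P.q z / (1 - P.q z)).im| ≤
        A * (4 * Real.log P.s / P.n) * P.s ^ 3 :=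
      mul_le_mul hSi hh (abs_nonneg _) (by positivity)
    have e3 := h.e3
    have e4 : 8 * A * P.s ^ 3 * Real.log P.s / P.n =
        2 * (A * (4 * Real.log P.s / P.n) * P.s ^ 3) := by ring
    linarith
  have hR : (P.S z).re * (1 - (1 - ‖P.q z‖ ^ 2) / ‖1 - P.q z‖ ^ 2) ≤
      P.s + A - P.s * (1 - ‖z‖ ^ P.n) / 4 := by
    have e1 : 0 ≤ (1 - ‖P.q z‖) / 2 := by linarith
    have e2 : P.s / 2 * ((1 - ‖P.q z‖) / 2) ≤
        (P.S z).re * ((1 - ‖P.q z‖ ^ 2) / ‖1 - P.q z‖ ^ 2) :=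
      mul_le_mul S2 hp e1 (by linarith)
    have e3 : P.s * (1 - ‖z‖ ^ P.n) / 4 ≤ P.s / 2 * ((1 - ‖P.q z‖) / 2) := by nlinarith
    rw [mul_sub, mul_one]
    linarith
  rw [E_eq h hz0, Complex.norm_exp, estE_re _ _ (estE_ne h h2), Prm.Phi, ← Real.exp_add]
  exact Real.exp_le_exp.2 (by linarith)

/-- The derivative of `bt` is not too large.

PROOF. `exp_kap`, `norm_E_le`, `Phi ≤ 1`, `‖1 - q‖ ≥ s⁻³` (`norm_one_sub_q`). -/
theorem norm_der_le (h : Stg b l R P M A δ η bt) {z : ℂ} (h1 : P.x ≤ ‖z‖) (h2 : ‖z‖ ≤ 1) :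
    ‖exp (l z) * exp (P.kap z)‖ ≤ M * (Real.exp (P.s + A + 1) * P.s ^ 6) := by
  have hs := h.ok.hs
  have hM := h.ok.hM
  have e1 := h.bdd.he z h2
  have e2 := norm_E_le h.ok h1 h2
  obtain ⟨q1, q2, q3⟩ := norm_one_sub_q h.ok h2
  have hs3 : 0 < P.s ^ 3 := pow_pos (by linarith) 3
  have hs3i : 0 < (P.s ^ 3)⁻¹ := inv_pos.2 hs3
  have hw0 : 0 < ‖1 - P.q z‖ := hs3i.trans_le q2
  have e3 : P.Phi ‖z‖ ≤ 1 := by
    rw [Prm.Phi]
    refine Real.exp_le_one_iff.2 ?_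
    have e4 : ‖z‖ ^ P.n ≤ 1 := pow_le_one₀ (norm_nonneg _) h2
    have e5 : 0 ≤ P.s * (1 - ‖z‖ ^ P.n) := mul_nonneg (by linarith) (by linarith)
    linarith
  have e4 : ‖P.E z‖ ≤ Real.exp (P.s + A + 1) :=
    e2.trans (mul_le_of_le_one_right (Real.exp_pos _).le e3)
  have e5 : ‖exp (P.kap z)‖ ≤ Real.exp (P.s + A + 1) * P.s ^ 6 := by
    rw [exp_kap h.ok h2, norm_div, norm_pow, div_le_iff₀ (pow_pos hw0 2)]
    refine e4.trans ?_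
    have e6 : 1 ≤ P.s ^ 3 * ‖1 - P.q z‖ := by
      have e7 := mul_le_mul_of_nonneg_left q2 hs3.le
      rwa [mul_inv_cancel₀ hs3.ne'] at e7
    have e7 : 1 ≤ P.s ^ 6 * ‖1 - P.q z‖ ^ 2 := by
      have e8 : P.s ^ 6 * ‖1 - P.q z‖ ^ 2 = (P.s ^ 3 * ‖1 - P.q z‖) ^ 2 := by ring
      rw [e8]
      exact one_le_pow₀ e6
    rw [mul_assoc]
    exact le_mul_of_one_le_right (Real.exp_pos _).le e7
  rw [norm_mul]
  exact mul_le_mul e1 e5 (norm_nonneg _) (by linarith)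

end Pool.Agent.MP4b24a5.LB
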