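import Pool.Agent.Lib.MP_4b24a5_an_LB.Bas

set_option autoImplicit false

/-!
# MP_4b24a5_an, project LB: the bounded function B
-/

noncomputable section

namespace Pool.Agent.MP4b24a5.LB

open Complex Metric Set MeasureTheory Filter Topology

variable {b : ℂ → ℂ} {C t : ℝ}

/-- PROOF. `exists_prim` for `exp (t b)` with value `0` at `0`. For `‖ζ‖ = 1`, `0 ≤ y < 1` the
derivative of `y ↦ B (y ζ)` is at most `exp (t (L y + C)) = exp (t C) (1 - y) ^ (- t)`, the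
derivative of `- exp (t C) (1 - y) ^ (1 - t) / (1 - t)`; so
`‖B (y ζ)‖ ≤ exp (t C) / (1 - t)` (`image_norm_le_of_norm_deriv_right_le_deriv_boundary`). -/
theorem exists_B (hb : DifferentiableOn ℂ b (ball 0 1))
    (hre : ∀ z ∈ ball (0 : ℂ) 1, (b z).re ≤ L ‖z‖ + C) (h0 : 0 < t) (h1 : t < 1) :
    ∃ (B : ℂ → ℂ) (K : ℝ), 0 < K ∧ ∀ z ∈ ball (0 : ℂ) 1, HasDerivAt B (exp (t * b z)) z ∧
      ‖B z‖ ≤ K := by
  have hd : DifferentiableOn ℂ (fun z => exp ((t : ℂ) * b z)) (ball 0 1) :=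
    (hb.const_mul (t : ℂ)).cexp
  obtain ⟨B, hB0, hB⟩ := exists_prim hd 0
  have ht : 0 < 1 - t := by linarith
  refine ⟨B, Real.exp (t * C) / (1 - t), by positivity, fun z hz => ⟨hB z hz, ?_⟩⟩
  have hz1 : ‖z‖ < 1 := by simpa using hz
  have hz0 : 0 ≤ ‖z‖ := norm_nonneg z
  have hmem : ∀ s ∈ Icc (0 : ℝ) 1, (s : ℂ) * z ∈ ball (0 : ℂ) 1 := by
    intro s hs
    rw [mem_ball_zero_iff, norm_mul, Complex.norm_real, Real.norm_of_nonneg hs.1]
    exact lt_of_le_of_lt (mul_le_of_le_one_left hz0 hs.2) hz1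
  have hder : ∀ s ∈ Icc (0 : ℝ) 1, HasDerivAt (fun s : ℝ => B ((s : ℂ) * z))
      (exp ((t : ℂ) * b ((s : ℂ) * z)) * z) s := by
    intro s hs
    have h1 : HasDerivAt (fun s : ℝ => (s : ℂ) * z) z s := by
      simpa using (Complex.ofRealCLM.hasDerivAt (x := s)).mul_const z
    exact (hB _ (hmem s hs)).comp s h1
  have hpos : ∀ s ∈ Icc (0 : ℝ) 1, 0 < 1 - s * ‖z‖ := by
    intro s hs
    have := mul_le_of_le_one_left hz0 hs.2
    linarith
  have hG : ∀ s ∈ Icc (0 : ℝ) 1, HasDerivAt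
      (fun s : ℝ => Real.exp (t * C) / (1 - t) * (1 - (1 - s * ‖z‖) ^ (1 - t)))
      (Real.exp (t * C) * ‖z‖ * (1 - s * ‖z‖) ^ (-t)) s := by
    intro s hs
    have h1 : HasDerivAt (fun s : ℝ => 1 - s * ‖z‖) (-‖z‖) s := by
      simpa using ((hasDerivAt_id s).mul_const ‖z‖).const_sub 1
    have h2 := ((h1.rpow_const (p := 1 - t) (Or.inl (hpos s hs).ne')).const_sub 1).const_mul
      (Real.exp (t * C) / (1 - t))
    refine h2.congr_deriv ?_
    rw [show 1 - t - 1 = -t by ring]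
    field_simp
  have hmain := image_norm_le_of_norm_deriv_right_le_deriv_boundary' (a := (0 : ℝ)) (b := 1)
    (f := fun s : ℝ => B ((s : ℂ) * z)) (f' := fun s => exp ((t : ℂ) * b ((s : ℂ) * z)) * z)
    (B := fun s : ℝ => Real.exp (t * C) / (1 - t) * (1 - (1 - s * ‖z‖) ^ (1 - t)))
    (B' := fun s : ℝ => Real.exp (t * C) * ‖z‖ * (1 - s * ‖z‖) ^ (-t))
    (fun s hs => (hder s hs).continuousAt.continuousWithinAt)
    (fun s hs => (hder s (Ico_subset_Icc_self hs)).hasDerivWithinAt)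
    (by simp [hB0])
    (fun s hs => (hG s hs).continuousAt.continuousWithinAt)
    (fun s hs => (hG s (Ico_subset_Icc_self hs)).hasDerivWithinAt)
    (fun s hs => ?_) (right_mem_Icc.2 zero_le_one)
  · have h1 : ‖B z‖ ≤ Real.exp (t * C) / (1 - t) * (1 - (1 - ‖z‖) ^ (1 - t)) := by
      simpa using hmain
    refine h1.trans (mul_le_of_le_one_right (by positivity) ?_)
    have h2 : 0 ≤ (1 - ‖z‖) ^ (1 - t) := Real.rpow_nonneg (by linarith) _
    linarith
  · have hs' := Ico_subset_Icc_self hs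
    have h1 := hre _ (hmem s hs')
    rw [norm_mul, Complex.norm_exp, Complex.re_ofReal_mul]
    have h2 : ‖(s : ℂ) * z‖ = s * ‖z‖ := by
      rw [norm_mul, Complex.norm_real, Real.norm_of_nonneg hs'.1]
    rw [h2] at h1
    have h3 : t * (b ((s : ℂ) * z)).re ≤ t * C + Real.log (1 - s * ‖z‖) * -t := by
      have h4 := mul_le_mul_of_nonneg_left h1 h0.le
      unfold L at h4
      linarith
    have h5 : Real.exp (t * (b ((s : ℂ) * z)).re) ≤
        Real.exp (t * C) * (1 - s * ‖z‖) ^ (-t) := by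
      rw [Real.rpow_def_of_pos (hpos s hs'), ← Real.exp_add]
      exact Real.exp_le_exp.2 h3
    calc Real.exp (t * (b ((s : ℂ) * z)).re) * ‖z‖
        ≤ Real.exp (t * C) * (1 - s * ‖z‖) ^ (-t) * ‖z‖ := mul_le_mul_of_nonneg_right h5 hz0
      _ = Real.exp (t * C) * ‖z‖ * (1 - s * ‖z‖) ^ (-t) := by ring

end Pool.Agent.MP4b24a5.LB
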