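import Pool.Agent.Lib.MP_4b24a5_an_LB.AlgB

set_option autoImplicit false

/-!
# MP_4b24a5_an, project LB: the estimate in the interior
-/

noncomputable section

namespace Pool.Agent.MP4b24a5.LB

open Complex Metric Set MeasureTheory Filter Topology

variable {b l bt : ℂ → ℂ} {R : ℝ} {P : Prm} {M A δ η : ℝ}

private theorem int_pow (h : OK P M A δ η) {z : ℂ} (hz : ‖z‖ ≤ P.x) {m : ℕ}
    (hm : P.n ≤ 2 * m) : ‖z‖ ^ m ≤ (P.s ^ 2)⁻¹ := by
  obtain ⟨h1, h2, h3, -⟩ := x_facts h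
  have hs := h.hs
  have hx0 : 0 ≤ P.x := by linarith
  have h4 : ‖z‖ ^ m ≤ P.x ^ m := pow_le_pow_left₀ (norm_nonneg z) hz m
  refine h4.trans (le_of_sq_le_sq ?_ (by positivity))
  rw [← pow_mul, mul_comm m 2, inv_pow, ← pow_mul]
  calc P.x ^ (2 * m) ≤ P.x ^ P.n := pow_le_pow_of_le_one hx0 h2.le hm
    _ = _ := h3

private theorem int_sum (h : OK P M A δ η) : ∑ k ∈ Finset.range P.N, ‖P.a k‖ ≤ A := by
  refine (Finset.sum_le_sum fun k _ => ?_).trans h.hA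
  have h1 : (1 : ℝ) ≤ (2 : ℝ) ^ (k + 2) := one_le_pow₀ (by norm_num)
  have h2 : (0 : ℝ) ≤ (k : ℝ) := Nat.cast_nonneg k
  have h3 : (1 : ℝ) ≤ ((k : ℝ) + 1) := by linarith
  calc ‖P.a k‖ = 1 * ‖P.a k‖ * 1 := by ring
    _ ≤ ((k : ℝ) + 1) * ‖P.a k‖ * 2 ^ (k + 2) := by gcongr

private theorem int_Z (h : OK P M A δ η) {z : ℂ} (hz : ‖z‖ ≤ P.x) :
    ‖P.Z z‖ ≤ (P.s + A) * (P.s ^ 2)⁻¹ := by
  have hs := h.hs
  have hN := h.hN
  have hy : 0 ≤ (P.s ^ 2)⁻¹ := by positivity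
  have h1 : ‖(P.s : ℂ) * z ^ P.n‖ ≤ P.s * (P.s ^ 2)⁻¹ := by
    rw [norm_mul, norm_pow, Complex.norm_real, Real.norm_of_nonneg (by linarith)]
    exact mul_le_mul_of_nonneg_left (int_pow h hz (by omega)) (by linarith)
  have h2 : ‖(1 / 2 : ℂ) * ∑ k ∈ Finset.range P.N,
      (P.a k * z ^ (P.n + k) + (starRingEnd ℂ) (P.a k) * z ^ (P.n - k))‖ ≤
      A * (P.s ^ 2)⁻¹ := by
    have h3 : ‖∑ k ∈ Finset.range P.N,
        (P.a k * z ^ (P.n + k) + (starRingEnd ℂ) (P.a k) * z ^ (P.n - k))‖ ≤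
        ∑ k ∈ Finset.range P.N, ‖P.a k‖ * (2 * (P.s ^ 2)⁻¹) := by
      refine (norm_sum_le _ _).trans (Finset.sum_le_sum fun k hk => ?_)
      rw [Finset.mem_range] at hk
      refine (norm_add_le _ _).trans ?_
      rw [norm_mul, norm_mul, norm_pow, norm_pow, RCLike.norm_conj]
      have h4 := mul_le_mul_of_nonneg_left (int_pow h hz (m := P.n + k) (by omega))
        (norm_nonneg (P.a k))
      have h5 := mul_le_mul_of_nonneg_left (int_pow h hz (m := P.n - k) (by omega))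
        (norm_nonneg (P.a k))
      linarith
    rw [← Finset.sum_mul] at h3
    have h6 : ‖(1 / 2 : ℂ)‖ = 1 / 2 := by norm_num
    rw [norm_mul, h6]
    have h7 := mul_le_mul_of_nonneg_right (int_sum h) (mul_nonneg zero_le_two hy)
    linarith
  rw [Prm.Z, add_mul]
  exact (norm_sub_le _ _).trans (add_le_add h1 h2)

/-- PROOF. `‖z‖ ^ (n - N) ≤ x ^ (n - N) ≤ s⁻²`, as `n - N ≥ n / 2` and `x ^ n = s⁻⁴`
(square: `(x ^ (n - N)) ^ 2 ≤ x ^ n`). So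
`‖Z z‖ ≤ s ‖z‖ ^ n + (1/2) ∑ ‖a k‖ (‖z‖ ^ (n + k) + ‖z‖ ^ (n - k)) ≤ (s + A) s⁻²`,
`‖q z‖ ≤ ‖z‖ ^ n ≤ s⁻⁴ ≤ 1 / 2`, the first summand of `kap` is at most `4 (s + A) s⁻²`, the second
at most `4 s⁻⁴` (`‖log (1 - q)‖ ≤ 2 ‖q‖`, for instance `Complex.norm_log_one_add_le`). Sum at most
`(4 s + 4 A + 4) / s ^ 2 ≤ η` (`OK.e1`). -/
theorem kap_small (h : OK P M A δ η) {z : ℂ} (hz : ‖z‖ ≤ P.x) : ‖P.kap z‖ ≤ η := by
  obtain ⟨h1, h2, h3, -⟩ := x_facts h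
  obtain ⟨hr1, hr2⟩ := rr_bd h
  have hs := h.hs
  have hA0 := h.hA0
  have hs2 : (4 : ℝ) ≤ P.s ^ 2 := by nlinarith
  have hs4 : (P.s ^ 4)⁻¹ ≤ (P.s ^ 2)⁻¹ / 4 := by
    rw [le_div_iff₀ (by norm_num), inv_mul_le_iff₀ (by positivity)]
    have h5 : P.s ^ 4 * (P.s ^ 2)⁻¹ = P.s ^ 2 := by
      have h6 : P.s ≠ 0 := by linarith
      field_simp
    rw [h5]
    exact hs2
  have hs2i : (P.s ^ 2)⁻¹ ≤ 1 / 4 := by
    rw [inv_le_comm₀ (by positivity) (by norm_num)]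
    norm_num
    exact hs2
  have hq : ‖P.q z‖ ≤ (P.s ^ 4)⁻¹ := by
    rw [Prm.q, norm_mul, norm_pow, Complex.norm_real, Real.norm_of_nonneg (by linarith), ← h3]
    calc P.rr * ‖z‖ ^ P.n ≤ 1 * P.x ^ P.n :=
          mul_le_mul hr2.le (pow_le_pow_left₀ (norm_nonneg z) hz _) (by positivity) zero_le_one
      _ = _ := one_mul _
  have hq2 : ‖P.q z‖ ≤ 1 / 2 := by linarith
  have h1q : 1 / 2 ≤ ‖1 - P.q z‖ := by
    have h5 := norm_sub_norm_le (1 : ℂ) (P.q z)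
    rw [norm_one] at h5
    linarith
  have hlog : ‖2 * log (1 - P.q z)‖ ≤ 4 * (P.s ^ 2)⁻¹ := by
    have h5 := Complex.norm_log_one_add_half_le_self (z := -P.q z) (by rw [norm_neg]; exact hq2)
    rw [norm_neg, ← sub_eq_add_neg] at h5
    rw [norm_mul, Complex.norm_ofNat]
    have h6 : 0 ≤ (P.s ^ 2)⁻¹ := by positivity
    linarith
  have hfst : ‖-2 * (P.rr : ℂ) * P.Z z / (1 - P.q z)‖ ≤ 4 * ((P.s + A) * (P.s ^ 2)⁻¹) := by
    rw [norm_div, norm_mul, norm_mul, norm_neg, Complex.norm_ofNat, Complex.norm_real,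
      Real.norm_of_nonneg (by linarith : (0 : ℝ) ≤ P.rr), div_le_iff₀ (by linarith)]
    have h5 := int_Z h hz
    have h6 : 0 ≤ (P.s + A) * (P.s ^ 2)⁻¹ := by positivity
    have h7 : 2 * P.rr * ‖P.Z z‖ ≤ 2 * 1 * ((P.s + A) * (P.s ^ 2)⁻¹) := by
      gcongr
    have h8 : 4 * ((P.s + A) * (P.s ^ 2)⁻¹) * (1 / 2) ≤
        4 * ((P.s + A) * (P.s ^ 2)⁻¹) * ‖1 - P.q z‖ := by
      gcongr
    linarith
  have he := h.e1
  rw [div_eq_mul_inv] at he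
  rw [Prm.kap]
  refine (norm_sub_le _ _).trans ((add_le_add hfst hlog).trans (le_trans (le_of_eq ?_) he))
  ring

/-- PROOF. `bt - b` has derivative `exp l * (exp kap - 1)` in the convex set
`closedBall 0 x`, of norm at most `M * 2 η` (`kap_small`, `Complex.norm_exp_sub_one_le`: for
`‖k‖ ≤ 1`, `‖exp k - 1‖ ≤ 2 ‖k‖`), and it is `0` at `0`;
`Convex.norm_image_sub_le_of_norm_hasDerivWithin_le`
or similar. -/
theorem bt_sub_b (h : Stg b l R P M A δ η bt) {z : ℂ} (hz : ‖z‖ ≤ P.x) :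
    ‖bt z - b z‖ ≤ 2 * M * η := by
  obtain ⟨hx1, hx2, -⟩ := x_facts h.ok
  have hR := h.st.hR
  have hM := h.ok.hM
  have hη := h.ok.hη
  have hcb : ∀ w ∈ closedBall (0 : ℂ) P.x, ‖w‖ ≤ P.x := fun w hw => mem_closedBall_zero_iff.1 hw
  have hder : ∀ w ∈ closedBall (0 : ℂ) P.x, HasDerivWithinAt (fun v => bt v - b v)
      (exp (l w) * exp (P.kap w) - exp (l w)) (closedBall (0 : ℂ) P.x) w := fun w hw => by
    have hw1 := hcb w hw
    exact ((h.der w (by linarith)).sub (h.st.der w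
      (mem_ball_zero_iff.2 (by linarith)))).hasDerivWithinAt
  have hbd : ∀ w ∈ closedBall (0 : ℂ) P.x,
      ‖exp (l w) * exp (P.kap w) - exp (l w)‖ ≤ 2 * M * η := fun w hw => by
    have hw1 := hcb w hw
    have h1 : exp (l w) * exp (P.kap w) - exp (l w) = exp (l w) * (exp (P.kap w) - 1) := by ring
    have h2 := kap_small h.ok hw1
    have h3 := Complex.norm_exp_sub_one_le (h2.trans h.ok.hη1)
    have h4 := h.bdd.he w (by linarith)
    rw [h1, norm_mul]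
    calc ‖exp (l w)‖ * ‖exp (P.kap w) - 1‖ ≤ M * (2 * η) :=
          mul_le_mul h4 (h3.trans (by linarith)) (norm_nonneg _) (by linarith)
      _ = _ := by ring
  have hfin := (convex_closedBall (0 : ℂ) P.x).norm_image_sub_le_of_norm_hasDerivWithin_le
    hder hbd (mem_closedBall_self (by linarith)) (mem_closedBall_zero_iff.2 hz)
  simp only [h.bt0, sub_self, sub_zero] at hfin
  refine hfin.trans ?_
  calc 2 * M * η * ‖z‖ ≤ 2 * M * η * 1 :=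
        mul_le_mul_of_nonneg_left (by linarith) (by positivity)
    _ = _ := mul_one _

theorem bt_x (h : Stg b l R P M A δ η bt) {z : ℂ} (hz : ‖z‖ ≤ P.x) : ‖bt z‖ ≤ 3 * M := by
  obtain ⟨hx1, hx2, -⟩ := x_facts h.ok
  have h1 := bt_sub_b h hz
  have h2 := h.bdd.hb z (by linarith)
  have h3 := norm_add_le (bt z - b z) (b z)
  rw [sub_add_cancel] at h3
  have h4 : 2 * M * η ≤ 2 * M * 1 :=
    mul_le_mul_of_nonneg_left h.ok.hη1 (by linarith [h.ok.hM])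
  linarith

end Pool.Agent.MP4b24a5.LB
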