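import Pool.Agent.Lib.MP_4b24a5_an_LB.Stage

set_option autoImplicit false

/-!
# MP_4b24a5_an, project LB: the sequence of the stages
-/

noncomputable section

namespace Pool.Agent.MP4b24a5.LB

open Complex Metric Set MeasureTheory Filter Topology

/-- the invariant of the recursion -/
private def LimAInv (j : ℕ) (p : (ℂ → ℂ) × (ℂ → ℂ) × ℝ × ℝ) : Prop :=
  St p.1 p.2.1 p.2.2.1 ∧ (1 - (1 / 2 : ℝ) ^ j ≤ p.2.2.2 ∧ p.2.2.2 < 1 ∧ 0 ≤ p.2.2.2) ∧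
    ∀ z : ℂ, ‖z‖ < 1 → (p.1 z).re ≤ L ‖z‖ + (3 - 2 * (1 / 2 : ℝ) ^ j)

private theorem limA_step {lam0 : ℝ} (h0 : 0 < lam0) (h1 : lam0 < 1) (j : ℕ)
    (p : (ℂ → ℂ) × (ℂ → ℂ) × ℝ × ℝ) (hp : LimAInv j p) :
    ∃ p' : (ℂ → ℂ) × (ℂ → ℂ) × ℝ × ℝ, LimAInv (j + 1) p' ∧ p.2.2.2 ≤ p'.2.2.2 ∧
      (∀ z : ℂ, ‖z‖ ≤ p.2.2.2 → ‖p'.1 z - p.1 z‖ ≤ (1 / 2) ^ j ∧
        ‖p'.2.1 z - p.2.1 z‖ ≤ (1 / 2) ^ j) ∧
      lam0 * L p'.2.2.2 ≤ mp p'.1 p'.2.2.2 := by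
  obtain ⟨b, l, R, r⟩ := p
  obtain ⟨hst, ⟨hr1, hr2, hr3⟩, hb⟩ := hp
  simp only at hst hr1 hr2 hr3 hb
  have hpow : (0 : ℝ) < (1 / 2) ^ j := by positivity
  have hpow1 : ((1 : ℝ) / 2) ^ j ≤ 1 := pow_le_one₀ (by norm_num) (by norm_num)
  have hpows : ((1 : ℝ) / 2) ^ (j + 1) = (1 / 2) ^ j / 2 := by rw [pow_succ]; ring
  have hρ : max r (1 - (1 / 2 : ℝ) ^ (j + 1)) < 1 := by
    rw [hpows]
    exact max_lt hr2 (by linarith)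
  obtain ⟨b', l', R', r', hst', hr', hr'1, hcl, hre, hmp⟩ :=
    stage h0 h1 hst (C := 3 - 2 * (1 / 2 : ℝ) ^ j) (by linarith) hb hpow hρ
  refine ⟨(b', l', R', r'), ⟨hst', ⟨(le_max_right _ _).trans hr', hr'1,
    hr3.trans ((le_max_left _ _).trans hr')⟩, ?_⟩, (le_max_left _ _).trans hr', ?_, hmp⟩
  · intro z hz
    have h := hre z hz
    have e : 3 - 2 * (1 / 2 : ℝ) ^ (j + 1) = 3 - 2 * (1 / 2 : ℝ) ^ j + (1 / 2) ^ j := by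
      rw [hpows]; ring
    show (b' z).re ≤ L ‖z‖ + (3 - 2 * (1 / 2 : ℝ) ^ (j + 1))
    rw [e]
    exact h
  · intro z hz
    exact hcl z (hz.trans (le_max_left _ _))

/-- The sequence of the stages.

PROOF. Start with `b = id`, `l = 0`, `R = 2`, `r = 0` and iterate `stage` with `ε = (1/2) ^ j`,
`ρ = max (r j) (1 - (1/2) ^ (j + 1))`, `C = 3 - 2 (1/2) ^ j` (so `C + ε = 3 - 2 (1/2) ^ (j + 1)`).
-/
theorem exists_seq {lam0 : ℝ} (h0 : 0 < lam0) (h1 : lam0 < 1) :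
    ∃ (b l : ℕ → ℂ → ℂ) (R r : ℕ → ℝ), (∀ j, St (b j) (l j) (R j)) ∧
      (∀ j, 1 - (1 / 2 : ℝ) ^ j ≤ r j ∧ r j < 1 ∧ 0 ≤ r j ∧ r j ≤ r (j + 1)) ∧
      (∀ j, ∀ z : ℂ, ‖z‖ ≤ r j → ‖b (j + 1) z - b j z‖ ≤ (1 / 2) ^ j ∧
        ‖l (j + 1) z - l j z‖ ≤ (1 / 2) ^ j) ∧
      (∀ j, ∀ z : ℂ, ‖z‖ < 1 → (b j z).re ≤ L ‖z‖ + 3) ∧
      ∀ j, lam0 * L (r (j + 1)) ≤ mp (b (j + 1)) (r (j + 1)) := by
  have hbase : LimAInv 0 ((fun z : ℂ => z), (fun _ : ℂ => (0 : ℂ)), (2 : ℝ), (0 : ℝ)) := by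
    refine ⟨⟨by norm_num, differentiableOn_const _, ?_⟩, ⟨by norm_num, by norm_num, le_rfl⟩, ?_⟩
    · intro z _
      simp only [Complex.exp_zero]
      exact hasDerivAt_id' z
    · intro z hz
      have hL : 0 ≤ L ‖z‖ := by
        unfold L
        have : Real.log (1 - ‖z‖) ≤ 0 :=
          Real.log_nonpos (by linarith) (by linarith [norm_nonneg z])
        linarith
      have := Complex.re_le_norm z
      show z.re ≤ L ‖z‖ + (3 - 2 * (1 / 2 : ℝ) ^ 0)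
      rw [pow_zero]
      linarith
  choose! nx hnx using fun (j : ℕ) (p : (ℂ → ℂ) × (ℂ → ℂ) × ℝ × ℝ) (hp : LimAInv j p) =>
    limA_step h0 h1 j p hp
  let s : ℕ → (ℂ → ℂ) × (ℂ → ℂ) × ℝ × ℝ := fun j =>
    Nat.rec ((fun z : ℂ => z), (fun _ : ℂ => (0 : ℂ)), (2 : ℝ), (0 : ℝ)) (fun j p => nx j p) j
  have hs : ∀ j, s (j + 1) = nx j (s j) := fun j => rfl
  have hI : ∀ j, LimAInv j (s j) := by
    intro j
    induction j with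
    | zero => exact hbase
    | succ j ih =>
      rw [hs]
      exact (hnx j _ ih).1
  refine ⟨fun j => (s j).1, fun j => (s j).2.1, fun j => (s j).2.2.1, fun j => (s j).2.2.2,
    fun j => (hI j).1, ?_, ?_, ?_, ?_⟩
  · intro j
    refine ⟨(hI j).2.1.1, (hI j).2.1.2.1, (hI j).2.1.2.2, ?_⟩
    show (s j).2.2.2 ≤ (s (j + 1)).2.2.2
    rw [hs]
    exact (hnx j _ (hI j)).2.1
  · intro j z hz
    show ‖(s (j + 1)).1 z - (s j).1 z‖ ≤ (1 / 2) ^ j ∧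
      ‖(s (j + 1)).2.1 z - (s j).2.1 z‖ ≤ (1 / 2) ^ j
    rw [hs]
    exact (hnx j _ (hI j)).2.2.1 z hz
  · intro j z hz
    have h := (hI j).2.2 z hz
    have hpow : (0 : ℝ) < (1 / 2) ^ j := by positivity
    show ((s j).1 z).re ≤ L ‖z‖ + 3
    linarith
  · intro j
    show lam0 * L (s (j + 1)).2.2.2 ≤ mp (s (j + 1)).1 (s (j + 1)).2.2.2
    rw [hs]
    exact (hnx j _ (hI j)).2.2.2

end Pool.Agent.MP4b24a5.LB
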