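import Pool.Agent.Lib.MP_4b24a5_an_LB.Defs

set_option autoImplicit false

/-!
# MP_4b24a5_an, project LB: a lower bound for a mean value
-/

noncomputable section

namespace Pool.Agent.MP4b24a5.LB

open Complex Metric Set MeasureTheory Filter Topology

private theorem one_add_ne {u : ℂ} (hu : ‖u‖ < 1) : 0 < ‖1 + u‖ := by
  have h1 : (1 : ℝ) ≤ ‖1 + u‖ + ‖u‖ := by
    have h := norm_sub_le (1 + u) u
    rw [add_sub_cancel_right, norm_one] at h
    exact h
  linarith

/-- PROOF. `v = u / (1 + u)`, `Re v = 1 / 2 - (1 - ‖u‖ ^ 2) / (2 ‖1 + u‖ ^ 2)`. -/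
theorem re_div {u : ℂ} (hu : ‖u‖ < 1) :
    (u / (1 + u)).re = 1 / 2 - (1 - ‖u‖ ^ 2) / (2 * ‖1 + u‖ ^ 2) := by
  have h0 := one_add_ne hu
  have h1 : ‖1 + u‖ ^ 2 = (1 + u.re) ^ 2 + u.im ^ 2 := by
    rw [← Complex.normSq_eq_norm_sq, Complex.normSq_apply]
    simp only [add_re, one_re, add_im, one_im, zero_add]
    ring
  have h2 : ‖u‖ ^ 2 = u.re ^ 2 + u.im ^ 2 := by
    rw [← Complex.normSq_eq_norm_sq, Complex.normSq_apply]
    ring
  have h3 : (0 : ℝ) < (1 + u.re) ^ 2 + u.im ^ 2 := by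
    rw [← h1]
    positivity
  rw [h1, h2, Complex.div_re, Complex.normSq_apply]
  simp only [add_re, one_re, add_im, one_im, zero_add]
  have h4 : (1 + u.re) * (1 + u.re) + u.im * u.im = (1 + u.re) ^ 2 + u.im ^ 2 := by ring
  rw [h4]
  field_simp
  ring

/-- PROOF. If `‖1 + u‖ ≥ θ` and `‖v‖ ≥ e` then `1 - ‖u‖ ^ 2 ≤ 14 θ ^ 4` and `re_div` gives
`Re (u / (1 + u)) ≥ 1 / 2 - 7 θ ^ 2`; the two terms with logarithms are nonnegative
(`‖1 + u‖ ≤ 2`, `‖v‖ ≤ 2`). If `‖1 + u‖ < θ` then `log 2 - log ‖1 + u‖ ≥ log (2 / θ)` and the left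
side is at most `0`. The same if `‖v‖ < e`. -/
theorem pointwise {u v : ℂ} {θ e : ℝ} (hu : ‖u‖ < 1) (hv : v ≠ 0) (hv2 : ‖v‖ ≤ 2) (hθ : 0 < θ)
    (hθ1 : θ ≤ 1 / 2) (he : 0 < e) (he1 : e ≤ 1) (hlow : e ≤ ‖v‖ → 1 - 7 * θ ^ 4 ≤ ‖u‖) :
    1 / 2 - 7 * θ ^ 2 - (Real.log 2 - Real.log ‖1 + u‖) / (2 * Real.log (2 / θ)) -
      (Real.log 2 - Real.log ‖v‖) / (2 * Real.log (2 / e)) ≤ max (u / (1 + u)).re 0 := by
  have h0 := one_add_ne hu
  have hv0 : 0 < ‖v‖ := norm_pos_iff.2 hv
  have h2 : ‖1 + u‖ ≤ 2 := by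
    have h := norm_add_le (1 : ℂ) u
    rw [norm_one] at h
    linarith
  have hlt : 0 < Real.log (2 / θ) := Real.log_pos (by rw [lt_div_iff₀ hθ]; linarith)
  have hle : 0 < Real.log (2 / e) := Real.log_pos (by rw [lt_div_iff₀ he]; linarith)
  have hA : 0 ≤ (Real.log 2 - Real.log ‖1 + u‖) / (2 * Real.log (2 / θ)) :=
    div_nonneg (sub_nonneg.2 (Real.log_le_log h0 h2)) (by linarith)
  have hB : 0 ≤ (Real.log 2 - Real.log ‖v‖) / (2 * Real.log (2 / e)) :=
    div_nonneg (sub_nonneg.2 (Real.log_le_log hv0 hv2)) (by linarith)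
  have hq : 0 ≤ 7 * θ ^ 2 := by positivity
  rcases lt_or_ge ‖1 + u‖ θ with hcase | hcase
  · have h3 : 1 / 2 ≤ (Real.log 2 - Real.log ‖1 + u‖) / (2 * Real.log (2 / θ)) := by
      rw [le_div_iff₀ (by linarith)]
      rw [Real.log_div (by norm_num) hθ.ne']
      have := Real.log_le_log h0 hcase.le
      linarith
    exact le_max_of_le_right (by linarith)
  · rcases lt_or_ge ‖v‖ e with hcase2 | hcase2
    · have h3 : 1 / 2 ≤ (Real.log 2 - Real.log ‖v‖) / (2 * Real.log (2 / e)) := by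
        rw [le_div_iff₀ (by linarith)]
        rw [Real.log_div (by norm_num) he.ne']
        have := Real.log_le_log hv0 hcase2.le
        linarith
      exact le_max_of_le_right (by linarith)
    · apply le_max_of_le_left
      rw [re_div hu]
      have h4 := hlow hcase2
      have h5 : 1 - ‖u‖ ^ 2 ≤ 14 * θ ^ 4 := by
        have h6 : 1 - ‖u‖ ≤ 7 * θ ^ 4 := by linarith
        have h7 : 0 ≤ ‖u‖ := norm_nonneg u
        have h8 : (0 : ℝ) ≤ θ ^ 4 := by positivity
        nlinarith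
      have h6 : (1 - ‖u‖ ^ 2) / (2 * ‖1 + u‖ ^ 2) ≤ 7 * θ ^ 2 := by
        rw [div_le_iff₀ (by positivity)]
        have h7 : θ ^ 2 ≤ ‖1 + u‖ ^ 2 := pow_le_pow_left₀ hθ.le hcase 2
        have h8 : 7 * θ ^ 2 * (2 * θ ^ 2) ≤ 7 * θ ^ 2 * (2 * ‖1 + u‖ ^ 2) :=
          mul_le_mul_of_nonneg_left (by linarith) hq
        have h9 : 7 * θ ^ 2 * (2 * θ ^ 2) = 14 * θ ^ 4 := by ring
        linarith
      linarith

private theorem sphere_le {z : ℂ} (hz : z ∈ sphere (0 : ℂ) 1) : ‖z‖ = 1 := by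
  simpa using hz

private theorem contOn {F : ℂ → ℂ} (hF : DiffContOnCl ℂ F (ball 0 1)) :
    ContinuousOn F (sphere (0 : ℂ) 1) := by
  have h := hF.continuousOn
  rw [closure_ball (0 : ℂ) one_ne_zero] at h
  exact h.mono sphere_subset_closedBall

private theorem mean_log {F : ℂ → ℂ} (hF : DiffContOnCl ℂ F (ball 0 1))
    (hp : ∀ z : ℂ, ‖z‖ ≤ 1 → 0 < (F z).re) :
    CircleIntegrable (fun z => Real.log ‖F z‖) 0 1 ∧
      Real.circleAverage (fun z => Real.log ‖F z‖) 0 1 = Real.log ‖F 0‖ := by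
  have hL : DiffContOnCl ℂ (fun z => Complex.log (F z)) (ball 0 1) := by
    refine ⟨?_, ?_⟩
    · refine hF.differentiableOn.clog (fun z hz => ?_)
      exact Or.inl (hp z (by simpa using (mem_ball_zero_iff.1 hz).le))
    · refine hF.continuousOn.clog (fun z hz => ?_)
      rw [closure_ball (0 : ℂ) one_ne_zero] at hz
      exact Or.inl (hp z (by simpa using hz))
  have hc := contOn hL
  have hi : CircleIntegrable (fun z => Complex.log (F z)) 0 1 := hc.circleIntegrable zero_le_one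
  have he : (fun z => Real.log ‖F z‖) = Complex.reCLM ∘ (fun z => Complex.log (F z)) := by
    funext z
    simp [Complex.log_re]
  have hi2 : CircleIntegrable (fun z => Real.log ‖F z‖) 0 1 := by
    rw [he]
    exact (Complex.reCLM.continuous.comp_continuousOn hc).circleIntegrable zero_le_one
  refine ⟨hi2, ?_⟩
  rw [he, Complex.reCLM.circleAverage_comp_comm hi]
  rw [DiffContOnCl.circleAverage (by simpa using hL)]
  simp [Complex.log_re]

/-- PROOF. `1 + w` and `g` have positive real part, so `log ‖1 + w‖ = Re (log (1 + w))` and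
`log ‖g‖ = Re (log g)` are real parts of functions holomorphic in the disc and continuous on the
closed disc; their means are `log ‖1 + w 0‖ ≥ - log 2` and `log ‖g 0‖ = 0`
(`DiffContOnCl.circleAverage`, `ContinuousLinearMap.circleAverage_comp_comm` with `reCLM`). Take the
mean of `pointwise` (`Real.circleAverage_mono`). -/
theorem mean_lower {w g : ℂ → ℂ} {θ e : ℝ} (hw : DiffContOnCl ℂ w (ball 0 1))
    (hg : DiffContOnCl ℂ g (ball 0 1)) (hw1 : ∀ z : ℂ, ‖z‖ ≤ 1 → ‖w z‖ < 1)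
    (hw0 : ‖w 0‖ ≤ 1 / 2) (hg1 : ∀ z : ℂ, ‖z‖ ≤ 1 → 0 < (g z).re ∧ ‖g z‖ ≤ 2) (hg0 : g 0 = 1)
    (hθ : 0 < θ) (hθ1 : θ ≤ 1 / 2) (he : 0 < e) (he1 : e ≤ 1)
    (hlow : ∀ z : ℂ, ‖z‖ = 1 → e ≤ ‖g z‖ → 1 - 7 * θ ^ 4 ≤ ‖w z‖) :
    1 / 2 - 7 * θ ^ 2 - Real.log 2 / Real.log (2 / θ) - Real.log 2 / (2 * Real.log (2 / e)) ≤
      Real.circleAverage (fun z => max (w z / (1 + w z)).re 0) 0 1 := by
  have hw' : DiffContOnCl ℂ (fun z => 1 + w z) (ball 0 1) := hw.const_add 1
  have hwp : ∀ z : ℂ, ‖z‖ ≤ 1 → 0 < (1 + w z).re := by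
    intro z hz
    have h1 := hw1 z hz
    have h2 := Complex.abs_re_le_norm (w z)
    have h3 := (abs_le.1 h2).1
    simp only [add_re, one_re]
    linarith
  obtain ⟨hi1, hm1⟩ := mean_log hw' hwp
  obtain ⟨hi2, hm2⟩ := mean_log hg (fun z hz => (hg1 z hz).1)
  have hlt : 0 < Real.log (2 / θ) := Real.log_pos (by rw [lt_div_iff₀ hθ]; linarith)
  have hle : 0 < Real.log (2 / e) := Real.log_pos (by rw [lt_div_iff₀ he]; linarith)
  -- integrability of the right side
  have hcw := contOn hw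
  have hiR : CircleIntegrable (fun z => max (w z / (1 + w z)).re 0) 0 1 := by
    refine ContinuousOn.circleIntegrable zero_le_one ?_
    refine (continuous_id.max continuous_const).comp_continuousOn
      (f := fun z => (w z / (1 + w z)).re) ?_
    refine Complex.continuous_re.comp_continuousOn ?_
    refine hcw.div (continuousOn_const.add hcw) (fun z hz => ?_)
    exact norm_pos_iff.1 (one_add_ne (hw1 z (sphere_le hz).le))
  set a : ℝ := (2 * Real.log (2 / θ))⁻¹ with ha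
  set b : ℝ := (2 * Real.log (2 / e))⁻¹ with hb
  have ha0 : 0 < a := by rw [ha]; positivity
  have hb0 : 0 < b := by rw [hb]; positivity
  have hiL : CircleIntegrable (fun z => a * Real.log ‖1 + w z‖) 0 1 := by
    simpa only [smul_eq_mul] using (hi1.const_fun_smul (a := a))
  have hiM : CircleIntegrable (fun z => b * Real.log ‖g z‖) 0 1 := by
    simpa only [smul_eq_mul] using (hi2.const_fun_smul (a := b))
  set c0 : ℝ := 1 / 2 - 7 * θ ^ 2 - Real.log 2 * a - Real.log 2 * b with hc0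
  have hiC : CircleIntegrable (fun _ : ℂ => c0) 0 1 := continuousOn_const.circleIntegrable
    zero_le_one
  have hmono := Real.circleAverage_mono (c := (0 : ℂ)) (R := 1)
    (f₁ := fun z => (c0 + a * Real.log ‖1 + w z‖) + b * Real.log ‖g z‖)
    (f₂ := fun z => max (w z / (1 + w z)).re 0) ((hiC.add hiL).add hiM) hiR (by
      intro z hz
      have hz1 : ‖z‖ = 1 := by simpa using hz
      have hgz := hg1 z hz1.le
      have hgne : g z ≠ 0 := by
        intro h
        rw [h] at hgz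
        simp at hgz
      have h := pointwise (hw1 z hz1.le) hgne hgz.2 hθ hθ1 he he1 (hlow z hz1)
      refine le_trans (le_of_eq ?_) h
      rw [hc0, div_eq_mul_inv (Real.log 2 - Real.log ‖1 + w z‖),
        div_eq_mul_inv (Real.log 2 - Real.log ‖g z‖), ← ha, ← hb]
      ring)
  refine le_trans ?_ hmono
  rw [Real.circleAverage_fun_add (f₁ := fun z => c0 + a * Real.log ‖1 + w z‖)
    (f₂ := fun z => b * Real.log ‖g z‖) (hiC.add hiL) hiM,
    Real.circleAverage_fun_add (f₁ := fun _ => c0) (f₂ := fun z => a * Real.log ‖1 + w z‖)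
      hiC hiL, Real.circleAverage_const]
  have e1 : Real.circleAverage (fun z => a * Real.log ‖1 + w z‖) 0 1 =
      a * Real.log ‖1 + w 0‖ := by
    have := Real.circleAverage_fun_smul (a := a) (f := fun z => Real.log ‖1 + w z‖)
      (c := (0 : ℂ)) (R := 1)
    simp only [smul_eq_mul] at this
    rw [this, hm1]
  have e2 : Real.circleAverage (fun z => b * Real.log ‖g z‖) 0 1 = b * Real.log ‖g 0‖ := by
    have := Real.circleAverage_fun_smul (a := b) (f := fun z => Real.log ‖g z‖)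
      (c := (0 : ℂ)) (R := 1)
    simp only [smul_eq_mul] at this
    rw [this, hm2]
  rw [e1, e2, hg0, norm_one, Real.log_one, mul_zero, add_zero]
  have h5 : -Real.log 2 ≤ Real.log ‖1 + w 0‖ := by
    rw [← Real.log_inv]
    apply Real.log_le_log (by norm_num)
    have h6 := norm_sub_le (1 + w 0) (w 0)
    rw [add_sub_cancel_right, norm_one] at h6
    linarith
  have h6 : -(a * Real.log 2) ≤ a * Real.log ‖1 + w 0‖ := by
    have := mul_le_mul_of_nonneg_left h5 ha0.le
    linarith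
  have h7 : Real.log 2 / Real.log (2 / θ) = 2 * (a * Real.log 2) := by
    rw [ha]
    field_simp
  have h8 : Real.log 2 / (2 * Real.log (2 / e)) = Real.log 2 * b := by
    rw [hb, div_eq_mul_inv]
  rw [h7, h8, hc0]
  linarith

end Pool.Agent.MP4b24a5.LB
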