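import Mathlib
import Pool.Agent.Lib.MP_4b24a5_an.Defs
import Pool.Agent.Lib.MP_4b24a5_an.Fin

/-!
# MP_4b24a5_an: a lower threshold for differential monomials of meromorphic functions
-/

set_option autoImplicit false

noncomputable section

namespace Pool.Agent.Results.MP_4b24a5_an.MeroThreshold

open Complex Metric Pool.Agent.MP4b24a5

/-- Let `f` be meromorphic and non-constant in the unit disc, `α(f) < ∞`, and let
`Ψ = f ^ m₀ * f' ^ m₁ * ... * (f⁽ᵏ⁾) ^ mₖ` with `m₀ ≥ 3`, of degree `n` and weight `Γ`. If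
`α(f) > (1 + (m₀ - 1) * Γ / n) / (m₀ - 2)`, then `Ψ` takes every value `w ≠ 0` at infinitely many
points of the unit disc (at which `f` is analytic). -/
theorem result (k : ℕ) (m : Fin (k + 1) → ℕ) (hm : 3 ≤ m 0) (f : ℂ → ℂ)
    (hf : MeromorphicNFOn f (ball 0 1)) (hc : ¬ ∃ c, ∀ z ∈ ball (0 : ℂ) 1, f z = c)
    (ha : alph f < ⊤)
    (h : (((1 + ((m 0 : ℝ) - 1) * ((wgt m : ℝ) / deg m)) / ((m 0 : ℝ) - 2) : ℝ) : EReal) < alph f)
    (w : ℂ) (hw : w ≠ 0) :
    {z | z ∈ ball (0 : ℂ) 1 ∧ AnalyticAt ℂ f z ∧ Psi m f z = w}.Infinite :=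
  main_mero m f hf hc ha hm h w hw

end Pool.Agent.Results.MP_4b24a5_an.MeroThreshold
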