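import Pool.Agent.Lib.MP_4b24a5_an_LB.NewD

set_option autoImplicit false

/-!
# MP_4b24a5_an, project LB: the new function is close to the old one in the interior
-/

noncomputable section

namespace Pool.Agent.MP4b24a5.LB

open Complex Metric Set MeasureTheory Filter Topology

variable {b l bt : ℂ → ℂ} {R : ℝ} {P : Prm} {M A δ η : ℝ}

/-- The size of `w = bt / R1`. -/
private theorem newc_w (h : Stg b l R P M A δ η bt) (hR : 6 * M ≤ R1 P δ) {z : ℂ}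
    (hz : ‖z‖ ≤ P.x) : ‖bt z / (R1 P δ : ℂ)‖ ≤ 3 * M / R1 P δ ∧
      ‖bt z / (R1 P δ : ℂ)‖ ≤ 1 / 2 := by
  have hp := R1_pos h.ok
  have h1 : ‖bt z / (R1 P δ : ℂ)‖ ≤ 3 * M / R1 P δ := by
    rw [norm_div, Complex.norm_real, Real.norm_of_nonneg hp.le]
    exact div_le_div_of_nonneg_right (bt_x h hz) hp.le
  refine ⟨h1, h1.trans ?_⟩
  rw [div_le_div_iff₀ hp (by norm_num)]
  linarith

/-- PROOF. With `w = bt / R1`, `‖w‖ ≤ 3 M / R1 ≤ 1 / 2` (`bt_x`), `bs - bt = - bt w / (1 + w)`, and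
`bt_sub_b`. -/
theorem new_close (h : Stg b l R P M A δ η bt) (hR : 6 * M ≤ R1 P δ) {z : ℂ}
    (hz : ‖z‖ ≤ P.x) : ‖bs P δ bt z - b z‖ ≤ 2 * M * η + 18 * M ^ 2 / R1 P δ := by
  have hp := R1_pos h.ok
  obtain ⟨h1, h2⟩ := newc_w h hR hz
  have h3 := bt_sub_b h hz
  have h4 := bt_x h hz
  have hM := h.ok.hM
  set w : ℂ := bt z / (R1 P δ : ℂ) with hw
  have h5 : 1 / 2 ≤ ‖1 + w‖ := by
    have h6 : ‖(1 : ℂ)‖ ≤ ‖1 + w‖ + ‖w‖ := by
      have h7 : (1 : ℂ) = (1 + w) - w := by ring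
      calc ‖(1 : ℂ)‖ = ‖(1 + w) - w‖ := by rw [← h7]
        _ ≤ ‖1 + w‖ + ‖w‖ := norm_sub_le _ _
    rw [norm_one] at h6
    linarith
  have h6 : 1 + w ≠ 0 := by
    intro h7
    rw [h7, norm_zero] at h5
    norm_num at h5
  have h7 : bs P δ bt z - bt z = -(bt z * w / (1 + w)) := by
    unfold bs
    rw [← hw]
    field_simp
    ring
  have h8 : ‖bs P δ bt z - bt z‖ ≤ 18 * M ^ 2 / R1 P δ := by
    rw [h7, norm_neg, norm_div, norm_mul]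
    have h9 : ‖bt z‖ * ‖w‖ ≤ 3 * M * (3 * M / R1 P δ) :=
      mul_le_mul h4 h1 (norm_nonneg _) (by linarith)
    rw [div_le_iff₀ (by linarith)]
    refine h9.trans ?_
    have h10 : 0 ≤ 18 * M ^ 2 / R1 P δ := by positivity
    have h11 : 18 * M ^ 2 / R1 P δ * (1 / 2) ≤ 18 * M ^ 2 / R1 P δ * ‖1 + w‖ :=
      mul_le_mul_of_nonneg_left h5 h10
    refine le_trans (le_of_eq ?_) h11
    ring
  have h9 : bs P δ bt z - b z = (bt z - b z) + (bs P δ bt z - bt z) := by ring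
  rw [h9]
  exact (norm_add_le _ _).trans (add_le_add h3 h8)

/-- PROOF. `‖log (1 + w)‖ ≤ 2 ‖w‖` for `‖w‖ ≤ 1 / 2`, and `kap_small`. -/
theorem new_close_l (h : Stg b l R P M A δ η bt) (hR : 6 * M ≤ R1 P δ) {z : ℂ}
    (hz : ‖z‖ ≤ P.x) : ‖ls P δ l bt z - l z‖ ≤ η + 12 * M / R1 P δ := by
  have hp := R1_pos h.ok
  obtain ⟨h1, h2⟩ := newc_w h hR hz
  have h3 := kap_small h.ok hz
  have h4 := norm_log_one_add_half_le_self h2
  have hM := h.ok.hM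
  have h5 : ls P δ l bt z - l z = P.kap z - 2 * log (1 + bt z / (R1 P δ : ℂ)) := by
    unfold ls
    ring
  rw [h5]
  refine (norm_sub_le _ _).trans (add_le_add h3 ?_)
  rw [norm_mul, Complex.norm_ofNat]
  have h6 : 12 * M / R1 P δ = 4 * (3 * M / R1 P δ) := by ring
  rw [h6]
  have h7 : 0 ≤ 3 * M / R1 P δ := by positivity
  linarith

/-- PROOF. `bs = R1 w / (1 + w)`, `re_div`, `‖w‖ < 1`. -/
theorem new_re (h : Stg b l R P M A δ η bt) {z : ℂ} (hz : ‖z‖ ≤ 1) :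
    (bs P δ bt z).re ≤ R1 P δ / 2 := by
  have hp := R1_pos h.ok
  have h1 := w_le h hz
  have hδ := h.ok.hδ
  set w : ℂ := bt z / (R1 P δ : ℂ) with hw
  have h2 : ‖w‖ < 1 := by linarith
  have h3 := re_div h2
  have hR0 : (R1 P δ : ℂ) ≠ 0 := by exact_mod_cast hp.ne'
  have h4 : bs P δ bt z = (R1 P δ : ℂ) * (w / (1 + w)) := by
    unfold bs
    rw [← hw, hw, ← mul_div_assoc, mul_div_cancel₀ _ hR0]
  rw [h4, Complex.re_ofReal_mul, h3]
  have h5 : 0 ≤ (1 - ‖w‖ ^ 2) / (2 * ‖1 + w‖ ^ 2) := by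
    refine div_nonneg ?_ (by positivity)
    have h6 : ‖w‖ ^ 2 ≤ 1 := pow_le_one₀ (norm_nonneg _) h2.le
    linarith
  have h6 : R1 P δ * (1 / 2 - (1 - ‖w‖ ^ 2) / (2 * ‖1 + w‖ ^ 2)) ≤ R1 P δ * (1 / 2) :=
    mul_le_mul_of_nonneg_left (by linarith) hp.le
  linarith

end Pool.Agent.MP4b24a5.LB
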