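import Pool.Agent.Lib.MP_4b24a5_an_LB.BdB
import Pool.Agent.Lib.MP_4b24a5_an_LB.MeanA
import Pool.Agent.Lib.MP_4b24a5_an_LB.Bas

set_option autoImplicit false

/-!
# MP_4b24a5_an, project LB: the new function of a stage
-/

noncomputable section

namespace Pool.Agent.MP4b24a5.LB

open Complex Metric Set MeasureTheory Filter Topology

variable {b l bt : ℂ → ℂ} {R : ℝ} {P : Prm} {M A δ η : ℝ}

/-- the radius of the final disc of a stage -/
def R1 (P : Prm) (δ : ℝ) : ℝ := P.R * (1 + 4 * δ)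

/-- the new function of a stage -/
def bs (P : Prm) (δ : ℝ) (bt : ℂ → ℂ) (z : ℂ) : ℂ := bt z / (1 + bt z / (R1 P δ : ℂ))

/-- the logarithm of its derivative -/
def ls (P : Prm) (δ : ℝ) (l bt : ℂ → ℂ) (z : ℂ) : ℂ :=
  l z + P.kap z - 2 * log (1 + bt z / (R1 P δ : ℂ))

private theorem newD_R_pos (h : OK P M A δ η) : 0 < P.R := by
  have hs : 0 < P.s := by have := h.hs; linarith
  have hn : (0 : ℝ) < P.n := by
    have := h.hn
    exact_mod_cast Nat.lt_of_lt_of_le Nat.zero_lt_one this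
  unfold Prm.R
  positivity

theorem R1_pos (h : OK P M A δ η) : 0 < R1 P δ := by
  have h1 := newD_R_pos h
  have h2 := h.hδ
  unfold R1
  positivity

/-- PROOF. `exists_diff_kap`, `exists_prim` for `exp l * exp kap` in the smaller of the two discs.
-/
theorem exists_bt (hst : St b l R) (hbd : Bdd b l M) (hok : OK P M A δ η)
    (happ : ∀ z : ℂ, ‖z‖ ≤ 1 → ‖l z - P.T z‖ ≤ δ / 2) :
    ∃ (bt : ℂ → ℂ) (R2 : ℝ), Stg b l R P M A δ η bt ∧ 1 < R2 ∧ R2 ≤ R ∧
      DifferentiableOn ℂ P.kap (ball 0 R2) ∧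
      ∀ z ∈ ball (0 : ℂ) R2, HasDerivAt bt (exp (l z) * exp (P.kap z)) z := by
  obtain ⟨R', hR', hk⟩ := exists_diff_kap hok
  have hR := hst.hR
  have hm1 : 1 < min R R' := lt_min hR hR'
  have hkap : DifferentiableOn ℂ P.kap (ball 0 (min R R')) :=
    hk.mono (ball_subset_ball (min_le_right _ _))
  have hl : DifferentiableOn ℂ l (ball 0 (min R R')) :=
    hst.an.mono (ball_subset_ball (min_le_left _ _))
  have hf : DifferentiableOn ℂ (fun z => exp (l z) * exp (P.kap z)) (ball 0 (min R R')) :=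
    hl.cexp.mul hkap.cexp
  obtain ⟨bt, hbt0, hbt⟩ := exists_prim hf (b 0)
  refine ⟨bt, min R R', ⟨hst, hbd, hok, happ, hbt0, ?_⟩, hm1, min_le_left _ _, hkap, hbt⟩
  intro z hz
  apply hbt
  rw [mem_ball_zero_iff]
  linarith

/-- `w = bt / R1`: `‖w‖ ≤ (1 + 3 δ) / (1 + 4 δ) ≤ 1 - δ / 2`. PROOF. `bt_le`. -/
theorem w_le (h : Stg b l R P M A δ η bt) {z : ℂ} (hz : ‖z‖ ≤ 1) :
    ‖bt z / (R1 P δ : ℂ)‖ ≤ 1 - δ / 2 := by
  have hR := newD_R_pos h.ok
  have hR1 := R1_pos h.ok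
  have hδ := h.ok.hδ
  have hδ1 := h.ok.hδ1
  have hb := bt_le h hz
  rw [norm_div, Complex.norm_real, Real.norm_of_nonneg hR1.le, div_le_iff₀ hR1]
  have h1 : P.R * (1 + 3 * δ) ≤ (1 - δ / 2) * R1 P δ := by
    unfold R1
    have h2 : 1 + 3 * δ ≤ (1 - δ / 2) * (1 + 4 * δ) := by nlinarith
    calc P.R * (1 + 3 * δ) ≤ P.R * ((1 - δ / 2) * (1 + 4 * δ)) :=
          mul_le_mul_of_nonneg_left h2 hR.le
      _ = (1 - δ / 2) * (P.R * (1 + 4 * δ)) := by ring
  linarith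

/-- PROOF. The set where `‖bt z‖ < R1` in the ball of radius `R2` is open and contains the closed
disc (`w_le`), so it contains a ball of radius `R3 > 1` (`exists_ball`). There `1 + w` is in the
slit
plane, and `(bt / (1 + bt / R1))' = bt' / (1 + w) ^ 2`. -/
theorem new_st (h : Stg b l R P M A δ η bt) {R2 : ℝ} (h1 : 1 < R2) (h2 : R2 ≤ R)
    (hk : DifferentiableOn ℂ P.kap (ball 0 R2))
    (hd : ∀ z ∈ ball (0 : ℂ) R2, HasDerivAt bt (exp (l z) * exp (P.kap z)) z) :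
    ∃ R3 : ℝ, St (bs P δ bt) (ls P δ l bt) R3 := by
  have hR1 := R1_pos h.ok
  have hδ := h.ok.hδ
  have hbtd : DifferentiableOn ℂ bt (ball 0 R2) := fun z hz =>
    (hd z hz).differentiableAt.differentiableWithinAt
  have hcont : ContinuousOn (fun z => ‖bt z / (R1 P δ : ℂ)‖) (ball 0 R2) :=
    (hbtd.continuousOn.div_const _).norm
  have hopen : IsOpen (ball (0 : ℂ) R2 ∩ (fun z => ‖bt z / (R1 P δ : ℂ)‖) ⁻¹' Iio 1) :=
    hcont.isOpen_inter_preimage isOpen_ball isOpen_Iio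
  have hsub : closedBall (0 : ℂ) 1 ⊆
      ball (0 : ℂ) R2 ∩ (fun z => ‖bt z / (R1 P δ : ℂ)‖) ⁻¹' Iio 1 := by
    intro z hz
    rw [mem_closedBall_zero_iff] at hz
    refine ⟨by rw [mem_ball_zero_iff]; linarith, ?_⟩
    have := w_le h hz
    simp only [mem_preimage, mem_Iio]
    linarith
  obtain ⟨R3, hR3, hsub3⟩ := exists_ball hopen hsub
  have hmem : ∀ z ∈ ball (0 : ℂ) R3, z ∈ ball (0 : ℂ) R2 := fun z hz => (hsub3 hz).1
  have hlt : ∀ z ∈ ball (0 : ℂ) R3, ‖bt z / (R1 P δ : ℂ)‖ < 1 := fun z hz => (hsub3 hz).2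
  have hslit : ∀ z ∈ ball (0 : ℂ) R3, 1 + bt z / (R1 P δ : ℂ) ∈ slitPlane := fun z hz =>
    Complex.mem_slitPlane_of_norm_lt_one (hlt z hz)
  refine ⟨R3, hR3, ?_, ?_⟩
  · have hl3 : DifferentiableOn ℂ l (ball 0 R3) :=
      h.st.an.mono (fun z hz => by
        have := hmem z hz
        rw [mem_ball_zero_iff] at this ⊢
        linarith)
    have hk3 : DifferentiableOn ℂ P.kap (ball 0 R3) := hk.mono hmem
    have hb3 : DifferentiableOn ℂ bt (ball 0 R3) := hbtd.mono hmem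
    have h1b : DifferentiableOn ℂ (fun z => 1 + bt z / (R1 P δ : ℂ)) (ball 0 R3) :=
      (hb3.div_const _).const_add 1
    exact (hl3.add hk3).sub ((h1b.clog hslit).const_mul 2)
  · intro z hz
    have hw := hslit z hz
    have hne : 1 + bt z / (R1 P δ : ℂ) ≠ 0 := slitPlane_ne_zero hw
    have hb := hd z (hmem z hz)
    have h1 : HasDerivAt (fun z => 1 + bt z / (R1 P δ : ℂ))
        (exp (l z) * exp (P.kap z) / (R1 P δ : ℂ)) z := (hb.div_const _).const_add 1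
    have h2 := hb.div h1 hne
    have he : exp (ls P δ l bt z) =
        (exp (l z) * exp (P.kap z) * (1 + bt z / (R1 P δ : ℂ)) -
          bt z * (exp (l z) * exp (P.kap z) / (R1 P δ : ℂ))) /
          (1 + bt z / (R1 P δ : ℂ)) ^ 2 := by
      unfold ls
      rw [Complex.exp_sub, Complex.exp_add, two_mul, Complex.exp_add, Complex.exp_log hne]
      have hR1c : (R1 P δ : ℂ) ≠ 0 := by exact_mod_cast hR1.ne'
      field_simp
      ring
    rw [he]
    exact h2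

end Pool.Agent.MP4b24a5.LB
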