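import Pool.Agent.Lib.MP_4b24a5_an_LB.NewD
import Pool.Agent.Lib.MP_4b24a5_an_LB.EstE

set_option autoImplicit false

/-!
# MP_4b24a5_an, project LB: the mean of the new function on a smaller circle
-/

noncomputable section

namespace Pool.Agent.MP4b24a5.LB

open Complex Metric Set MeasureTheory Filter Topology

variable {b l bt : ℂ → ℂ} {R : ℝ} {P : Prm} {M A δ η : ℝ}

private theorem one_add_w (h : Stg b l R P M A δ η bt) {z : ℂ} (hz : ‖z‖ ≤ 1) :
    δ / 2 ≤ ‖1 + bt z / (R1 P δ : ℂ)‖ := by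
  have h1 := w_le h hz
  have h2 : ‖(1 : ℂ)‖ ≤ ‖1 + bt z / (R1 P δ : ℂ)‖ + ‖bt z / (R1 P δ : ℂ)‖ := by
    have h3 : (1 : ℂ) = (1 + bt z / (R1 P δ : ℂ)) - bt z / (R1 P δ : ℂ) := by ring
    calc ‖(1 : ℂ)‖ = ‖(1 + bt z / (R1 P δ : ℂ)) - bt z / (R1 P δ : ℂ)‖ := by rw [← h3]
      _ ≤ _ := norm_sub_le _ _
  rw [norm_one] at h2
  linarith

private theorem bs_der (h : Stg b l R P M A δ η bt) {z : ℂ} (hz : ‖z‖ ≤ 1) :
    HasDerivAt (bs P δ bt)
      (exp (l z) * exp (P.kap z) / (1 + bt z / (R1 P δ : ℂ)) ^ 2) z := by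
  have h1 := h.der z hz
  have hδ := h.ok.hδ
  have hne : 1 + bt z / (R1 P δ : ℂ) ≠ 0 := by
    intro h0
    have h2 := one_add_w h hz
    rw [h0, norm_zero] at h2
    linarith
  have h3 : HasDerivAt (fun y => 1 + bt y / (R1 P δ : ℂ))
      (exp (l z) * exp (P.kap z) / (R1 P δ : ℂ)) z := (h1.div_const _).const_add 1
  have h4 := h1.div h3 hne
  have h5 : (exp (l z) * exp (P.kap z) * (1 + bt z / (R1 P δ : ℂ)) -
      bt z * (exp (l z) * exp (P.kap z) / (R1 P δ : ℂ))) / (1 + bt z / (R1 P δ : ℂ)) ^ 2 =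
      exp (l z) * exp (P.kap z) / (1 + bt z / (R1 P δ : ℂ)) ^ 2 := by
    congr 1
    ring
  rw [h5] at h4
  exact h4

private theorem bs_lip (h : Stg b l R P M A δ η bt) {r : ℝ} (h1 : P.x ≤ r) (h2 : r ≤ 1) {ζ : ℂ}
    (hζ : ‖ζ‖ = 1) : ‖bs P δ bt ζ - bs P δ bt ((r : ℂ) * ζ)‖ ≤
      (4 * M * Real.exp (P.s + A + 1) * P.s ^ 6 / δ ^ 2) * (1 - r) := by
  have hx : 0 < P.x := Real.exp_pos _
  have hr : 0 < r := hx.trans_le h1
  have hδ := h.ok.hδ
  have hseg : ∀ z ∈ segment ℝ ((r : ℂ) * ζ) ζ, P.x ≤ ‖z‖ ∧ ‖z‖ ≤ 1 := by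
    rintro z ⟨a, c, ha, hc, hac, rfl⟩
    have e1 : a • ((r : ℂ) * ζ) + c • ζ = ((a * r + c : ℝ) : ℂ) * ζ := by
      rw [Complex.real_smul, Complex.real_smul]
      push_cast
      ring
    have hpos : 0 ≤ a * r + c := by positivity
    rw [e1, norm_mul, hζ, mul_one, Complex.norm_real, Real.norm_of_nonneg hpos]
    constructor
    · nlinarith
    · nlinarith
  have hb := Convex.norm_image_sub_le_of_norm_hasDerivWithin_le
    (f := bs P δ bt) (f' := fun z => exp (l z) * exp (P.kap z) / (1 + bt z / (R1 P δ : ℂ)) ^ 2)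
    (C := 4 * M * Real.exp (P.s + A + 1) * P.s ^ 6 / δ ^ 2)
    (s := segment ℝ ((r : ℂ) * ζ) ζ)
    (fun z hz => (bs_der h (hseg z hz).2).hasDerivWithinAt)
    (fun z hz => by
      have h3 := norm_der_le h (hseg z hz).1 (hseg z hz).2
      have h4 := one_add_w h (hseg z hz).2
      rw [norm_div, norm_pow]
      have h5 : 0 < (δ / 2) ^ 2 := by positivity
      have h6 : (δ / 2) ^ 2 ≤ ‖1 + bt z / (R1 P δ : ℂ)‖ ^ 2 :=
        pow_le_pow_left₀ (by positivity) h4 2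
      calc ‖exp (l z) * exp (P.kap z)‖ / ‖1 + bt z / (R1 P δ : ℂ)‖ ^ 2
          ≤ (M * (Real.exp (P.s + A + 1) * P.s ^ 6)) / (δ / 2) ^ 2 :=
            div_le_div₀ ((norm_nonneg _).trans h3) h3 h5 h6
        _ = 4 * M * Real.exp (P.s + A + 1) * P.s ^ 6 / δ ^ 2 := by
            field_simp
            norm_num)
    (convex_segment _ _) (left_mem_segment ℝ _ _) (right_mem_segment ℝ _ _)
  refine hb.trans (le_of_eq ?_)
  congr 1
  have e2 : ζ - (r : ℂ) * ζ = ((1 - r : ℝ) : ℂ) * ζ := by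
    push_cast
    ring
  rw [e2, norm_mul, hζ, mul_one, Complex.norm_real, Real.norm_of_nonneg (by linarith)]

/-- PROOF. For `‖ζ‖ = 1` the derivative of `y ↦ bs (y ζ)` on `[r, 1]` is
`ζ bt' / (1 + w) ^ 2`, of norm at most `M exp (s + A + 1) s ^ 6 * 4 / δ ^ 2` (`norm_der_le`,
`‖1 + w‖ ≥ δ / 2`), so `‖bs (r ζ) - bs ζ‖ ≤ K (1 - r)`; `max x 0` is Lipschitz; take the mean over
the circle (`circleAverage f 0 r = circleAverage (fun ζ => f (r ζ)) 0 1`). -/
theorem new_lip (h : Stg b l R P M A δ η bt) {r : ℝ} (h1 : P.x ≤ r) (h2 : r ≤ 1) :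
    mp (bs P δ bt) 1 - (1 - r) * (4 * M * Real.exp (P.s + A + 1) * P.s ^ 6 / δ ^ 2) ≤
      mp (bs P δ bt) r := by
  have hx : 0 < P.x := Real.exp_pos _
  have hr : 0 < r := hx.trans_le h1
  have hc : ContinuousOn (bs P δ bt) (closedBall 0 1) := fun z hz =>
    (bs_der h (by simpa using hz)).continuousAt.continuousWithinAt
  have c1 : ContinuousOn (fun z => max (bs P δ bt z).re 0) (sphere (0 : ℂ) 1) :=
    ((Complex.continuous_re.comp_continuousOn hc).sup continuousOn_const).mono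
      sphere_subset_closedBall
  have c2 : ContinuousOn (fun z => max (bs P δ bt ((r : ℂ) * z + 0)).re 0)
      (sphere (0 : ℂ) 1) := by
    have c3 : ContinuousOn (fun z : ℂ => bs P δ bt ((r : ℂ) * z + 0)) (sphere (0 : ℂ) 1) := by
      refine hc.comp (by fun_prop) ?_
      intro z hz
      have hz1 : ‖z‖ = 1 := by simpa using hz
      rw [mem_closedBall_zero_iff]
      show ‖(r : ℂ) * z + 0‖ ≤ 1
      rw [add_zero, norm_mul, hz1, mul_one, Complex.norm_real, Real.norm_of_nonneg hr.le]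
      exact h2
    exact (Complex.continuous_re.comp_continuousOn c3).sup continuousOn_const
  have i1 : CircleIntegrable (fun z => max (bs P δ bt z).re 0) 0 1 :=
    c1.circleIntegrable zero_le_one
  have i2 : CircleIntegrable (fun z => max (bs P δ bt ((r : ℂ) * z + 0)).re 0) 0 1 :=
    c2.circleIntegrable zero_le_one
  obtain ⟨K, hK⟩ : ∃ K, K = 4 * M * Real.exp (P.s + A + 1) * P.s ^ 6 / δ ^ 2 := ⟨_, rfl⟩
  have i3 : CircleIntegrable (fun _ : ℂ => (1 - r) * K) 0 1 := circleIntegrable_const _ _ _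
  have e1 : mp (bs P δ bt) r =
      Real.circleAverage (fun z => max (bs P δ bt ((r : ℂ) * z + 0)).re 0) 0 1 := by
    unfold mp
    rw [Real.circleAverage_eq_circleAverage_zero_one]
  have e2 : mp (bs P δ bt) 1 - (1 - r) * K =
      Real.circleAverage (fun z => max (bs P δ bt z).re 0 - (1 - r) * K) 0 1 := by
    rw [Real.circleAverage_fun_sub i1 i3, Real.circleAverage_const]
    rfl
  rw [← hK, e1, e2]
  refine Real.circleAverage_mono (i1.sub i3) i2 ?_
  intro ζ hζ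
  have hζ1 : ‖ζ‖ = 1 := by simpa using hζ
  have h3 := bs_lip h h1 h2 hζ1
  rw [← hK] at h3
  have h4 : (bs P δ bt ζ).re - (bs P δ bt ((r : ℂ) * ζ)).re ≤ K * (1 - r) := by
    rw [← Complex.sub_re]
    exact (Complex.re_le_norm _).trans h3
  have h5 : 0 ≤ K * (1 - r) := (norm_nonneg _).trans h3
  show max (bs P δ bt ζ).re 0 - (1 - r) * K ≤ max (bs P δ bt ((r : ℂ) * ζ + 0)).re 0
  rw [add_zero, sub_le_iff_le_add]
  refine max_le ?_ ?_
  · have h6 := le_max_left (bs P δ bt ((r : ℂ) * ζ)).re 0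
    linarith
  · have h6 := le_max_right (bs P δ bt ((r : ℂ) * ζ)).re 0
    linarith

end Pool.Agent.MP4b24a5.LB
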