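import Pool.Agent.Lib.MP_4b24a5_an_LB.NewD

set_option autoImplicit false

/-!
# MP_4b24a5_an, project LB: the mean of the new function on the unit circle
-/

noncomputable section

namespace Pool.Agent.MP4b24a5.LB

open Complex Metric Set MeasureTheory Filter Topology

variable {b l bt : ℂ → ℂ} {R : ℝ} {P : Prm} {M A δ η : ℝ}

/-- PROOF. `mean_lower` for `w = bt / R1`, `g = 1 - q`, `δ = θ ^ 4`, `e = (√s)⁻¹`: for
`e ≤ ‖1 - q‖` we have `s⁻¹ ≤ ‖1 - q‖ ^ 2`, so `‖bt‖ ≥ R (1 - 3 δ)` (`bt_ge`) and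
`‖w‖ ≥ (1 - 3 δ) / (1 + 4 δ) ≥ 1 - 7 δ`. `‖w 0‖ = ‖b 0‖ / R1 ≤ M / R1 ≤ 1 / 2`. Multiply by `R1`
(`max (R1 x) 0 = R1 max x 0`). -/
theorem new_mean {θ : ℝ} (hθ : 0 < θ) (hθ1 : θ ≤ 1 / 2) (h : Stg b l R P M A (θ ^ 4) η bt)
    (hR : 6 * M ≤ R1 P (θ ^ 4)) :
    R1 P (θ ^ 4) * (1 / 2 - 7 * θ ^ 2 - Real.log 2 / Real.log (2 / θ) -
      Real.log 2 / (2 * Real.log (2 * √P.s))) ≤ mp (bs P (θ ^ 4) bt) 1 := by
  have hp := R1_pos h.ok
  have hδ := h.ok.hδ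
  have hM := h.ok.hM
  have hs := h.ok.hs
  obtain ⟨R', hR'⟩ : ∃ R' : ℝ, R' = R1 P (θ ^ 4) := ⟨_, rfl⟩
  rw [← hR'] at hp hR
  have hR0 : (R' : ℂ) ≠ 0 := by exact_mod_cast hp.ne'
  have hsq : 1 ≤ √P.s := by
    rw [Real.one_le_sqrt]
    linarith
  have hsq0 : 0 < √P.s := by linarith
  obtain ⟨hrr0, hrr1⟩ := rr_bd h.ok
  have hw : DiffContOnCl ℂ (fun z => bt z / (R' : ℂ)) (ball 0 1) := by
    refine DifferentiableOn.diffContOnCl fun w hw => ?_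
    rw [closure_ball (0 : ℂ) one_ne_zero, mem_closedBall_zero_iff] at hw
    exact ((h.der w hw).differentiableAt.div_const _).differentiableWithinAt
  have hg : DiffContOnCl ℂ (fun z => 1 - P.q z) (ball 0 1) := by
    refine Differentiable.diffContOnCl ?_
    unfold Prm.q
    exact (differentiable_const _).sub ((differentiable_id.pow _).const_mul _)
  have hw1 : ∀ z : ℂ, ‖z‖ ≤ 1 → ‖bt z / (R' : ℂ)‖ < 1 := by
    intro z hz
    have h1 := w_le h hz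
    rw [← hR'] at h1
    linarith
  have hw0 : ‖bt 0 / (R' : ℂ)‖ ≤ 1 / 2 := by
    have h1 := h.bdd.hb 0 (by rw [norm_zero]; norm_num)
    rw [norm_div, Complex.norm_real, Real.norm_of_nonneg hp.le, h.bt0, div_le_iff₀ hp]
    linarith
  have hg1 : ∀ z : ℂ, ‖z‖ ≤ 1 → 0 < (1 - P.q z).re ∧ ‖1 - P.q z‖ ≤ 2 := by
    intro z hz
    have h1 := norm_q_le h.ok hz
    have h2 := (abs_le.1 (Complex.abs_re_le_norm (P.q z))).2
    refine ⟨?_, ?_⟩
    · rw [Complex.sub_re, Complex.one_re]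
      linarith
    · refine (norm_sub_le _ _).trans ?_
      rw [norm_one]
      linarith
  have hg0 : 1 - P.q 0 = 1 := by
    have hn : P.n ≠ 0 := by
      have := h.ok.hn
      omega
    unfold Prm.q
    rw [zero_pow hn, mul_zero, sub_zero]
  have he : 0 < (√P.s)⁻¹ := inv_pos.2 hsq0
  have he1 : (√P.s)⁻¹ ≤ 1 := inv_le_one_of_one_le₀ hsq
  have hlow : ∀ z : ℂ, ‖z‖ = 1 → (√P.s)⁻¹ ≤ ‖1 - P.q z‖ →
      1 - 7 * θ ^ 4 ≤ ‖bt z / (R' : ℂ)‖ := by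
    intro z hz hze
    have h1 : P.s⁻¹ ≤ ‖1 - P.q z‖ ^ 2 := by
      have h2 : ((√P.s)⁻¹) ^ 2 ≤ ‖1 - P.q z‖ ^ 2 := pow_le_pow_left₀ he.le hze 2
      rw [inv_pow, Real.sq_sqrt (by linarith)] at h2
      exact h2
    have h3 := bt_ge h hz h1
    rw [norm_div, Complex.norm_real, Real.norm_of_nonneg hp.le, le_div_iff₀ hp]
    refine le_trans ?_ h3
    have hRR : 0 < P.R := by
      have h4 : R' = P.R * (1 + 4 * θ ^ 4) := hR'
      have h5 : 0 < 1 + 4 * θ ^ 4 := by linarith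
      by_contra hc
      have h6 : P.R * (1 + 4 * θ ^ 4) ≤ 0 := mul_nonpos_of_nonpos_of_nonneg (not_lt.1 hc) h5.le
      linarith
    have h7 : (1 - 7 * θ ^ 4) * R' = P.R * ((1 - 7 * θ ^ 4) * (1 + 4 * θ ^ 4)) := by
      rw [hR', R1]
      ring
    rw [h7]
    refine mul_le_mul_of_nonneg_left ?_ hRR.le
    nlinarith [sq_nonneg (θ ^ 4)]
  have hmain := mean_lower hw hg hw1 hw0 hg1 hg0 hθ hθ1 he he1 hlow
  rw [div_inv_eq_mul] at hmain
  have hmp : mp (bs P (θ ^ 4) bt) 1 = R' * Real.circleAverage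
      (fun z => max (bt z / (R' : ℂ) / (1 + bt z / (R' : ℂ))).re 0) 0 1 := by
    have h1 := Real.circleAverage_fun_smul (a := R')
      (f := fun z => max (bt z / (R' : ℂ) / (1 + bt z / (R' : ℂ))).re 0) (c := (0 : ℂ)) (R := 1)
    simp only [smul_eq_mul] at h1
    rw [← h1]
    unfold mp
    congr 1
    funext z
    have h2 : bs P (θ ^ 4) bt z = (R' : ℂ) * (bt z / (R' : ℂ) / (1 + bt z / (R' : ℂ))) := by
      unfold bs
      rw [← hR', ← mul_div_assoc, mul_div_cancel₀ _ hR0]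
    rw [h2, Complex.re_ofReal_mul, mul_max_of_nonneg _ _ hp.le, mul_zero]
  rw [hmp, ← hR']
  exact mul_le_mul_of_nonneg_left hmain hp.le

end Pool.Agent.MP4b24a5.LB
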