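import Pool.Agent.Lib.MP_4b24a5_an_LB.Defs

set_option autoImplicit false

/-!
# MP_4b24a5_an, project LB: the choice of the constants
-/

noncomputable section

namespace Pool.Agent.MP4b24a5.LB

open Complex Metric Set MeasureTheory Filter Topology

/-- PROOF. As `θ → 0`, `lam1 → 1`, `e → 0` the left side of the inequality tends to `1` and the
right
side to `lam0`. For instance: the function `θ ↦ 7 θ ^ 2 + log 2 / log (2 / θ)` tends to `0` for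
`θ → 0+`; choose first `θ`, then `lam1`, then `e` (continuity at `e = 0`). -/
theorem choice {lam0 : ℝ} (h0 : 0 < lam0) (h1 : lam0 < 1) : ∃ θ lam1 e : ℝ, 0 < θ ∧ θ ≤ 1 / 2 ∧
    0 < lam1 ∧ lam1 < 1 ∧ 0 < e ∧ 0 ≤ 2 * lam1 - e ∧
    0 ≤ 1 / 2 - 7 * θ ^ 2 - Real.log 2 / Real.log (2 / θ) - e ∧
    lam0 * (1 + θ ^ 4) ≤ (2 * lam1 - e) *
      (1 / 2 - 7 * θ ^ 2 - Real.log 2 / Real.log (2 / θ) - e) - e := by
  have hid : Tendsto (fun θ : ℝ => θ) (𝓝[>] 0) (𝓝 0) :=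
    tendsto_nhdsWithin_of_tendsto_nhds tendsto_id
  have hlog : Tendsto (fun θ : ℝ => Real.log 2 / Real.log (2 / θ)) (𝓝[>] 0) (𝓝 0) := by
    have h2 : Tendsto (fun θ : ℝ => 2 / θ) (𝓝[>] 0) atTop := by
      have h3 : Tendsto (fun θ : ℝ => 2 * θ⁻¹) (𝓝[>] 0) atTop :=
        tendsto_inv_nhdsGT_zero.const_mul_atTop (by norm_num)
      exact h3.congr fun θ => by rw [div_eq_mul_inv]
    exact (Real.tendsto_log_atTop.comp h2).const_div_atTop _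
  have hg : Tendsto (fun θ : ℝ => 1 / 2 - 7 * θ ^ 2 - Real.log 2 / Real.log (2 / θ) - θ)
      (𝓝[>] 0) (𝓝 (1 / 2 - 7 * 0 ^ 2 - 0 - 0)) :=
    ((tendsto_const_nhds.sub ((hid.pow 2).const_mul 7)).sub hlog).sub hid
  have hF : Tendsto (fun θ : ℝ => (2 * (1 - θ) - θ) *
      (1 / 2 - 7 * θ ^ 2 - Real.log 2 / Real.log (2 / θ) - θ) - θ - lam0 * (1 + θ ^ 4))
      (𝓝[>] 0) (𝓝 ((2 * (1 - 0) - 0) * (1 / 2 - 7 * 0 ^ 2 - 0 - 0) - 0 - lam0 * (1 + 0 ^ 4))) :=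
    (((((tendsto_const_nhds.sub hid).const_mul 2).sub hid).mul hg).sub hid).sub
      ((tendsto_const_nhds.add (hid.pow 4)).const_mul lam0)
  have e1 : ∀ᶠ θ : ℝ in 𝓝[>] 0, 0 < θ := self_mem_nhdsWithin
  have e2 : ∀ᶠ θ : ℝ in 𝓝[>] 0, θ < 1 / 2 := hid.eventually (gt_mem_nhds (by norm_num))
  have e3 := hg.eventually (lt_mem_nhds (show (0 : ℝ) < 1 / 2 - 7 * 0 ^ 2 - 0 - 0 by norm_num))
  have e4 := hF.eventually (lt_mem_nhds (show (0 : ℝ) <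
    (2 * (1 - 0) - 0) * (1 / 2 - 7 * 0 ^ 2 - 0 - 0) - 0 - lam0 * (1 + 0 ^ 4) by
      norm_num
      exact h1))
  obtain ⟨θ, h2, h3, h4, h5⟩ := (e1.and (e2.and (e3.and e4))).exists
  exact ⟨θ, 1 - θ, θ, h2, h3.le, by linarith, by linarith, h2, by linarith, h4.le, by linarith⟩

end Pool.Agent.MP4b24a5.LB
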