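import Pool.Agent.Lib.MP_4b24a5_an_LB.Defs

set_option autoImplicit false

/-!
# MP_4b24a5_an, project LB: the choice of the parameters of a stage
-/

noncomputable section

namespace Pool.Agent.MP4b24a5.LB

open Complex Metric Set MeasureTheory Filter Topology

private theorem numB_mono (C : ℝ) (k : ℕ) {b : ℝ} (hb : 0 < b) :
    Tendsto (fun s : ℝ => C * (s ^ k * Real.exp (-(s * b)))) atTop (𝓝 0) := by
  have h := (Real.tendsto_pow_mul_exp_neg_atTop_nhds_zero k).comp
    (tendsto_id.atTop_mul_const hb)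
  have h2 := h.const_mul (C * (b ^ k)⁻¹)
  rw [mul_zero] at h2
  refine h2.congr fun s => ?_
  show C * (b ^ k)⁻¹ * ((s * b) ^ k * Real.exp (-(s * b))) = _
  rw [mul_pow]
  have hb' : b ^ k ≠ 0 := (pow_pos hb k).ne'
  field_simp

private theorem numB_inv (C : ℝ) : Tendsto (fun s : ℝ => C / s) atTop (𝓝 0) :=
  tendsto_const_nhds.div_atTop tendsto_id

/-- the conditions which depend only on `s` -/
private theorem numB_s {M A δ η lam1 e ρ : ℝ} (hδ : 0 < δ) (hδ1 : δ ≤ 1 / 4) (hη : 0 < η)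
    (hl1 : lam1 < 1) (he : 0 < e) (hρ : ρ < 1) :
    ∀ᶠ s : ℝ in atTop, (2 ≤ s ∧ 2 * A + 2 ≤ s) ∧ (4 * s + 4 * A + 4) / s ^ 2 ≤ η ∧
      4 * (s ^ 1 * Real.exp (-(s * (1 / 2)))) ≤ Real.log 2 ∧
      8 * A * (s ^ 4 * Real.exp (-(s * (1 / 2)))) ≤ 1 ∧
      (2 + M + 2 * A) * (s ^ 0 * Real.exp (-(s * (1 / 2)))) +
        2 * A * (s ^ 3 * Real.exp (-(s * (1 / 2)))) ≤ 1 ∧
      M * Real.exp (A + 1) * (52 * s ^ 5 * Real.exp (-(s / 8)) + 192 / s) ≤ δ / 2 ∧
      Real.exp (δ / 2) * (s / ((s - A) * (1 - (s ^ 3)⁻¹))) ≤ 1 + 2 * δ ∧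
      1 - 2 * δ ≤ Real.exp (-(δ / 2)) * (s / (s + A)) *
        Real.exp (-((s + A) * (2 / s ^ 2))) ∧
      ρ ≤ Real.exp (-(4 * (s ^ 1 * Real.exp (-(s * (1 / 2)))))) ∧
      Real.log 2 / (2 * Real.log (2 * √s)) ≤ e ∧
      4 * Real.log s ≤ (1 - lam1) / 2 * s := by
  have hh : (0 : ℝ) < 1 / 2 := by norm_num
  have hs1 : Tendsto (fun s : ℝ => s⁻¹) atTop (𝓝 0) := tendsto_inv_atTop_zero
  have hs2 : Tendsto (fun s : ℝ => (s ^ 2)⁻¹) atTop (𝓝 0) :=
    (tendsto_pow_atTop two_ne_zero).inv_tendsto_atTop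
  have hs3 : Tendsto (fun s : ℝ => (s ^ 3)⁻¹) atTop (𝓝 0) :=
    (tendsto_pow_atTop three_ne_zero).inv_tendsto_atTop
  refine ((eventually_ge_atTop 2).and (eventually_ge_atTop (2 * A + 2))).and ?_
  refine Filter.Eventually.and ?_ (Filter.Eventually.and ?_ (Filter.Eventually.and ?_
    (Filter.Eventually.and ?_ (Filter.Eventually.and ?_ (Filter.Eventually.and ?_
    (Filter.Eventually.and ?_ (Filter.Eventually.and ?_ (Filter.Eventually.and ?_ ?_))))))))
  · have h : Tendsto (fun s : ℝ => 4 * s⁻¹ + (4 * A + 4) * (s ^ 2)⁻¹) atTop (𝓝 0) := by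
      have := (hs1.const_mul 4).add (hs2.const_mul (4 * A + 4))
      simpa using this
    filter_upwards [h.eventually_lt_const hη, eventually_gt_atTop 0] with s h1 h2
    refine le_trans (le_of_eq ?_) h1.le
    field_simp
    ring
  · exact ((numB_mono 4 1 hh).eventually_lt_const (Real.log_pos one_lt_two)).mono
      fun s h => h.le
  · exact ((numB_mono (8 * A) 4 hh).eventually_lt_const one_pos).mono fun s h => h.le
  · have h := (numB_mono (2 + M + 2 * A) 0 hh).add (numB_mono (2 * A) 3 hh)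
    rw [add_zero] at h
    exact (h.eventually_lt_const one_pos).mono fun s h => h.le
  · have h := ((numB_mono 52 5 (show (0 : ℝ) < 1 / 8 by norm_num)).add
      (numB_inv 192)).const_mul (M * Real.exp (A + 1))
    rw [add_zero, mul_zero] at h
    filter_upwards [h.eventually_lt_const (half_pos hδ)] with s h1
    refine le_trans (le_of_eq ?_) h1.le
    rw [mul_assoc 52 (s ^ 5), div_eq_mul_one_div s 8]
  · have h : Tendsto (fun s : ℝ => Real.exp (δ / 2) * ((1 - A * s⁻¹) * (1 - (s ^ 3)⁻¹))⁻¹)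
        atTop (𝓝 (Real.exp (δ / 2))) := by
      have h01 : Tendsto (fun s : ℝ => 1 - A * s⁻¹) atTop (𝓝 1) := by
        have := (tendsto_const_nhds (x := (1 : ℝ))).sub (hs1.const_mul A)
        simpa using this
      have h02 : Tendsto (fun s : ℝ => 1 - (s ^ 3)⁻¹) atTop (𝓝 1) := by
        have := (tendsto_const_nhds (x := (1 : ℝ))).sub hs3
        simpa using this
      have h1 : Tendsto (fun s : ℝ => (1 - A * s⁻¹) * (1 - (s ^ 3)⁻¹)) atTop (𝓝 1) := by
        have := h01.mul h02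
        rwa [one_mul] at this
      have h2 := (h1.inv₀ one_ne_zero).const_mul (Real.exp (δ / 2))
      simpa using h2
    have hlt : Real.exp (δ / 2) < 1 + 2 * δ := by
      have := Real.exp_bound_div_one_sub_of_interval (x := δ / 2) (by positivity)
        (by linarith)
      refine this.trans_lt ?_
      rw [div_lt_iff₀ (by linarith)]
      nlinarith
    filter_upwards [h.eventually_lt_const hlt, eventually_gt_atTop 0] with s h1 h2
    refine le_trans (le_of_eq ?_) h1.le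
    congr 1
    rw [show 1 - A * s⁻¹ = (s - A) / s by field_simp, div_mul_eq_mul_div, inv_div]
  · have h : Tendsto (fun s : ℝ => Real.exp (-(δ / 2)) * (1 + A * s⁻¹)⁻¹ *
        Real.exp (-(2 * s⁻¹ + 2 * A * (s ^ 2)⁻¹))) atTop (𝓝 (Real.exp (-(δ / 2)))) := by
      have h1 : Tendsto (fun s : ℝ => 1 + A * s⁻¹) atTop (𝓝 1) := by
        have := (tendsto_const_nhds (x := (1 : ℝ))).add (hs1.const_mul A)
        simpa using this
      have h2 : Tendsto (fun s : ℝ => -(2 * s⁻¹ + 2 * A * (s ^ 2)⁻¹)) atTop (𝓝 0) := by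
        have := ((hs1.const_mul 2).add (hs2.const_mul (2 * A))).neg
        simpa using this
      have h3 := ((h1.inv₀ one_ne_zero).const_mul (Real.exp (-(δ / 2)))).mul
        ((Real.continuous_exp.tendsto 0).comp h2)
      simpa using h3
    have hlt : 1 - 2 * δ < Real.exp (-(δ / 2)) := by
      have := Real.add_one_le_exp (-(δ / 2))
      linarith
    filter_upwards [h.eventually_const_lt hlt, eventually_gt_atTop 0,
      eventually_gt_atTop (-A)] with s h1 h2 h3
    refine h1.le.trans (le_of_eq ?_)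
    have h4 : s + A ≠ 0 := by linarith
    congr 1
    · congr 1
      rw [show 1 + A * s⁻¹ = (s + A) / s by field_simp, inv_div]
    · congr 2
      field_simp
  · have h : Tendsto (fun s : ℝ => Real.exp (-(4 * (s ^ 1 * Real.exp (-(s * (1 / 2)))))))
        atTop (𝓝 1) := by
      have h1 := (numB_mono 4 1 hh).neg
      have h2 := (Real.continuous_exp.tendsto _).comp h1
      simpa [Function.comp_def] using h2
    exact (h.eventually_const_lt hρ).mono fun s h => h.le
  · have h1 : Tendsto (fun s : ℝ => 2 * Real.log (2 * √s)) atTop atTop :=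
      (Real.tendsto_log_atTop.comp (Real.tendsto_sqrt_atTop.const_mul_atTop
        two_pos)).const_mul_atTop two_pos
    have h2 : Tendsto (fun s : ℝ => Real.log 2 / (2 * Real.log (2 * √s))) atTop (𝓝 0) :=
      tendsto_const_nhds.div_atTop h1
    exact (h2.eventually_lt_const he).mono fun s h => h.le
  · have h := Real.isLittleO_log_id_atTop.def
      (show (0 : ℝ) < (1 - lam1) / 8 by linarith)
    filter_upwards [h, eventually_gt_atTop 0] with s h1 h2
    have h3 := (le_abs_self _).trans h1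
    rw [id, Real.norm_of_nonneg h2.le] at h3
    linarith

/-- `s` as a function of `u = log n` -/
private def numBs (c u : ℝ) : ℝ := u + 2 * Real.log u + Real.log c

private theorem numB_ratio (c : ℝ) :
    Tendsto (fun u : ℝ => (2 * Real.log u + Real.log c) / u) atTop (𝓝 0) := by
  have h1 := (Real.isLittleO_log_id_atTop.tendsto_div_nhds_zero).const_mul 2
  have h2 := h1.add (numB_inv (Real.log c))
  rw [mul_zero, add_zero] at h2
  refine h2.congr fun u => ?_
  simp only [id]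
  ring

private theorem numB_tendsto (c : ℝ) : Tendsto (numBs c) atTop atTop := by
  have h := (numB_ratio c).eventually_const_lt (show (-(1 / 2) : ℝ) < 0 by norm_num)
  have h2 : ∀ᶠ u : ℝ in atTop, u * (1 / 2) ≤ numBs c u := by
    filter_upwards [h, eventually_gt_atTop 0] with u h1 h2
    rw [lt_div_iff₀ h2] at h1
    rw [numBs]
    linarith
  exact tendsto_atTop_mono' _ h2 (tendsto_id.atTop_mul_const (by norm_num))

/-- the conditions on `u = log n` -/
private theorem numB_u {M A δ lam1 e K c : ℝ} (hδ : 0 < δ) (hl : 0 < lam1) (he : 0 < e)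
    (hc : 0 < c) :
    ∀ᶠ u : ℝ in atTop, 0 < u ∧ u ≤ numBs c u ∧ numBs c u ≤ 2 * u ∧
      numBs c u ≤ (1 + e / 2) * u ∧ K ≤ lam1 * u ∧ 3 * M / (c / 4 * u) ≤ δ / 2 ∧
      4 * M * c * Real.exp (A + 1) / δ ^ 2 * 64 * (u ^ 8 * Real.exp (-(u * δ))) ≤ 1 ∧
      1 ≤ e * u := by
  refine (eventually_gt_atTop 0).and ?_
  refine Filter.Eventually.and ?_ (Filter.Eventually.and ?_ (Filter.Eventually.and ?_
    (Filter.Eventually.and ?_ (Filter.Eventually.and ?_ (Filter.Eventually.and ?_ ?_)))))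
  · filter_upwards [Real.tendsto_log_atTop.eventually_ge_atTop (-(Real.log c) / 2)] with u h
    rw [numBs]
    linarith
  · filter_upwards [(numB_ratio c).eventually_lt_const one_pos, eventually_gt_atTop 0]
      with u h1 h2
    rw [div_lt_iff₀ h2] at h1
    rw [numBs]
    linarith
  · filter_upwards [(numB_ratio c).eventually_lt_const (half_pos he), eventually_gt_atTop 0]
      with u h1 h2
    rw [div_lt_iff₀ h2] at h1
    rw [numBs]
    linarith
  · exact (tendsto_id.const_mul_atTop hl).eventually_ge_atTop K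
  · have h : Tendsto (fun u : ℝ => 3 * M / (c / 4 * u)) atTop (𝓝 0) :=
      tendsto_const_nhds.div_atTop (tendsto_id.const_mul_atTop (by positivity))
    exact (h.eventually_lt_const (half_pos hδ)).mono fun u h => h.le
  · exact ((numB_mono _ 8 hδ).eventually_lt_const one_pos).mono fun u h => h.le
  · exact (tendsto_id.const_mul_atTop he).eventually_ge_atTop 1

private theorem numB_q1 {c u s : ℝ} (hc : 0 < c) (hu : 0 < u) (h : s ≤ 2 * u) :
    c / 4 * u * (2 * s) ≤ c * u ^ 2 := by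
  have := mul_nonneg (mul_pos hc hu).le (sub_nonneg.2 h)
  linarith [show c * u * (2 * u - s) = 2 * (c * u ^ 2 - c / 4 * u * (2 * s)) by ring]

private theorem numB_q2 {l u s : ℝ} (hl : 0 < l) (hu : 0 < u) (h : s ≤ 2 * u) :
    l * u * s ≤ 2 * l * u ^ 2 := by
  have := mul_nonneg (mul_pos hl hu).le (sub_nonneg.2 h)
  linarith [show l * u * (2 * u - s) = 2 * l * u ^ 2 - l * u * s by ring]

private theorem numB_q3 {l u s : ℝ} (hl : 0 < l) (hu : 0 < u) (h : u ≤ s) :
    2 * l * u ^ 2 ≤ l * u * (s * 2) := by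
  have := mul_nonneg (mul_pos hl hu).le (sub_nonneg.2 h)
  linarith [show l * u * (s - u) = (l * u * (s * 2) - 2 * l * u ^ 2) / 2 by ring]

private theorem numB_q4 {l u s : ℝ} (hl : l < 1) (h : s ≤ 2 * u) :
    (1 - l) / 2 * s ≤ (1 - l) * u := by
  have := mul_nonneg (sub_nonneg.2 hl.le) (sub_nonneg.2 h)
  linarith [show (1 - l) * (2 * u - s) = 2 * ((1 - l) * u - (1 - l) / 2 * s) by ring]

private theorem numB_q5 {l e : ℝ} (hl : 0 < l) (hl1 : l < 1) (he : 0 < e) (u : ℝ) :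
    (2 * l - e) * u * ((1 + e / 2) * u) ≤ 2 * l * u ^ 2 := by
  have h2 : (2 * l - e) * (1 + e / 2) ≤ 2 * l := by nlinarith
  have h3 := mul_le_mul_of_nonneg_right h2 (sq_nonneg u)
  linarith [show (2 * l - e) * u * ((1 + e / 2) * u) = (2 * l - e) * (1 + e / 2) * u ^ 2 by
    ring]

private theorem numB_q6 {v : ℝ} (hv0 : 0 ≤ v) (hv1 : v ≤ 1) : Real.exp (-v) ≤ 1 - v / 2 := by
  have h3 : Real.exp (-v) = (Real.exp v)⁻¹ := Real.exp_neg v
  have h4 : 1 + v ≤ Real.exp v := by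
    have := Real.add_one_le_exp v
    linarith
  rw [h3, inv_le_comm₀ (Real.exp_pos v) (by linarith)]
  refine le_trans ?_ h4
  rw [inv_le_comm₀ (by linarith) (by linarith), ← one_div, div_le_iff₀ (by linarith)]
  nlinarith

private theorem numB_q7 {i l : ℝ} (hi : 0 < i) (hl : 1 / 2 ≤ l) : i ≤ 4 * l * (i * 2⁻¹) := by
  have := mul_nonneg hi.le (sub_nonneg.2 hl)
  linarith [show i * (l - 1 / 2) = (4 * l * (i * 2⁻¹) - i) / 2 by ring]

/-- PROOF. Put `c = 4 lam1 / (1 + 4 δ)`, `s = log (c n (log n) ^ 2) = u + 2 log u + log c` with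
`u = log n`, for `n → ∞`. Then `s / u → 1`, `R = exp s / (2 n s) = c u ^ 2 / (2 s)`, so
`R (1 + 4 δ) / u → 2 lam1 < 2`. All statements hold for all large `n`: `s → ∞`, `s ≤ 2 u`, powers of
`s` are small compared with `n = exp u` and with `exp (s / 8)`, `4 log s / n → 0`,
`- log (4 log s / n) = u - log (4 log s)`, `exp (s + A + 1) s ^ 6 / n ^ (1 + δ) =
c u ^ 2 exp (A + 1) s ^ 6 n ^ (- δ) → 0`, and `1 - x ≥ (2 log s) / n ≥ n ^ (- (1 + δ))`
(`1 - exp (- v) ≥ v / 2` for `v ≤ 1`), `x → 1`. -/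
theorem exists_params {a : ℕ → ℂ} {N : ℕ} {M A δ η lam1 e K ρ : ℝ} (hM : 1 ≤ M) (hA0 : 0 ≤ A)
    (hA : ∑ k ∈ Finset.range N, ((k : ℝ) + 1) * ‖a k‖ * 2 ^ (k + 2) ≤ A) (hδ : 0 < δ)
    (hδ1 : δ ≤ 1 / 4) (hη : 0 < η) (hη1 : η ≤ 1) (hl : 0 < lam1) (hl1 : lam1 < 1) (he : 0 < e)
    (hρ : ρ < 1) : ∃ (n : ℕ) (s : ℝ), OK ⟨a, N, n, s⟩ M A δ η ∧
      K ≤ (Prm.mk a N n s).R * (1 + 4 * δ) ∧
      (Prm.mk a N n s).R * (1 + 4 * δ) / 2 ≤ -Real.log (4 * Real.log s / n) ∧
      (2 * lam1 - e) * Real.log n ≤ (Prm.mk a N n s).R * (1 + 4 * δ) ∧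
      ρ ≤ (Prm.mk a N n s).x ∧
      (Prm.mk a N n s).x ≤ 1 - (n : ℝ) ^ (-(1 + δ)) ∧
      (n : ℝ) ^ (-(1 + δ)) * (4 * M * Real.exp (s + A + 1) * s ^ 6 / δ ^ 2) ≤ 1 ∧
      Real.log 2 / (2 * Real.log (2 * √s)) ≤ e ∧ 1 ≤ e * Real.log n := by
  obtain ⟨c, hc⟩ : ∃ c, c = 4 * lam1 / (1 + 4 * δ) := ⟨_, rfl⟩
  have hc0 : 0 < c := by
    rw [hc]
    positivity
  have hcm : c * (1 + 4 * δ) = 4 * lam1 := by
    rw [hc]
    field_simp
  have h1 := (numB_u (M := M) (A := A) (K := K) hδ hl he hc0).and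
    ((numB_tendsto c).eventually (numB_s (M := M) (A := A) hδ hδ1 hη hl1 he hρ))
  have h2 := (Real.tendsto_log_atTop.comp tendsto_natCast_atTop_atTop).eventually h1
  obtain ⟨n, hnn, hnN⟩ := (h2.and (eventually_ge_atTop (2 * N + 1))).exists
  obtain ⟨u, hn⟩ : ∃ u, u = Real.log (n : ℝ) := ⟨_, rfl⟩
  rw [Function.comp_apply, ← hn] at hnn
  obtain ⟨⟨hu0, hus, hs2u, hse, hKu, hMu, h7u, heu⟩, hS⟩ := hnn
  obtain ⟨⟨hs2, hsA⟩, e1, e2, e3, e4, e5, e6, e7, hx, hlog, hl4⟩ := hS
  obtain ⟨s, hs⟩ : ∃ s, s = numBs c u := ⟨_, rfl⟩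
  rw [← hs] at hus hs2u hse hs2 hsA e1 e2 e3 e4 e5 e6 e7 hx hlog hl4
  have hn0 : (0 : ℝ) < n := by
    have : 1 ≤ n := by omega
    exact_mod_cast this
  have hen : Real.exp u = n := by rw [hn, Real.exp_log hn0]
  have hes : Real.exp s = c * n * u ^ 2 := by
    rw [hs, numBs, Real.exp_add, Real.exp_add, hen, Real.exp_log hc0,
      show 2 * Real.log u = Real.log u + Real.log u by ring, Real.exp_add,
      Real.exp_log hu0]
    ring
  have hs0 : 0 < s := by linarith
  have hinv : (n : ℝ)⁻¹ ≤ Real.exp (-(s * (1 / 2))) := by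
    rw [← hen, ← Real.exp_neg]
    exact Real.exp_le_exp.2 (by linarith)
  have hls : Real.log s ≤ s := (Real.log_le_sub_one_of_pos hs0).trans (by linarith)
  have hls1 : 1 / 2 ≤ Real.log s := by
    have h1 : Real.log 2 ≤ Real.log s := Real.log_le_log two_pos hs2
    have h2 := Real.log_two_gt_d9
    linarith
  have hv : 4 * Real.log s / n ≤ 4 * (s ^ 1 * Real.exp (-(s * (1 / 2)))) := by
    rw [pow_one, div_eq_mul_inv, mul_assoc]
    exact mul_le_mul_of_nonneg_left (mul_le_mul hls hinv (inv_nonneg.2 hn0.le) hs0.le)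
      (by norm_num)
  have hv0 : 0 ≤ 4 * Real.log s / n := by
    have : 0 ≤ Real.log s := by linarith
    positivity
  have hRval : (Prm.mk a N n s).R = c * u ^ 2 / (2 * s) := by
    show Real.exp s / (2 * n * s) = _
    rw [hes]
    field_simp
  have hR4 : (Prm.mk a N n s).R * (1 + 4 * δ) = 2 * lam1 * u ^ 2 / s := by
    rw [hRval]
    rw [show c * u ^ 2 / (2 * s) * (1 + 4 * δ) = c * (1 + 4 * δ) * u ^ 2 / (2 * s) by ring,
      hcm]
    field_simp
    ring
  have hxval : (Prm.mk a N n s).x = Real.exp (-(4 * Real.log s / n)) := rfl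
  have hn1 : (1 : ℝ) ≤ n := by
    have : 1 ≤ n := by omega
    exact_mod_cast this
  refine ⟨n, s, ?_, ?_, ?_, ?_, ?_, ?_, ?_, hlog, ?_⟩
  · have hM0 : 0 < M := by linarith
    refine ⟨hM, hA0, hA, hδ, hδ1, hη, hη1, ?_, ?_, hs2, hsA, e1, hv.trans e2, ?_, ?_, ?_,
      e6, e7⟩
    · show 2 * N ≤ n
      omega
    · show 1 ≤ n
      omega
    · show 8 * A * s ^ 3 * Real.log s / n ≤ 1
      refine le_trans ?_ e3
      rw [div_eq_mul_inv]
      have h1 : 8 * A * s ^ 3 * Real.log s * (n : ℝ)⁻¹ ≤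
          8 * A * s ^ 3 * s * Real.exp (-(s * (1 / 2))) :=
        mul_le_mul (mul_le_mul_of_nonneg_left hls (by positivity)) hinv
          (inv_nonneg.2 hn0.le) (by positivity)
      refine h1.trans (le_of_eq ?_)
      ring
    · show 2 + M + 2 * A + 2 * A * s ^ 3 ≤ n
      have h1 : (2 + M + 2 * A + 2 * A * s ^ 3) * (n : ℝ)⁻¹ ≤ 1 := by
        refine le_trans (mul_le_mul_of_nonneg_left hinv (by positivity)) ?_
        refine le_trans (le_of_eq ?_) e4
        ring
      rw [← div_eq_mul_inv, div_le_one hn0] at h1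
      exact h1
    · show 3 * M / (Prm.mk a N n s).R + M * Real.exp (A + 1) *
        (52 * s ^ 5 * Real.exp (-(s / 8)) + 192 / s) ≤ δ
      have h1 : 3 * M / (Prm.mk a N n s).R ≤ δ / 2 := by
        refine le_trans ?_ hMu
        rw [hRval]
        refine div_le_div_of_nonneg_left (by positivity) (by positivity) ?_
        rw [le_div_iff₀ (by positivity)]
        exact numB_q1 hc0 hu0 hs2u
      linarith
  · rw [hR4]
    refine hKu.trans ?_
    rw [le_div_iff₀ hs0]
    exact numB_q2 hl hu0 hs2u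
  · rw [hR4]
    have h1 : 2 * lam1 * u ^ 2 / s / 2 ≤ lam1 * u := by
      rw [div_div, div_le_iff₀ (by positivity)]
      exact numB_q3 hl hu0 hus
    have h2 : Real.log (4 * Real.log s / n) ≤ (1 - lam1) * u - u := by
      have h3 : 0 < 4 * Real.log s := by linarith
      rw [Real.log_div h3.ne' hn0.ne', ← hn]
      have h4 := Real.log_le_sub_one_of_pos h3
      have h5 : (1 - lam1) / 2 * s ≤ (1 - lam1) * u := numB_q4 hl1 hs2u
      linarith
    linarith
  · rw [hR4, ← hn, le_div_iff₀ hs0]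
    by_cases hsg : 2 * lam1 - e ≤ 0
    · have h1 : (2 * lam1 - e) * u * s ≤ 0 :=
        mul_nonpos_of_nonpos_of_nonneg (mul_nonpos_of_nonpos_of_nonneg hsg hu0.le) hs0.le
      have h2 : 0 ≤ 2 * lam1 * u ^ 2 := by positivity
      exact h1.trans h2
    · have hsg' : 0 < 2 * lam1 - e := not_le.1 hsg
      have h1 : (2 * lam1 - e) * u * s ≤ (2 * lam1 - e) * u * ((1 + e / 2) * u) :=
        mul_le_mul_of_nonneg_left hse (by positivity)
      refine h1.trans ?_
      exact numB_q5 hl hl1 he u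
  · rw [hxval]
    exact hx.trans (Real.exp_le_exp.2 (neg_le_neg hv))
  · rw [hxval]
    have h1 : 4 * Real.log s / n ≤ 1 := by
      have := Real.log_two_lt_d9
      linarith
    obtain ⟨v, hvd⟩ : ∃ v, v = 4 * Real.log s / n := ⟨_, rfl⟩
    have h2 : Real.exp (-v) ≤ 1 - v / 2 := by
      rw [← hvd] at h1 hv0
      exact numB_q6 hv0 h1
    have h5 : (n : ℝ) ^ (-(1 + δ)) ≤ v / 2 := by
      have h6 : (n : ℝ) ^ (-(1 + δ)) ≤ (n : ℝ) ^ (-1 : ℝ) :=
        Real.rpow_le_rpow_of_exponent_le hn1 (by linarith)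
      rw [Real.rpow_neg_one] at h6
      refine h6.trans ?_
      rw [hvd, div_div, div_eq_mul_inv, mul_inv]
      exact numB_q7 (inv_pos.2 hn0) hls1
    rw [← hvd]
    linarith
  · have h1 : (n : ℝ) ^ (-(1 + δ)) = (n : ℝ)⁻¹ * Real.exp (-(u * δ)) := by
      rw [Real.rpow_def_of_pos hn0, ← hn, ← hen, ← Real.exp_neg, ← Real.exp_add]
      congr 1
      ring
    rw [h1, show s + A + 1 = s + (A + 1) by ring, Real.exp_add s, hes]
    refine le_trans ?_ h7u
    have h2 : s ^ 6 ≤ (2 * u) ^ 6 := pow_le_pow_left₀ hs0.le hs2u 6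
    have hM0 : 0 < M := by linarith
    calc (n : ℝ)⁻¹ * Real.exp (-(u * δ)) *
          (4 * M * (c * n * u ^ 2 * Real.exp (A + 1)) * s ^ 6 / δ ^ 2)
        = 4 * M * c * Real.exp (A + 1) / δ ^ 2 * u ^ 2 * Real.exp (-(u * δ)) * s ^ 6 := by
          field_simp
      _ ≤ 4 * M * c * Real.exp (A + 1) / δ ^ 2 * u ^ 2 * Real.exp (-(u * δ)) *
          (2 * u) ^ 6 := mul_le_mul_of_nonneg_left h2 (by positivity)
      _ = _ := by ring
  · rw [← hn]
    exact heu

end Pool.Agent.MP4b24a5.LB
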