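import Pool.Agent.Lib.MP_4b24a5_an_LB.NewC
import Pool.Agent.Lib.MP_4b24a5_an_LB.NewM
import Pool.Agent.Lib.MP_4b24a5_an_LB.NewL
import Pool.Agent.Lib.MP_4b24a5_an_LB.NumA
import Pool.Agent.Lib.MP_4b24a5_an_LB.NumB

set_option autoImplicit false

/-!
# MP_4b24a5_an, project LB: one stage
-/

noncomputable section

namespace Pool.Agent.MP4b24a5.LB

open Complex Metric Set MeasureTheory Filter Topology

/-- PROOF. `choice lam0` gives `θ, lam1, e`; `δ = θ ^ 4 ≤ 1 / 4`. `St.exists_bdd` gives `M`,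
`St.exists_poly` with `δ / 2` gives `a, N`; `A` is the sum in `OK.hA`. Let
`η ≤ 1`, `2 M η ≤ ε / 2`, `η ≤ ε / 2`, and `K` such that `6 M ≤ K`, `18 M ^ 2 / K ≤ ε / 2`,
`12 M / K ≤ ε / 2`. Then `exists_params` (with `max ρ 0`) and `exists_bt`, `b' = bs`, `l' = ls`,
`r = 1 - n ^ (- (1 + δ))`, so `L r = (1 + δ) log n`. For `‖z‖ ≤ x` the bound for `Re b'` follows
from
`new_close`, for `x ≤ ‖z‖ < 1` from `new_re` and
`R1 / 2 ≤ - log (4 log s / n) ≤ - log (1 - x) = L x ≤ L ‖z‖` (`x_facts`).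
`mp b' r ≥ mp b' 1 - 1` (`new_lip`), `new_mean`, and
`R1 (1 / 2 - 7 θ ^ 2 - log 2 / log (2 / θ) - e) - 1 ≥ (2 lam1 - e) log n * (..) - e log n
≥ lam0 (1 + θ ^ 4) log n = lam0 L r`. -/
theorem stage {lam0 : ℝ} (h0 : 0 < lam0) (h1 : lam0 < 1) {b l : ℂ → ℂ} {R C ε ρ : ℝ}
    (hst : St b l R) (hC : 0 ≤ C) (hb : ∀ z : ℂ, ‖z‖ < 1 → (b z).re ≤ L ‖z‖ + C) (hε : 0 < ε)
    (hρ : ρ < 1) : ∃ (b' l' : ℂ → ℂ) (R' r : ℝ), St b' l' R' ∧ ρ ≤ r ∧ r < 1 ∧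
      (∀ z : ℂ, ‖z‖ ≤ ρ → ‖b' z - b z‖ ≤ ε ∧ ‖l' z - l z‖ ≤ ε) ∧
      (∀ z : ℂ, ‖z‖ < 1 → (b' z).re ≤ L ‖z‖ + (C + ε)) ∧ lam0 * L r ≤ mp b' r := by
  obtain ⟨θ, lam1, e, hθ, hθ1, hl, hl1, he, h2l, hc, hmain⟩ := choice h0 h1
  have hδ : 0 < θ ^ 4 := by positivity
  have hδ1 : θ ^ 4 ≤ 1 / 4 := by
    have h2 : θ ^ 4 ≤ (1 / 2) ^ 4 := pow_le_pow_left₀ hθ.le hθ1 4
    norm_num at h2
    linarith
  obtain ⟨M, hbd⟩ := hst.exists_bdd
  have hM := hbd.h1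
  have hM0 : 0 < M := by linarith
  obtain ⟨a, N, happ⟩ := hst.exists_poly (δ := θ ^ 4 / 2) (by positivity)
  obtain ⟨A, hA⟩ : ∃ A : ℝ, A = ∑ k ∈ Finset.range N, ((k : ℝ) + 1) * ‖a k‖ * 2 ^ (k + 2) :=
    ⟨_, rfl⟩
  have hA0 : 0 ≤ A := by
    rw [hA]
    exact Finset.sum_nonneg fun k _ => by positivity
  obtain ⟨η, hη⟩ : ∃ η : ℝ, η = min 1 (ε / (4 * M)) := ⟨_, rfl⟩
  have hη0 : 0 < η := by
    rw [hη]
    exact lt_min one_pos (by positivity)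
  have hη1 : η ≤ 1 := by
    rw [hη]
    exact min_le_left _ _
  have hη2 : η ≤ ε / (4 * M) := by
    rw [hη]
    exact min_le_right _ _
  have hη3 : 2 * M * η ≤ ε / 2 := by
    have h2 : 2 * M * η ≤ 2 * M * (ε / (4 * M)) := mul_le_mul_of_nonneg_left hη2 (by positivity)
    have h3 : 2 * M * (ε / (4 * M)) = ε / 2 := by
      field_simp
      norm_num
    linarith
  have hη4 : η ≤ ε / 2 := by
    have h2 : 1 * η ≤ 2 * M * η := mul_le_mul_of_nonneg_right (by linarith) hη0.le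
    linarith
  obtain ⟨K, hK⟩ : ∃ K : ℝ, K = max (6 * M) (max (36 * M ^ 2 / ε) (24 * M / ε)) := ⟨_, rfl⟩
  obtain ⟨n, s, hok, hKR, hRx, hRn, hρx, hxn, hLip, hs2, hen⟩ :=
    exists_params (a := a) (N := N) (K := K) (ρ := max ρ 0) hM hA0 hA.symm.le hδ hδ1 hη0 hη1 hl
      hl1 he (max_lt hρ one_pos)
  obtain ⟨P, hP⟩ : ∃ P : Prm, P = Prm.mk a N n s := ⟨_, rfl⟩
  have hPs : P.s = s := by rw [hP]
  have hPn : P.n = n := by rw [hP]
  rw [← hP] at hok hKR hRx hRn hρx hxn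
  obtain ⟨bt, R2, hstg, hR2, hR2R, hkap, hder⟩ := exists_bt hst hbd hok (by
    rw [hP]
    exact happ)
  obtain ⟨R3, hst3⟩ := new_st hstg hR2 hR2R hkap hder
  obtain ⟨hx1, hx2, -, hx4, -, -⟩ := x_facts hok
  rw [hPs, hPn] at hx4
  have hR1 : R1 P (θ ^ 4) = P.R * (1 + 4 * θ ^ 4) := rfl
  have hR1p := R1_pos hok
  rw [← hR1] at hKR hRx hRn
  have hK1 : 6 * M ≤ R1 P (θ ^ 4) := by
    refine le_trans ?_ hKR
    rw [hK]
    exact le_max_left _ _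
  have hK2 : 36 * M ^ 2 / ε ≤ R1 P (θ ^ 4) := by
    refine le_trans ?_ hKR
    rw [hK]
    exact (le_max_left _ _).trans (le_max_right _ _)
  have hK3 : 24 * M / ε ≤ R1 P (θ ^ 4) := by
    refine le_trans ?_ hKR
    rw [hK]
    exact (le_max_right _ _).trans (le_max_right _ _)
  have hK4 : 18 * M ^ 2 / R1 P (θ ^ 4) ≤ ε / 2 := by
    rw [div_le_iff₀ hε] at hK2
    rw [div_le_iff₀ hR1p]
    linarith
  have hK5 : 12 * M / R1 P (θ ^ 4) ≤ ε / 2 := by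
    rw [div_le_iff₀ hε] at hK3
    rw [div_le_iff₀ hR1p]
    linarith
  have hn1 : (1 : ℝ) ≤ (n : ℝ) := by
    have h2 := hok.hn
    rw [hPn] at h2
    exact_mod_cast h2
  have hn0 : (0 : ℝ) < (n : ℝ) := by linarith
  have hnr : 0 < (n : ℝ) ^ (-(1 + θ ^ 4)) := Real.rpow_pos_of_pos hn0 _
  have hclose : ∀ z : ℂ, ‖z‖ ≤ P.x → ‖bs P (θ ^ 4) bt z - b z‖ ≤ ε := by
    intro z hz
    have h2 := new_close hstg hK1 hz
    linarith
  refine ⟨bs P (θ ^ 4) bt, ls P (θ ^ 4) l bt, R3, 1 - (n : ℝ) ^ (-(1 + θ ^ 4)), hst3, ?_, ?_,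
    ?_, ?_, ?_⟩
  · exact (le_max_left _ _).trans (hρx.trans hxn)
  · linarith
  · intro z hz
    have hzx : ‖z‖ ≤ P.x := hz.trans ((le_max_left _ _).trans hρx)
    refine ⟨hclose z hzx, ?_⟩
    have h2 := new_close_l hstg hK1 hzx
    linarith
  · intro z hz
    rcases le_total ‖z‖ P.x with hzx | hzx
    · have h2 := hclose z hzx
      have h3 := (Complex.re_le_norm _).trans h2
      rw [Complex.sub_re] at h3
      have h4 := hb z hz
      linarith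
    · have h2 := new_re hstg hz.le
      have h3 : Real.log (1 - P.x) ≤ Real.log (4 * Real.log s / n) :=
        Real.log_le_log (by linarith) hx4
      have h4 : Real.log (1 - ‖z‖) ≤ Real.log (1 - P.x) :=
        Real.log_le_log (by linarith) (by linarith)
      have h5 : L ‖z‖ = -Real.log (1 - ‖z‖) := rfl
      rw [h5]
      linarith
  · have h2 : L (1 - (n : ℝ) ^ (-(1 + θ ^ 4))) = (1 + θ ^ 4) * Real.log n := by
      have h3 : L (1 - (n : ℝ) ^ (-(1 + θ ^ 4))) =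
          -Real.log (1 - (1 - (n : ℝ) ^ (-(1 + θ ^ 4)))) := rfl
      rw [h3, sub_sub_cancel, Real.log_rpow hn0]
      ring
    have h3 := new_lip hstg hxn (by linarith)
    have h4 := new_mean hθ hθ1 hstg hK1
    rw [sub_sub_cancel, hPs] at h3
    rw [hPs] at h4
    have hlog : 0 ≤ Real.log n := Real.log_nonneg hn1
    have h5 : (2 * lam1 - e) * Real.log n *
        (1 / 2 - 7 * θ ^ 2 - Real.log 2 / Real.log (2 / θ) - e) ≤
        R1 P (θ ^ 4) * (1 / 2 - 7 * θ ^ 2 - Real.log 2 / Real.log (2 / θ) - e) :=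
      mul_le_mul_of_nonneg_right hRn hc
    have h6 : R1 P (θ ^ 4) * (1 / 2 - 7 * θ ^ 2 - Real.log 2 / Real.log (2 / θ) - e) ≤
        R1 P (θ ^ 4) * (1 / 2 - 7 * θ ^ 2 - Real.log 2 / Real.log (2 / θ) -
          Real.log 2 / (2 * Real.log (2 * √s))) :=
      mul_le_mul_of_nonneg_left (by linarith) hR1p.le
    have h7 : lam0 * (1 + θ ^ 4) * Real.log n ≤ ((2 * lam1 - e) *
        (1 / 2 - 7 * θ ^ 2 - Real.log 2 / Real.log (2 / θ) - e) - e) * Real.log n :=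
      mul_le_mul_of_nonneg_right hmain hlog
    have h8 : ((2 * lam1 - e) * (1 / 2 - 7 * θ ^ 2 - Real.log 2 / Real.log (2 / θ) - e) - e) *
        Real.log n = (2 * lam1 - e) * Real.log n *
        (1 / 2 - 7 * θ ^ 2 - Real.log 2 / Real.log (2 / θ) - e) - e * Real.log n := by ring
    rw [h2, ← mul_assoc]
    linarith

end Pool.Agent.MP4b24a5.LB
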